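/-
ROW E1. Violating pairs: symmetry and sizes.
PROOF. `Vio_sy`: `ee_comm` (`H64/LN/K5.lean`), `add_comm`. `e1a`: `φ := 1 / (100 N)`, `Q := (|S| + |S'|) / 2`, `a := Δ / mT N > 0`. `ee G S S' = ∑ x ∈ S, |N(x) ∩ S'| ≤ |S| (1 + N ^ -9) a` (members of `S'` have type `t'`; `dg` for `x ∈ S ⊆ bl G v (8 N ^ 3) ⊆ bl G v (8 N ^ 3 + 1)`), and by symmetry `≤ |S'| (1 + N ^ -9) a`. With `vi`: `|S| (1 + N ^ -9) > (1 - φ) Q`, so `|S| ≥ (1 - (101/100) φ) Q` (`N ^ -9 ≤ φ / 100`), same for `|S'|`; as `|S| + |S'| = 2 Q`, `|S| ≤ (1 + (101/100) φ) Q`. `(101/100) φ = 101 / 10000 / N`.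
`Q > 0` (otherwise `S = S' = ∅`, `ee = 0`, `vi` false). `ee ≤ |S| |S'| ≤ Q ^ 2`, so `Q > (1 - φ) a ≥ a / 2`.
-/
import Pool.Agent.H2.LN.HD

set_option autoImplicit false
set_option linter.unusedSectionVars false

namespace Pool.Agent.H2.LN.HH

open Finset Classical
open Pool.Agent.H65.GI Pool.Agent.H64.LN

variable {V T : Type} [Fintype V] [Fintype T] [Nonempty T]
variable {G : SimpleGraph V} {Δ : ℕ}

theorem Vio_sy {N : ℕ} {χ : V → Ty N} {v : V} {t t' : Ty N} {S S' : Finset V}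
    (h : Vio G N Δ χ v t t' S S') : Vio G N Δ χ v t' t S' S where
  ne := h.ne.symm
  s1 := h.s2
  s2 := h.s1
  t1 := h.t2
  t2 := h.t1
  c1 := h.c2
  c2 := h.c1
  vi := by
    rw [ee_comm G S' S, add_comm (S'.card : ℝ)]
    exact h.vi
  dg := h.dg

private theorem E1_mT0 (N : ℕ) : (0 : ℝ) < mT N := by
  have h1 : 0 < mT N := by
    unfold mT
    positivity
  exact_mod_cast h1

private theorem E1_le {N : ℕ} {χ : V → Ty N} {v : V} {t t' : Ty N} {S S' : Finset V}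
    (h : Vio G N Δ χ v t t' S S') : (ee G S S' : ℝ) ≤
      (S.card : ℝ) * ((Δ : ℝ) / mT N + (Δ : ℝ) / mT N / N ^ 9) := by
  unfold ee
  rw [Nat.cast_sum]
  have h1 : ∀ x ∈ S, (((S'.filter (fun y => G.Adj x y)).card : ℕ) : ℝ) ≤
      (Δ : ℝ) / mT N + (Δ : ℝ) / mT N / N ^ 9 := by
    intro x hx
    have hx1 : x ∈ bl G v (8 * N ^ 3 + 1) := bl_mono G v (Nat.le_succ _) (h.s1 hx)
    have h2 := h.dg x hx1 t'
    have h3 : (S'.filter (fun y => G.Adj x y)).card ≤ (univ.filter (fun u => G.Adj x u ∧ χ u = t')).card := by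
      refine Finset.card_le_card fun y hy => ?_
      rw [Finset.mem_filter] at hy ⊢
      exact ⟨Finset.mem_univ y, hy.2, h.t2 y hy.1⟩
    have h4 : (((S'.filter (fun y => G.Adj x y)).card : ℕ) : ℝ) ≤
        ((univ.filter (fun u => G.Adj x u ∧ χ u = t')).card : ℝ) := by exact_mod_cast h3
    have h5 := (abs_le.1 h2).2
    linarith
  calc ∑ x ∈ S, (((S'.filter (fun y => G.Adj x y)).card : ℕ) : ℝ)
      ≤ ∑ _x ∈ S, ((Δ : ℝ) / mT N + (Δ : ℝ) / mT N / N ^ 9) := Finset.sum_le_sum h1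
    _ = _ := by rw [Finset.sum_const, nsmul_eq_mul]

private theorem E1_num {s s' a N e : ℝ} (hN : 100 ≤ N) (ha : 0 < a) (hs : 0 ≤ s) (hs' : 0 ≤ s')
    (h1 : e ≤ s * (a + a / N ^ 9)) (h2 : (1 - 1 / (100 * N)) * a * ((s + s') / 2) < e) :
    (1 - 101 / 10000 / N) * ((s + s') / 2) ≤ s := by
  have hN0 : 0 < N := by linarith
  set Q := (s + s') / 2 with hQ
  have hQ0 : 0 ≤ Q := by positivity
  set φ := 1 / (100 * N) with hφ
  set η := 1 / N ^ 9 with hη
  have hη0 : 0 ≤ η := by positivity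
  have hηφ : η ≤ φ / 100 := by
    rw [hη, hφ, div_div, div_le_div_iff₀ (by positivity) (by positivity)]
    have : (10 : ℝ) ^ 4 ≤ N ^ 8 := by
      calc (10 : ℝ) ^ 4 ≤ 100 ^ 8 := by norm_num
        _ ≤ N ^ 8 := pow_le_pow_left₀ (by norm_num) hN 8
    nlinarith
  have hφ1 : φ ≤ 1 / 2 := by
    rw [hφ, div_le_div_iff₀ (by positivity) (by norm_num)]
    linarith
  have hφ0 : 0 ≤ φ := by positivity
  have h3 : (1 - φ) * a * Q < s * (1 + η) * a := by
    calc (1 - φ) * a * Q < e := h2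
      _ ≤ s * (a + a / N ^ 9) := h1
      _ = s * (1 + η) * a := by rw [hη]; ring
  have h4 : (1 - φ) * Q < s * (1 + η) := by
    have : a * ((1 - φ) * Q) < a * (s * (1 + η)) := by linarith
    exact lt_of_mul_lt_mul_left this ha.le
  have h5 : 101 / 10000 / N = φ + φ / 100 := by
    rw [hφ]
    field_simp
    norm_num
  rw [h5]
  -- multiply by (1 - η)
  have h6 : (1 - η) * ((1 - φ) * Q) ≤ (1 - η) * (s * (1 + η)) := by
    apply mul_le_mul_of_nonneg_left h4.le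
    linarith
  have h7 : (1 - η) * (s * (1 + η)) ≤ s := by
    have : (1 - η) * (s * (1 + η)) = s - s * η ^ 2 := by ring
    rw [this]
    have : 0 ≤ s * η ^ 2 := by positivity
    linarith
  have h8 : (1 - (φ + φ / 100)) * Q ≤ (1 - η) * ((1 - φ) * Q) := by
    have : 0 ≤ Q * (φ / 100 - η) := mul_nonneg hQ0 (by linarith)
    have h9 : 0 ≤ Q * (η * φ) := by positivity
    nlinarith
  linarith

/-- sizes -/
theorem e1a {N : ℕ} (hP : Pm N Δ) {χ : V → Ty N} {v : V} {t t' : Ty N} {S S' : Finset V}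
    (h : Vio G N Δ χ v t t' S S') :
    |(S.card : ℝ) - ((S.card : ℝ) + S'.card) / 2| ≤
      101 / 10000 / N * (((S.card : ℝ) + S'.card) / 2) ∧
    (Δ : ℝ) / mT N / 2 ≤ ((S.card : ℝ) + S'.card) / 2 := by
  have hN1 : (100 : ℝ) ≤ N := by
    have h1 : (2 ^ 40 : ℕ) ≤ N := hP.big
    have h2 : ((2 ^ 40 : ℕ) : ℝ) ≤ N := by exact_mod_cast h1
    have h3 : (100 : ℝ) ≤ ((2 ^ 40 : ℕ) : ℝ) := by norm_num
    linarith
  have hm := E1_mT0 N
  have hΔ : (0 : ℝ) < Δ := by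
    have h1 : 0 < N := by
      have := hP.big
      omega
    have h2 : 0 < N ^ 40000 := Nat.pos_of_ne_zero (pow_ne_zero _ h1.ne')
    exact_mod_cast lt_of_lt_of_le h2 hP.pow
  have ha : 0 < (Δ : ℝ) / mT N := div_pos hΔ hm
  set s : ℝ := (S.card : ℝ) with hs
  set s' : ℝ := (S'.card : ℝ) with hs'
  have hs0 : 0 ≤ s := Nat.cast_nonneg _
  have hs0' : 0 ≤ s' := Nat.cast_nonneg _
  have k1 := E1_num hN1 ha hs0 hs0' (E1_le h) h.vi
  have k2 := E1_num hN1 ha hs0' hs0 (E1_le (Vio_sy h)) (Vio_sy h).vi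
  rw [add_comm s' s] at k2
  constructor
  · rw [abs_le]
    constructor <;> linarith
  · have h1 : (ee G S S' : ℝ) ≤ s * s' := by
      unfold ee
      rw [Nat.cast_sum]
      calc ∑ x ∈ S, (((S'.filter (fun y => G.Adj x y)).card : ℕ) : ℝ) ≤ ∑ _x ∈ S, s' := by
            refine Finset.sum_le_sum fun x _ => ?_
            rw [hs']
            exact Nat.cast_le.2 (Finset.card_filter_le _ _)
        _ = s * s' := by rw [Finset.sum_const, nsmul_eq_mul]
    have h2 : s * s' ≤ ((s + s') / 2) ^ 2 := by nlinarith [sq_nonneg (s - s')]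
    have h3 := h.vi
    have hQ0 : 0 ≤ (s + s') / 2 := by positivity
    have h4 : (1 - 1 / (100 * (N : ℝ))) * ((Δ : ℝ) / mT N) * ((s + s') / 2) < ((s + s') / 2) * ((s + s') / 2) := by
      calc (1 - 1 / (100 * (N : ℝ))) * ((Δ : ℝ) / mT N) * ((s + s') / 2) < (ee G S S' : ℝ) := h3
        _ ≤ s * s' := h1
        _ ≤ ((s + s') / 2) ^ 2 := h2
        _ = _ := by ring
    have hQ1 : 0 < (s + s') / 2 := by
      rcases hQ0.lt_or_eq with h5 | h5
      · exact h5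
      · rw [← h5] at h4
        simp at h4
    have h5 : (1 - 1 / (100 * (N : ℝ))) * ((Δ : ℝ) / mT N) < (s + s') / 2 :=
      lt_of_mul_lt_mul_right h4 hQ0
    have h6 : 1 / (100 * (N : ℝ)) ≤ 1 / 2 := by
      rw [div_le_div_iff₀ (by positivity) (by norm_num)]
      linarith
    have h7 : (1 / 2) * ((Δ : ℝ) / mT N) ≤ (1 - 1 / (100 * (N : ℝ))) * ((Δ : ℝ) / mT N) := by
      apply mul_le_mul_of_nonneg_right _ ha.le
      linarith
    linarith

end Pool.Agent.H2.LN.HH
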