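/-
ROW E1b. Violating pairs: deficiencies.
PROOF. `φ = 1 / (100 N)`, `Q`, `a` as in `e1a`. First: the sum is `∑ x ∈ S, |N(x) ∩ V_t'| - ee G S S' ≤ |S| (1 + N ^ -9) a - (1 - φ) a Q ≤ a Q ((1 + 1.01 φ)(1 + N ^ -9) - (1 - φ)) ≤ 2.03 φ a Q` (`N ^ -9 ≤ φ / 100`). Every summand is `≥ 0` (`N(x) ∩ S' ⊆ N(x) ∩ V_t'`). Second: each `x` with `|N(x) ∩ S'| < (7/8) a` has summand `≥ (1 - N ^ -9) a - (7/8) a = (1/8 - N ^ -9) a`; so the number is `≤ 2.03 φ Q / (1/8 - N ^ -9) ≤ 17 φ Q` (`2.03 ≤ 17 (1/8 - 1/1000)`).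
-/
import Pool.Agent.H2.LN.HD
import Pool.Agent.H2.LN.H.E1

set_option autoImplicit false
set_option linter.unusedSectionVars false

namespace Pool.Agent.H2.LN.HH

open Finset Classical
open Pool.Agent.H65.GI Pool.Agent.H64.LN

variable {V T : Type} [Fintype V] [Fintype T] [Nonempty T]
variable {G : SimpleGraph V} {Δ : ℕ}

private theorem E1b_num {n a Q s e : ℝ} (hn : 2 ^ 40 ≤ n) (ha : 0 < a) (hQ : 0 ≤ Q)
    (hs : s - Q ≤ 101 / 10000 / n * Q) (he : (1 - 1 / (100 * n)) * a * Q < e) :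
    s * (a + a / n ^ 9) - e ≤ 203 / 10000 / n * a * Q := by
  have hn0 : 0 < n := lt_of_lt_of_le (by norm_num) hn
  obtain ⟨d, hd⟩ : ∃ d : ℝ, d = 1 / n := ⟨_, rfl⟩
  have hd0 : 0 < d := by rw [hd]; positivity
  have hd1 : d ≤ 1 / 10 ^ 4 := by
    rw [hd]
    exact one_div_le_one_div_of_le (by norm_num) (le_trans (by norm_num) hn)
  have e1 : 101 / 10000 / n * Q = 101 / 10000 * d * Q := by rw [hd]; ring
  have e2 : (1 - 1 / (100 * n)) * a * Q = (1 - d / 100) * a * Q := by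
    rw [hd]
    field_simp
  have e3 : a / n ^ 9 = a * d ^ 9 := by rw [hd]; field_simp
  have e4 : 203 / 10000 / n * a * Q = 203 / 10000 * d * a * Q := by rw [hd]; ring
  rw [e1] at hs
  rw [e2] at he
  rw [e3, e4]
  have h9 : d ^ 9 ≤ d * (1 / 10 ^ 8) := by
    have h8 : d ^ 8 ≤ (1 / 10 ^ 4) ^ 8 := pow_le_pow_left₀ hd0.le hd1 8
    calc d ^ 9 = d * d ^ 8 := by ring
      _ ≤ d * (1 / 10 ^ 8) := mul_le_mul_of_nonneg_left (h8.trans (by norm_num)) hd0.le
  have h90 : 0 ≤ d ^ 9 := by positivity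
  have haQ : 0 ≤ a * Q := mul_nonneg ha.le hQ
  have s1 : s * (a + a * d ^ 9) ≤ (Q + 101 / 10000 * d * Q) * (a + a * d ^ 9) := by
    refine mul_le_mul_of_nonneg_right (by linarith) ?_
    positivity
  have s2 : (Q + 101 / 10000 * d * Q) * (a + a * d ^ 9) =
      (a * Q) * (1 + 101 / 10000 * d + d ^ 9 + 101 / 10000 * d * d ^ 9) := by ring
  have s3 : 1 + 101 / 10000 * d + d ^ 9 + 101 / 10000 * d * d ^ 9 - (1 - d / 100) ≤ 203 / 10000 * d := by
    have q1 : 101 / 10000 * d * d ^ 9 ≤ d ^ 9 := by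
      have : 101 / 10000 * d ≤ 1 := by linarith
      exact mul_le_of_le_one_left h90 this
    nlinarith
  have s4 := mul_le_mul_of_nonneg_left s3 haQ
  have s5 : (1 - d / 100) * a * Q = (a * Q) * (1 - d / 100) := by ring
  have s6 : 203 / 10000 * d * a * Q = (a * Q) * (203 / 10000 * d) := by ring
  rw [s6]
  rw [s5] at he
  rw [s2] at s1
  nlinarith

private theorem E1b_num2 {n a Q c : ℝ} (hn : 2 ^ 40 ≤ n) (ha : 0 < a) (hQ : 0 ≤ Q) (hc : 0 ≤ c)
    (h : c * (a - a / n ^ 9 - 7 / 8 * a) ≤ 203 / 10000 / n * a * Q) : c ≤ 17 / 100 / n * Q := by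
  have hn0 : 0 < n := lt_of_lt_of_le (by norm_num) hn
  have hn9 : 1 / n ^ 9 ≤ 1 / 1000 := by
    refine one_div_le_one_div_of_le (by norm_num) ?_
    calc (1000 : ℝ) ≤ (2 ^ 40) ^ 9 := by norm_num
      _ ≤ n ^ 9 := pow_le_pow_left₀ (by norm_num) hn 9
  have e1 : c * (a - a / n ^ 9 - 7 / 8 * a) = a * (c * (1 / 8 - 1 / n ^ 9)) := by ring
  have e2 : 203 / 10000 / n * a * Q = a * (203 / 10000 / n * Q) := by ring
  rw [e1, e2] at h
  have h1 := le_of_mul_le_mul_left h ha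
  have h2 : c * (1 / 8 - 1 / 1000) ≤ c * (1 / 8 - 1 / n ^ 9) := mul_le_mul_of_nonneg_left (by linarith) hc
  have h3 : c * (1 / 8 - 1 / 1000) ≤ 203 / 10000 / n * Q := h2.trans h1
  have h4 : 0 ≤ Q / n := div_nonneg hQ hn0.le
  have e3 : 203 / 10000 / n * Q = 203 / 10000 * (Q / n) := by ring
  have e4 : 17 / 100 / n * Q = 17 / 100 * (Q / n) := by ring
  rw [e3] at h3
  rw [e4]
  linarith

/-- deficiencies -/
theorem e1b {N : ℕ} (hP : Pm N Δ) {χ : V → Ty N} {v : V} {t t' : Ty N} {S S' : Finset V}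
    (h : Vio G N Δ χ v t t' S S') :
    ∑ x ∈ S, (((univ.filter (fun u => G.Adj x u ∧ χ u = t')).card : ℝ) -
      ((S'.filter (fun u => G.Adj x u)).card : ℝ)) ≤
      203 / 10000 / N * ((Δ : ℝ) / mT N) * (((S.card : ℝ) + S'.card) / 2) ∧
    ((S.filter (fun x => ((S'.filter (fun u => G.Adj x u)).card : ℝ) < 7 / 8 * ((Δ : ℝ) / mT N))).card : ℝ) ≤
      17 / 100 / N * (((S.card : ℝ) + S'.card) / 2) := by
  obtain ⟨hbig, hpow, hlog⟩ := hP
  have hn : (2 : ℝ) ^ 40 ≤ (N : ℝ) := by exact_mod_cast hbig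
  have hN0 : 0 < N := lt_of_lt_of_le (by norm_num) hbig
  have hΔ0 : 0 < Δ := lt_of_lt_of_le (pow_pos hN0 _) hpow
  have hm0 : 0 < mT N := by
    unfold mT
    positivity
  have ha : 0 < (Δ : ℝ) / mT N := div_pos (by exact_mod_cast hΔ0) (by exact_mod_cast hm0)
  obtain ⟨hs, hsz⟩ := e1a ⟨hbig, hpow, hlog⟩ h
  set a : ℝ := (Δ : ℝ) / mT N with hadef
  have hQ : 0 ≤ ((S.card : ℝ) + S'.card) / 2 := by positivity
  set Q : ℝ := ((S.card : ℝ) + S'.card) / 2 with hQdef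
  have hdg : ∀ x ∈ S, |((univ.filter (fun u => G.Adj x u ∧ χ u = t')).card : ℝ) - a| ≤ a / N ^ 9 := by
    intro x hx
    exact h.dg x (bl_mono G v (Nat.le_succ _) (h.s1 hx)) t'
  have hsub : ∀ x, (S'.filter (fun u => G.Adj x u)).card ≤ (univ.filter (fun u => G.Adj x u ∧ χ u = t')).card := by
    intro x
    refine Finset.card_le_card ?_
    intro u hu
    rw [Finset.mem_filter] at hu ⊢
    exact ⟨Finset.mem_univ _, hu.2, h.t2 u hu.1⟩
  have hnn : ∀ x ∈ S, 0 ≤ (((univ.filter (fun u => G.Adj x u ∧ χ u = t')).card : ℝ) -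
      ((S'.filter (fun u => G.Adj x u)).card : ℝ)) := by
    intro x _
    have h1 : ((S'.filter (fun u => G.Adj x u)).card : ℝ) ≤
        ((univ.filter (fun u => G.Adj x u ∧ χ u = t')).card : ℝ) := by exact_mod_cast hsub x
    linarith
  have hee : (ee G S S' : ℝ) = ∑ x ∈ S, ((S'.filter (fun u => G.Adj x u)).card : ℝ) := by
    unfold ee
    push_cast
    rfl
  have hfirst : ∑ x ∈ S, (((univ.filter (fun u => G.Adj x u ∧ χ u = t')).card : ℝ) -
      ((S'.filter (fun u => G.Adj x u)).card : ℝ)) ≤ 203 / 10000 / N * a * Q := by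
    rw [Finset.sum_sub_distrib, ← hee]
    have h1 : ∑ x ∈ S, ((univ.filter (fun u => G.Adj x u ∧ χ u = t')).card : ℝ) ≤ S.card * (a + a / N ^ 9) := by
      calc ∑ x ∈ S, ((univ.filter (fun u => G.Adj x u ∧ χ u = t')).card : ℝ) ≤ ∑ _x ∈ S, (a + a / N ^ 9) := by
            refine Finset.sum_le_sum fun x hx => ?_
            have := (abs_le.mp (hdg x hx)).2
            linarith
        _ = S.card * (a + a / N ^ 9) := by rw [Finset.sum_const, nsmul_eq_mul]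
    have h2 := E1b_num (s := (S.card : ℝ)) (e := (ee G S S' : ℝ)) hn ha hQ (abs_le.mp hs).2 h.vi
    linarith
  refine ⟨hfirst, ?_⟩
  refine E1b_num2 hn ha hQ (Nat.cast_nonneg _) ?_
  refine le_trans ?_ hfirst
  calc ((S.filter (fun x => ((S'.filter (fun u => G.Adj x u)).card : ℝ) < 7 / 8 * a)).card : ℝ) *
        (a - a / N ^ 9 - 7 / 8 * a)
      = ∑ _x ∈ S.filter (fun x => ((S'.filter (fun u => G.Adj x u)).card : ℝ) < 7 / 8 * a),
        (a - a / N ^ 9 - 7 / 8 * a) := by rw [Finset.sum_const, nsmul_eq_mul]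
    _ ≤ ∑ x ∈ S.filter (fun x => ((S'.filter (fun u => G.Adj x u)).card : ℝ) < 7 / 8 * a),
        (((univ.filter (fun u => G.Adj x u ∧ χ u = t')).card : ℝ) -
          ((S'.filter (fun u => G.Adj x u)).card : ℝ)) := by
        refine Finset.sum_le_sum fun x hx => ?_
        rw [Finset.mem_filter] at hx
        have h1 := (abs_le.mp (hdg x hx.1)).1
        have h2 := hx.2
        linarith
    _ ≤ ∑ x ∈ S, (((univ.filter (fun u => G.Adj x u ∧ χ u = t')).card : ℝ) -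
          ((S'.filter (fun u => G.Adj x u)).card : ℝ)) :=
        Finset.sum_le_sum_of_subset_of_nonneg (Finset.filter_subset _ _) (fun x hx _ => hnn x hx)

end Pool.Agent.H2.LN.HH
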