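/-
ROW E2. Existence of good samples.
PROOF. `Ω = V → Fin Δ`, `n1 := N ^ 5 * mT N < Δ`, `Sg ω := S.filter (fun x => (ω x).val < n1)`, each `x` is chosen with probability `λ = n1 / Δ` independently (`pr_co` in `H65/GI/Law` or `pr_coord` in `H65/GI/Tri`). `a := Δ / mT N`, `λ a = N ^ 5`. `W ω := |Sg| / (2 λ |S| + 1) + (X2 + X3) exp (N ^ 3) / |S|`, `X2`, `X3` the cardinalities of the two sets in the claim. If `ex W < 1` some `ω` has `W ω < 1` and is as claimed (each of the nonnegative parts is `< 1`).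
`ex |Sg| = λ |S|`, first part `≤ 1/2`. For one `y` with `n := |N(y) ∩ S| ≥ (7/8) a`: `|N(y) ∩ Sg|` is a sum of `n` independent indicators (`J = S.filter (G.Adj y ·)`, `S u = {u}`) with mean `μ = λ n ≥ (7/8) N ^ 5`; `ber` (`H12/LN/Tools.lean`, `w = W = 1`, `V = μ`, `t = μ / 7`, as `(3/4) N ^ 5 ≤ (6/7) μ`): probability `≤ 2 exp (-(μ ^ 2 / 49) / (4 (μ + μ / 7))) = 2 exp (-μ / 224) ≤ 2 exp (-N ^ 5 / 256)`. For `y` with `n < (5/8) a`: `μ < (5/8) N ^ 5`, deviation `t = N ^ 5 / 8`, `V = (5/8) N ^ 5`: `≤ 2 exp (-(N ^ 10 / 64) / (4 (3/4) N ^ 5)) = 2 exp (-N ^ 5 / 192)`. Both `≤ 2 exp (-N ^ 5 / 256) ≤ exp (-N ^ 4)`.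
Only the `y` with a neighbour in `S` count (in the first case `n ≥ (7/8) a > 0`, in the second `|N(y) ∩ Sg| ≥ (3/4) N ^ 5 > 0`): at most `Δ |S|` (`hG`; union over `x ∈ S` of the neighbourhoods). So `ex (X2 + X3) ≤ 2 Δ |S| exp (-N ^ 4)` and the second part is `≤ 2 Δ exp (N ^ 3 - N ^ 4) < 1/2` (`Δ = exp (log Δ) ≤ exp N`: `pm.log`, `nlogN` in `H64/LN/Bnm`; `4 exp (N + N ^ 3 - N ^ 4) < 1`).
-/
import Pool.Agent.H2.LN.HD
import Pool.Agent.H64.LN.Bnm
import Pool.Agent.H12.LN.Tools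
import Pool.Agent.H65.GI.Tri
import Pool.Agent.H65.GI.Cnd

set_option autoImplicit false
set_option linter.unusedSectionVars false

namespace Pool.Agent.H2.LN.HH

open Finset Classical
open Pool.Agent.H65.GI Pool.Agent.H64.LN

variable {V T : Type} [Fintype V] [Fintype T] [Nonempty T]
variable {G : SimpleGraph V} {Δ : ℕ}

theorem E2_cf {Δ n1 : ℕ} (h : n1 ≤ Δ) (inst : DecidablePred (fun k : Fin Δ => k.val < n1)) :
    (@Finset.filter _ (fun k : Fin Δ => k.val < n1) inst univ).card = n1 := by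
  have h1 : (@Finset.filter _ (fun k : Fin Δ => k.val < n1) inst univ) =
      (univ : Finset (Fin n1)).map (Fin.castLEEmb h) := by
    ext k
    simp only [mem_filter, mem_univ, true_and, mem_map]
    constructor
    · intro hk
      exact ⟨⟨k.val, hk⟩, rfl⟩
    · rintro ⟨j, rfl⟩
      exact j.isLt
  rw [h1, card_map, card_univ, Fintype.card_fin]

theorem E2_pr {Δ n1 : ℕ} [NeZero Δ] (h : n1 ≤ Δ) (x : V) :
    pr (fun ω : V → Fin Δ => (ω x).val < n1) = (n1 : ℝ) / Δ := by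
  have : Nonempty (Fin Δ) := ⟨0⟩
  rw [pr_coord x (fun k : Fin Δ => k.val < n1)]
  unfold pr
  rw [Fintype.card_fin]
  rw [E2_cf h]

/-- the number of chosen neighbours -/
theorem E2_sum {Δ n1 : ℕ} (S : Finset V) (y : V) (ω : V → Fin Δ) :
    ((((S.filter (fun x => (ω x).val < n1)).filter (fun u => G.Adj y u)).card : ℕ) : ℝ) =
      ∑ u ∈ S.filter (fun u => G.Adj y u), if (ω u).val < n1 then (1 : ℝ) else 0 := by
  rw [Finset.sum_boole, Finset.filter_filter, Finset.filter_filter]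
  congr 2
  ext u
  simp only [mem_filter]
  tauto

theorem E2_ber {Δ n1 : ℕ} [NeZero Δ] (h : n1 ≤ Δ) (S : Finset V) (y : V) (W t : ℝ)
    (hW : (n1 : ℝ) / Δ * ((S.filter (fun u => G.Adj y u)).card : ℝ) ≤ W) (ht : 0 ≤ t) :
    pr (fun ω : V → Fin Δ => t ≤
      |((((S.filter (fun x => (ω x).val < n1)).filter (fun u => G.Adj y u)).card : ℕ) : ℝ) -
        (n1 : ℝ) / Δ * ((S.filter (fun u => G.Adj y u)).card : ℝ)|) ≤
      2 * Real.exp (-(t ^ 2 / (4 * (W + 1 * t)))) := by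
  have : Nonempty (Fin Δ) := ⟨0⟩
  have h1 := Pool.Agent.H12.LN.ber (I := V) (κ := Fin Δ) (S.filter (fun u => G.Adj y u))
    (fun u ω => (ω u).val < n1) (fun u => {u})
    (fun i _ ω ω' hh => by
      have := hh i (mem_singleton_self i)
      simp only [this])
    (fun i _ j _ hij => by
      rw [disjoint_singleton]
      exact hij) (fun _ => 1) 1 W t (fun _ _ => ⟨zero_le_one, le_rfl⟩)
    (by
      refine le_trans (le_of_eq ?_) hW
      have : ∀ i ∈ S.filter (fun u => G.Adj y u), (1 : ℝ) ^ 2 * pr (fun ω : V → Fin Δ => (ω i).val < n1) =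
          (n1 : ℝ) / Δ := by
        intro i _
        rw [E2_pr h i]
        ring
      rw [Finset.sum_congr rfl this, Finset.sum_const, nsmul_eq_mul]
      ring) zero_le_one ht
  refine le_trans (pr_mono fun ω hω => ?_) h1
  rw [E2_sum] at hω
  have h2 : ∑ i ∈ S.filter (fun u => G.Adj y u), (1 : ℝ) * pr (fun ω : V → Fin Δ => (ω i).val < n1) =
      (n1 : ℝ) / Δ * ((S.filter (fun u => G.Adj y u)).card : ℝ) := by
    have : ∀ i ∈ S.filter (fun u => G.Adj y u), (1 : ℝ) * pr (fun ω : V → Fin Δ => (ω i).val < n1) =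
        (n1 : ℝ) / Δ := by
      intro i _
      rw [E2_pr h i]
      ring
    rw [Finset.sum_congr rfl this, Finset.sum_const, nsmul_eq_mul]
    ring
  rw [h2]
  refine le_trans hω (le_of_eq ?_)
  congr 2
  refine Finset.sum_congr rfl fun u _ => ?_
  split_ifs <;> rfl

theorem E2_nbr (hG : Reg G Δ) (S : Finset V) :
    ((univ.filter (fun y => ∃ x ∈ S, G.Adj y x)).card : ℝ) ≤ Δ * S.card := by
  have h1 : univ.filter (fun y => ∃ x ∈ S, G.Adj y x) ⊆
      S.biUnion (fun x => univ.filter (fun u => G.Adj x u)) := by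
    intro y hy
    obtain ⟨x, hx, hxy⟩ := (mem_filter.1 hy).2
    rw [mem_biUnion]
    exact ⟨x, hx, mem_filter.2 ⟨mem_univ _, hxy.symm⟩⟩
  have h2 := (card_le_card h1).trans card_biUnion_le
  rw [Finset.sum_congr rfl (fun x _ => hG x), Finset.sum_const, smul_eq_mul, mul_comm] at h2
  exact_mod_cast h2

/-- the expected number of bad vertices -/
theorem E2_cnt {Ω : Type} [Fintype Ω] (hG : Reg G Δ) (S : Finset V) (B : V → Ω → Prop) (p0 : ℝ)
    (hp0 : 0 ≤ p0) (h0 : ∀ y, (¬ ∃ x ∈ S, G.Adj y x) → ∀ ω, ¬ B y ω) (h1 : ∀ y, pr (B y) ≤ p0) :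
    ex (fun ω => (((univ.filter (fun y => B y ω)).card : ℕ) : ℝ)) ≤ Δ * S.card * p0 := by
  have e1 : (fun ω => (((univ.filter (fun y => B y ω)).card : ℕ) : ℝ)) =
      fun ω => ∑ y ∈ univ.filter (fun y => ∃ x ∈ S, G.Adj y x), if B y ω then (1 : ℝ) else 0 := by
    funext ω
    rw [Finset.sum_boole, Finset.filter_filter]
    congr 2
    ext y
    simp only [mem_filter, mem_univ, true_and]
    constructor
    · intro hy
      refine ⟨?_, hy⟩
      by_contra hc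
      exact h0 y hc ω hy
    · exact fun hy => hy.2
  rw [e1, ex_sum]
  have e2 : ∀ y ∈ univ.filter (fun y => ∃ x ∈ S, G.Adj y x),
      ex (fun ω => if B y ω then (1 : ℝ) else 0) ≤ p0 := by
    intro y _
    rw [← ex_ind]
    exact h1 y
  refine (Finset.sum_le_sum e2).trans ?_
  rw [Finset.sum_const, nsmul_eq_mul]
  exact mul_le_mul_of_nonneg_right (E2_nbr hG S) hp0

theorem E2_num {N : ℕ} (hP : Pm N Δ) :
    4 * (Δ : ℝ) * Real.exp (-((N : ℝ) ^ 5 / 256)) * Real.exp ((N : ℝ) ^ 3) < 1 / 2 := by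
  have hN := nN hP
  have hN1 := nN1 hP
  have hN0 := nN0 hP
  have hΔ1 := nΔ1 hP
  have hΔ : (Δ : ℝ) = Real.exp (Real.log Δ) := (Real.exp_log (by linarith)).symm
  have hlog := nlogN hP
  have hl0 : 0 ≤ Real.log Δ := Real.log_nonneg hΔ1
  have h1 : Real.log Δ + -((N : ℝ) ^ 5 / 256) + (N : ℝ) ^ 3 ≤ -3 := by
    have a1 : Real.log Δ ≤ N := by nlinarith
    have a2 : (2 : ℝ) ^ 10 ≤ (N : ℝ) ^ 2 / 256 := by
      have : (2 : ℝ) ^ 40 * 2 ^ 40 ≤ (N : ℝ) ^ 2 := by
        rw [sq]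
        exact mul_le_mul hN hN (by norm_num) hN0.le
      linarith
    have a3 : (N : ℝ) ^ 5 / 256 = (N : ℝ) ^ 3 * ((N : ℝ) ^ 2 / 256) := by ring
    have a4 : (N : ℝ) ^ 3 * (2 : ℝ) ^ 10 ≤ (N : ℝ) ^ 5 / 256 := by
      rw [a3]
      exact mul_le_mul_of_nonneg_left a2 (by positivity)
    have a5 : (N : ℝ) ≤ (N : ℝ) ^ 3 := by
      calc (N : ℝ) = (N : ℝ) ^ 1 := (pow_one _).symm
        _ ≤ (N : ℝ) ^ 3 := pow_le_pow_right₀ hN1 (by norm_num)
    have a6 : (3 : ℝ) ≤ N := le_trans (by norm_num) hN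
    linarith
  have h2 : (Δ : ℝ) * Real.exp (-((N : ℝ) ^ 5 / 256)) * Real.exp ((N : ℝ) ^ 3) ≤ Real.exp (-3) := by
    conv_lhs => rw [hΔ]
    rw [← Real.exp_add, ← Real.exp_add]
    exact Real.exp_le_exp.2 h1
  have h3 : Real.exp (-3) < 1 / 8 := by
    rw [Real.exp_neg]
    have h4 : (8 : ℝ) < Real.exp 3 := by
      have h5 : (2.7 : ℝ) < Real.exp 1 := lt_trans (by norm_num) Real.exp_one_gt_d9
      have h6 : Real.exp 3 = Real.exp 1 ^ 3 := by
        rw [← Real.exp_nat_mul]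
        norm_num
      rw [h6]
      calc (8 : ℝ) < 2.7 ^ 3 := by norm_num
        _ < Real.exp 1 ^ 3 := by gcongr
    rw [inv_lt_comm₀ (by positivity) (by norm_num)]
    linarith
  linarith

/-- existence of good samples -/
theorem e2 {N : ℕ} (hP : Pm N Δ) (hG : Reg G Δ) (S : Finset V) (hS : S.Nonempty) : ∃ Sg ⊆ S,
    (Sg.card : ℝ) ≤ 2 * (N ^ 5 * mT N / Δ) * S.card + 1 ∧
    ((univ.filter (fun y => 7 / 8 * ((Δ : ℝ) / mT N) ≤ ((S.filter (fun u => G.Adj y u)).card : ℝ) ∧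
      ((Sg.filter (fun u => G.Adj y u)).card : ℝ) < 3 / 4 * N ^ 5)).card : ℝ) ≤
        Real.exp (-(N : ℝ) ^ 3) * S.card ∧
    ((univ.filter (fun y => ((S.filter (fun u => G.Adj y u)).card : ℝ) < 5 / 8 * ((Δ : ℝ) / mT N) ∧
      3 / 4 * (N : ℝ) ^ 5 ≤ ((Sg.filter (fun u => G.Adj y u)).card : ℝ))).card : ℝ) ≤
        Real.exp (-(N : ℝ) ^ 3) * S.card := by
  have hN := nN hP
  have hN1 := nN1 hP
  have hN0 := nN0 hP
  have hΔ1 := nΔ1 hP
  have hΔ0 : (0 : ℝ) < Δ := by linarith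
  have hm0 := nmT0 hP
  have hm := (nmT hP).2
  have hΔn : Δ ≠ 0 := by
    rintro rfl
    norm_num at hΔ1
  have : NeZero Δ := ⟨hΔn⟩
  have : Nonempty (Fin Δ) := ⟨0⟩
  obtain ⟨n1, hn1⟩ : ∃ n1, n1 = N ^ 5 * mT N := ⟨_, rfl⟩
  have hn1r : (n1 : ℝ) = (N : ℝ) ^ 5 * mT N := by
    rw [hn1]
    push_cast
    ring
  have hn1Δ : n1 ≤ Δ := by
    have h1 : (n1 : ℝ) ≤ Δ := by
      rw [hn1r]
      calc (N : ℝ) ^ 5 * mT N ≤ (N : ℝ) ^ 5 * (4 * (N : ℝ) ^ 54) := by gcongr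
        _ = 4 * (N : ℝ) ^ 59 := by ring
        _ ≤ (N : ℝ) * (N : ℝ) ^ 59 := by
          have : (4 : ℝ) ≤ N := le_trans (by norm_num) hN
          gcongr
        _ = (N : ℝ) ^ 60 := by ring
        _ ≤ (N : ℝ) ^ 40000 := pow_le_pow_right₀ hN1 (by norm_num)
        _ ≤ Δ := nΔN hP
    exact_mod_cast h1
  obtain ⟨lam, hlam⟩ : ∃ lam : ℝ, lam = (n1 : ℝ) / Δ := ⟨_, rfl⟩
  have hlam0 : 0 < lam := by
    rw [hlam, hn1r]
    positivity
  have hlama : lam * ((Δ : ℝ) / mT N) = (N : ℝ) ^ 5 := by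
    rw [hlam, hn1r]
    field_simp
  have hlam' : (N : ℝ) ^ 5 * mT N / Δ = lam := by rw [hlam, hn1r]
  obtain ⟨p0, hp0⟩ : ∃ p0 : ℝ, p0 = 2 * Real.exp (-((N : ℝ) ^ 5 / 256)) := ⟨_, rfl⟩
  have hp00 : 0 ≤ p0 := by rw [hp0]; positivity
  have hN5 : (0 : ℝ) < (N : ℝ) ^ 5 := by positivity
  have ha0 : 0 < (Δ : ℝ) / mT N := by positivity
  -- the two kinds of bad vertices
  obtain ⟨B2, hB2⟩ : ∃ B2 : V → (V → Fin Δ) → Prop, ∀ y ω, B2 y ω ↔
      (7 / 8 * ((Δ : ℝ) / mT N) ≤ ((S.filter (fun u => G.Adj y u)).card : ℝ) ∧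
      (((S.filter (fun x => (ω x).val < n1)).filter (fun u => G.Adj y u)).card : ℝ) < 3 / 4 * N ^ 5) :=
    ⟨fun y ω => _, fun y ω => Iff.rfl⟩
  obtain ⟨B3, hB3⟩ : ∃ B3 : V → (V → Fin Δ) → Prop, ∀ y ω, B3 y ω ↔
      (((S.filter (fun u => G.Adj y u)).card : ℝ) < 5 / 8 * ((Δ : ℝ) / mT N) ∧
      3 / 4 * (N : ℝ) ^ 5 ≤ (((S.filter (fun x => (ω x).val < n1)).filter (fun u => G.Adj y u)).card : ℝ)) :=
    ⟨fun y ω => _, fun y ω => Iff.rfl⟩
  have c2 : ∀ y, pr (B2 y) ≤ p0 := by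
    intro y
    by_cases hy : 7 / 8 * ((Δ : ℝ) / mT N) ≤ ((S.filter (fun u => G.Adj y u)).card : ℝ)
    · obtain ⟨μ, hμ⟩ : ∃ μ : ℝ, μ = lam * ((S.filter (fun u => G.Adj y u)).card : ℝ) := ⟨_, rfl⟩
      have hμ1 : 7 / 8 * (N : ℝ) ^ 5 ≤ μ := by
        have := mul_le_mul_of_nonneg_left hy hlam0.le
        rw [← hlama, hμ]
        linarith
      have hμ0 : 0 < μ := lt_of_lt_of_le (by positivity) hμ1
      have hb := E2_ber (G := G) hn1Δ S y μ (μ / 7) (by rw [hμ, hlam]) (by positivity)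
      refine (pr_mono fun ω hω => ?_).trans (hb.trans ?_)
      · have h2 := ((hB2 y ω).1 hω).2
        rw [← hlam, ← hμ, abs_sub_comm]
        refine le_trans ?_ (le_abs_self _)
        linarith
      · rw [hp0]
        have e : (μ / 7) ^ 2 / (4 * (μ + 1 * (μ / 7))) = μ / 224 := by
          field_simp
          ring
        rw [e]
        have : Real.exp (-(μ / 224)) ≤ Real.exp (-((N : ℝ) ^ 5 / 256)) := by
          apply Real.exp_le_exp.2
          linarith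
        linarith
    · have : pr (B2 y) ≤ pr (fun _ : V → Fin Δ => False) := pr_mono fun ω hω => hy ((hB2 y ω).1 hω).1
      refine this.trans ?_
      have e : pr (fun _ : V → Fin Δ => False) = 0 := by
        unfold pr
        simp
      rw [e]
      exact hp00
  have c3 : ∀ y, pr (B3 y) ≤ p0 := by
    intro y
    by_cases hy : ((S.filter (fun u => G.Adj y u)).card : ℝ) < 5 / 8 * ((Δ : ℝ) / mT N)
    · have hμ1 : lam * ((S.filter (fun u => G.Adj y u)).card : ℝ) ≤ 5 / 8 * (N : ℝ) ^ 5 := by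
        have := mul_le_mul_of_nonneg_left hy.le hlam0.le
        rw [← hlama]
        linarith
      have hb := E2_ber (G := G) hn1Δ S y (5 / 8 * (N : ℝ) ^ 5) ((N : ℝ) ^ 5 / 8) (by rw [← hlam]; exact hμ1)
        (by positivity)
      refine (pr_mono fun ω hω => ?_).trans (hb.trans ?_)
      · have h2 := ((hB3 y ω).1 hω).2
        rw [← hlam]
        refine le_trans ?_ (le_abs_self _)
        linarith
      · rw [hp0]
        have e : ((N : ℝ) ^ 5 / 8) ^ 2 / (4 * (5 / 8 * (N : ℝ) ^ 5 + 1 * ((N : ℝ) ^ 5 / 8))) =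
            (N : ℝ) ^ 5 / 192 := by
          field_simp
          ring
        rw [e]
        have : Real.exp (-((N : ℝ) ^ 5 / 192)) ≤ Real.exp (-((N : ℝ) ^ 5 / 256)) := by
          apply Real.exp_le_exp.2
          linarith
        linarith
    · have : pr (B3 y) ≤ pr (fun _ : V → Fin Δ => False) := pr_mono fun ω hω => hy ((hB3 y ω).1 hω).1
      refine this.trans ?_
      have e : pr (fun _ : V → Fin Δ => False) = 0 := by
        unfold pr
        simp
      rw [e]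
      exact hp00
  have z2 : ∀ y, (¬ ∃ x ∈ S, G.Adj y x) → ∀ ω, ¬ B2 y ω := by
    intro y hy ω hω
    have h1 := ((hB2 y ω).1 hω).1
    have h2 : S.filter (fun u => G.Adj y u) = ∅ := by
      rw [Finset.filter_eq_empty_iff]
      intro x hx hxy
      exact hy ⟨x, hx, hxy⟩
    rw [h2, card_empty] at h1
    push_cast at h1
    linarith
  have z3 : ∀ y, (¬ ∃ x ∈ S, G.Adj y x) → ∀ ω, ¬ B3 y ω := by
    intro y hy ω hω
    have h1 := ((hB3 y ω).1 hω).2
    have h2 : (S.filter (fun x => (ω x).val < n1)).filter (fun u => G.Adj y u) = ∅ := by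
      rw [Finset.filter_eq_empty_iff]
      intro x hx hxy
      exact hy ⟨x, (mem_filter.1 hx).1, hxy⟩
    rw [h2, card_empty] at h1
    push_cast at h1
    linarith
  have m2 := E2_cnt hG S B2 p0 hp00 z2 c2
  have m3 := E2_cnt hG S B3 p0 hp00 z3 c3
  have m1 : ex (fun ω : V → Fin Δ => (((S.filter (fun x => (ω x).val < n1)).card : ℕ) : ℝ)) =
      lam * S.card := by
    have e1 : (fun ω : V → Fin Δ => (((S.filter (fun x => (ω x).val < n1)).card : ℕ) : ℝ)) =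
        fun ω => ∑ x ∈ S, if (ω x).val < n1 then (1 : ℝ) else 0 := by
      funext ω
      rw [Finset.sum_boole]
    rw [e1, ex_sum]
    have e2 : ∀ x ∈ S, ex (fun ω : V → Fin Δ => if (ω x).val < n1 then (1 : ℝ) else 0) = lam := by
      intro x _
      rw [hlam, ← E2_pr (Δ := Δ) hn1Δ x, ex_ind]
      congr 1
      funext ω
      split_ifs <;> rfl
    rw [Finset.sum_congr rfl e2, Finset.sum_const, nsmul_eq_mul]
    ring
  have hS0 : (0 : ℝ) < S.card := by exact_mod_cast hS.card_pos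
  obtain ⟨c, hc⟩ : ∃ c : ℝ, c = 2 * lam * S.card + 1 := ⟨_, rfl⟩
  have hc0 : 0 < c := by
    rw [hc]
    positivity
  have key : ∃ ω : V → Fin Δ, (1 / c) * (((S.filter (fun x => (ω x).val < n1)).card : ℕ) : ℝ) +
      Real.exp ((N : ℝ) ^ 3) / S.card * ((((univ.filter (fun y => B2 y ω)).card : ℕ) : ℝ) +
        (((univ.filter (fun y => B3 y ω)).card : ℕ) : ℝ)) < 1 := by
    by_contra hcon
    push Not at hcon
    have h1 := ex_mono (f := fun _ : V → Fin Δ => (1 : ℝ)) hcon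
    rw [ex_const, ex_add, ex_smul, ex_smul, ex_add, m1] at h1
    have h2 : 1 / c * (lam * S.card) ≤ 1 / 2 := by
      rw [hc, div_mul_eq_mul_div, div_le_iff₀ (by positivity)]
      nlinarith
    have h3 : Real.exp ((N : ℝ) ^ 3) / S.card *
        (ex (fun ω => (((univ.filter (fun y => B2 y ω)).card : ℕ) : ℝ)) +
          ex (fun ω => (((univ.filter (fun y => B3 y ω)).card : ℕ) : ℝ))) ≤
        Real.exp ((N : ℝ) ^ 3) / S.card * (2 * (Δ * S.card * p0)) := by
      refine mul_le_mul_of_nonneg_left ?_ (by positivity)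
      linarith
    have h4 : Real.exp ((N : ℝ) ^ 3) / S.card * (2 * (Δ * S.card * p0)) =
        4 * (Δ : ℝ) * Real.exp (-((N : ℝ) ^ 5 / 256)) * Real.exp ((N : ℝ) ^ 3) := by
      rw [hp0]
      field_simp
      ring
    have h5 := E2_num hP
    linarith
  obtain ⟨ω, hω⟩ := key
  have t1 : 0 ≤ (1 / c) * (((S.filter (fun x => (ω x).val < n1)).card : ℕ) : ℝ) := by positivity
  have t2 : 0 ≤ Real.exp ((N : ℝ) ^ 3) / S.card * (((univ.filter (fun y => B2 y ω)).card : ℕ) : ℝ) := by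
    positivity
  have t3 : 0 ≤ Real.exp ((N : ℝ) ^ 3) / S.card * (((univ.filter (fun y => B3 y ω)).card : ℕ) : ℝ) := by
    positivity
  rw [mul_add] at hω
  have ee : Real.exp (-(N : ℝ) ^ 3) = (Real.exp ((N : ℝ) ^ 3))⁻¹ := Real.exp_neg _
  have hE : 0 < Real.exp ((N : ℝ) ^ 3) := Real.exp_pos _
  have fin : ∀ x : ℝ, Real.exp ((N : ℝ) ^ 3) / S.card * x < 1 → x ≤ Real.exp (-(N : ℝ) ^ 3) * S.card := by
    intro x hx
    rw [ee]
    rw [div_mul_eq_mul_div, div_lt_one hS0] at hx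
    rw [inv_mul_eq_div, le_div_iff₀ hE]
    linarith
  refine ⟨S.filter (fun x => (ω x).val < n1), filter_subset _ _, ?_, ?_, ?_⟩
  · rw [hlam']
    have h1 : (1 / c) * (((S.filter (fun x => (ω x).val < n1)).card : ℕ) : ℝ) < 1 := by linarith
    rw [one_div_mul_eq_div, div_lt_one hc0, hc] at h1
    exact h1.le
  · have h1 : univ.filter (fun y => 7 / 8 * ((Δ : ℝ) / mT N) ≤ ((S.filter (fun u => G.Adj y u)).card : ℝ) ∧
        (((S.filter (fun x => (ω x).val < n1)).filter (fun u => G.Adj y u)).card : ℝ) < 3 / 4 * N ^ 5) =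
        univ.filter (fun y => B2 y ω) := by
      ext y
      simp only [mem_filter, mem_univ, true_and, hB2]
    rw [h1]
    exact fin _ (by linarith)
  · have h1 : univ.filter (fun y => ((S.filter (fun u => G.Adj y u)).card : ℝ) < 5 / 8 * ((Δ : ℝ) / mT N) ∧
        3 / 4 * (N : ℝ) ^ 5 ≤ (((S.filter (fun x => (ω x).val < n1)).filter (fun u => G.Adj y u)).card : ℝ)) =
        univ.filter (fun y => B3 y ω) := by
      ext y
      simp only [mem_filter, mem_univ, true_and, hB3]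
    rw [h1]
    exact fin _ (by linarith)

end Pool.Agent.H2.LN.HH
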