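/-
ROW E2b. From a violating pair to samples.
PROOF. `φ = 1 / (100 N)`, `Q = (|S| + |S'|) / 2`, `a = Δ / mT N`, `λ = N ^ 5 mT N / Δ`. `S` is nonempty (`e1a`: `|S| ≥ (1 - 1.01 φ) Q > 0`). Take `Sg` from `e2`, `Z = Zs G N Sg`, `ε := exp (-N ^ 3)`, `ε |S| ≤ φ Q / 100`. (a) `2 λ |S| + 1 ≤ 2 λ (1 + 1.01 φ) Q + 1 ≤ 3 λ Q` because `λ Q ≥ λ a / 2 = N ^ 5 / 2`.
(b) `y ∈ S' \ Z`: either `|N(y) ∩ S| < (7/8) a` (at most `17 φ Q` such `y ∈ S'`: `e1b` for `Vio_sy h`) or it is in the first set of `e2` (at most `ε |S|`). (c) `y ∈ Z`, `χ y = t'`, `y ∉ S'`: either `|N(y) ∩ S| < (5/8) a` (second set of `e2`), or `|N(y) ∩ S| ≥ (5/8) a`: the number `n` of these satisfies `(5/8) a n ≤ ∑ over these y of |N(y) ∩ S| ≤ ∑ x ∈ S, |N(x) ∩ (V_t' \ S')| = ∑ x ∈ S, (|N(x) ∩ V_t'| - |N(x) ∩ S'|) ≤ 2.03 φ a Q` (double counting, `S' ⊆ V_t'`; first part of `e1b`), `n ≤ 3.3 φ Q`.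
(d) `y ∈ Z`: second set of `e2`, or `|N(y) ∩ S| ≥ (5/8) a`: number `n` with `(5/8) a n ≤ ∑ x ∈ S, deg x = Δ |S|`, `n ≤ 1.6 m |S| ≤ 1.6 * 1.01 m Q`.
-/
import Pool.Agent.H2.LN.HD
import Pool.Agent.H64.LN.Bnm
import Pool.Agent.H2.LN.H.E1
import Pool.Agent.H2.LN.H.E1b
import Pool.Agent.H2.LN.H.E2

set_option autoImplicit false
set_option linter.unusedSectionVars false

namespace Pool.Agent.H2.LN.HH

open Finset Classical
open Pool.Agent.H65.GI Pool.Agent.H64.LN

variable {V T : Type} [Fintype V] [Fintype T] [Nonempty T]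
variable {G : SimpleGraph V} {Δ : ℕ}

private theorem E2b_dc (G : SimpleGraph V) (Y S : Finset V) :
    (∑ y ∈ Y, ((S.filter (fun u => G.Adj y u)).card : ℝ)) =
      ∑ x ∈ S, ((Y.filter (fun u => G.Adj x u)).card : ℝ) := by
  have h := ee_comm G Y S
  unfold ee at h
  exact_mod_cast h

private theorem E2b_N {N : ℕ} (hP : Pm N Δ) : (2 : ℝ) ^ 40 ≤ N := by
  exact_mod_cast hP.big

private theorem E2b_exp {x : ℝ} (hx : (2 : ℝ) ^ 40 ≤ x) : Real.exp (-x ^ 3) ≤ 1 / (20000 * x) := by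
  have h1 : x ^ 3 + 1 ≤ Real.exp (x ^ 3) := Real.add_one_le_exp _
  have hx0 : 0 < x := lt_of_lt_of_le (by norm_num) hx
  have h2 : 20000 * x ≤ x ^ 3 := by
    have h3 : (20000 : ℝ) ≤ x ^ 2 := by nlinarith
    calc 20000 * x ≤ x ^ 2 * x := mul_le_mul_of_nonneg_right h3 hx0.le
      _ = x ^ 3 := by ring
  rw [Real.exp_neg, inv_eq_one_div]
  exact one_div_le_one_div_of_le (by positivity) (by linarith)

/-- from a violating pair to samples -/
theorem e2b {N : ℕ} (hP : Pm N Δ) (hG : Reg G Δ) {χ : V → Ty N} {v : V} {t t' : Ty N}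
    {S S' : Finset V} (h : Vio G N Δ χ v t t' S S') : ∃ Sg ⊆ S,
    (Sg.card : ℝ) ≤ 3 * (N ^ 5 * mT N / Δ) * (((S.card : ℝ) + S'.card) / 2) ∧
    ((S' \ Zs G N Sg).card : ℝ) ≤ 18 / 100 / N * (((S.card : ℝ) + S'.card) / 2) ∧
    ((((Zs G N Sg).filter (fun y => χ y = t')) \ S').card : ℝ) ≤
      4 / 100 / N * (((S.card : ℝ) + S'.card) / 2) ∧
    ((Zs G N Sg).card : ℝ) ≤ 2 * mT N * (((S.card : ℝ) + S'.card) / 2) := by
  have hN := E2b_N hP
  have hN0 : (0 : ℝ) < N := lt_of_lt_of_le (by norm_num) hN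
  have hm0 : (0 : ℝ) < mT N := nmT0 hP
  have hm1 : (1 : ℝ) ≤ mT N := by
    have h1 := (nmT hP).1
    have h2 : (1 : ℝ) ≤ (N : ℝ) ^ 54 := one_le_pow₀ (le_trans (by norm_num) hN)
    linarith
  have hΔ0 : (0 : ℝ) < Δ := by
    have h1 : (N : ℝ) ^ 40000 ≤ Δ := by exact_mod_cast hP.pow
    have h2 : (1 : ℝ) ≤ (N : ℝ) ^ 40000 := one_le_pow₀ (le_trans (by norm_num) hN)
    linarith
  obtain ⟨e1, e2'⟩ := e1a hP h
  obtain ⟨e3, -⟩ := e1b hP h
  obtain ⟨-, e4⟩ := e1b hP (Vio_sy h)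
  rw [add_comm (S'.card : ℝ) (S.card : ℝ)] at e4
  set Q : ℝ := ((S.card : ℝ) + S'.card) / 2 with hQ
  set a : ℝ := (Δ : ℝ) / mT N with ha
  set s : ℝ := (S.card : ℝ) with hs
  have ha0 : 0 < a := div_pos hΔ0 hm0
  have hQ0 : 0 < Q := by linarith
  have hiN : 1 / (N : ℝ) ≤ 1 / 2 ^ 40 := one_div_le_one_div_of_le (by norm_num) hN
  have hiN0 : 0 < 1 / (N : ℝ) := by positivity
  have hsm : 101 / 10000 / (N : ℝ) * Q ≤ 1 / 100 * Q := by
    apply mul_le_mul_of_nonneg_right _ hQ0.le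
    have : 101 / 10000 / (N : ℝ) = 101 / 10000 * (1 / N) := by ring
    rw [this]
    nlinarith
  have hs1 : s ≤ 101 / 100 * Q := by
    have := (abs_le.mp e1).2
    linarith
  have hs2 : 99 / 100 * Q ≤ s := by
    have := (abs_le.mp e1).1
    linarith
  have hs0 : 0 < s := by linarith
  have hSne : S.Nonempty := by
    rw [← Finset.card_pos]
    have hs0' : (0 : ℝ) < (S.card : ℝ) := hs0
    exact Nat.cast_pos.mp hs0'
  obtain ⟨Sg, hSg, g1, g2, g3⟩ := e2 hP hG S hSne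
  have hε : Real.exp (-(N : ℝ) ^ 3) * s ≤ Q / 10000 / N := by
    have h1 := E2b_exp hN
    calc Real.exp (-(N : ℝ) ^ 3) * s ≤ 1 / (20000 * N) * (101 / 100 * Q) :=
          mul_le_mul h1 hs1 hs0.le (by positivity)
      _ ≤ 1 / (20000 * N) * (2 * Q) := by
          apply mul_le_mul_of_nonneg_left _ (by positivity)
          linarith
      _ = Q / 10000 / N := by field_simp; norm_num
  -- membership in Z
  have hZ : ∀ y, y ∈ Zs G N Sg ↔ 3 / 4 * (N : ℝ) ^ 5 ≤ ((Sg.filter (fun u => G.Adj y u)).card : ℝ) := by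
    intro y
    unfold Zs
    simp only [mem_filter, mem_univ, true_and]
  refine ⟨Sg, hSg, ?_, ?_, ?_, ?_⟩
  · -- (a)
    have hlam : (N : ℝ) ^ 5 * mT N / Δ * a = N ^ 5 := by
      rw [ha]; field_simp
    have hl0 : 0 < (N : ℝ) ^ 5 * mT N / Δ := by positivity
    have h5 : (100 : ℝ) ≤ (N : ℝ) ^ 5 / 2 := by
      have h6 : (N : ℝ) ≤ (N : ℝ) ^ 5 := by
        have h7 : (1 : ℝ) ≤ N := le_trans (by norm_num) hN
        calc (N : ℝ) = (N : ℝ) ^ 1 := (pow_one _).symm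
          _ ≤ (N : ℝ) ^ 5 := pow_le_pow_right₀ h7 (by norm_num)
      have h8 : (200 : ℝ) ≤ N := le_trans (by norm_num) hN
      linarith
    have h9 : (N : ℝ) ^ 5 / 2 ≤ (N : ℝ) ^ 5 * mT N / Δ * Q := by
      have h9' : (N : ℝ) ^ 5 / 2 = ((N : ℝ) ^ 5 * mT N / Δ * a) / 2 := by rw [hlam]
      calc (N : ℝ) ^ 5 / 2 = (N : ℝ) ^ 5 * mT N / Δ * (a / 2) := by rw [h9']; ring
        _ ≤ (N : ℝ) ^ 5 * mT N / Δ * Q := mul_le_mul_of_nonneg_left e2' hl0.le
    have h10 : (N : ℝ) ^ 5 * mT N / Δ * s ≤ (N : ℝ) ^ 5 * mT N / Δ * (101 / 100 * Q) :=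
      mul_le_mul_of_nonneg_left hs1 hl0.le
    nlinarith [g1]
  · -- (b)
    have hsub : S' \ Zs G N Sg ⊆
        (S'.filter (fun x => ((S.filter (fun u => G.Adj x u)).card : ℝ) < 7 / 8 * a)) ∪
        (univ.filter (fun y => 7 / 8 * a ≤ ((S.filter (fun u => G.Adj y u)).card : ℝ) ∧
          ((Sg.filter (fun u => G.Adj y u)).card : ℝ) < 3 / 4 * N ^ 5)) := by
      intro y hy
      rw [mem_sdiff, hZ, not_le] at hy
      rw [mem_union, mem_filter, mem_filter]
      by_cases h1 : ((S.filter (fun u => G.Adj y u)).card : ℝ) < 7 / 8 * a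
      · exact Or.inl ⟨hy.1, h1⟩
      · exact Or.inr ⟨mem_univ _, not_lt.mp h1, hy.2⟩
    have h1 : ((S' \ Zs G N Sg).card : ℝ) ≤
        ((S'.filter (fun x => ((S.filter (fun u => G.Adj x u)).card : ℝ) < 7 / 8 * a)).card : ℝ) +
        ((univ.filter (fun y => 7 / 8 * a ≤ ((S.filter (fun u => G.Adj y u)).card : ℝ) ∧
          ((Sg.filter (fun u => G.Adj y u)).card : ℝ) < 3 / 4 * N ^ 5)).card : ℝ) := by
      exact_mod_cast (card_le_card hsub).trans (card_union_le _ _)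
    have h2 : 17 / 100 / (N : ℝ) * Q + Q / 10000 / N ≤ 18 / 100 / N * Q := by
      have e : 18 / 100 / (N : ℝ) * Q - (17 / 100 / (N : ℝ) * Q + Q / 10000 / N) = 99 / 10000 * (Q * (1 / N)) := by
        ring
      have : 0 < Q * (1 / (N : ℝ)) := by positivity
      linarith
    linarith
  · -- (c)
    set Y : Finset V := univ.filter (fun y => χ y = t' ∧ y ∉ S' ∧
      5 / 8 * a ≤ ((S.filter (fun u => G.Adj y u)).card : ℝ)) with hY
    have hsub : ((Zs G N Sg).filter (fun y => χ y = t')) \ S' ⊆ Y ∪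
        (univ.filter (fun y => ((S.filter (fun u => G.Adj y u)).card : ℝ) < 5 / 8 * a ∧
          3 / 4 * (N : ℝ) ^ 5 ≤ ((Sg.filter (fun u => G.Adj y u)).card : ℝ))) := by
      intro y hy
      rw [mem_sdiff, mem_filter, hZ] at hy
      rw [mem_union, hY, mem_filter, mem_filter]
      by_cases h1 : ((S.filter (fun u => G.Adj y u)).card : ℝ) < 5 / 8 * a
      · exact Or.inr ⟨mem_univ _, h1, hy.1.1⟩
      · exact Or.inl ⟨mem_univ _, hy.1.2, hy.2, not_lt.mp h1⟩
    have h1 : (((Zs G N Sg).filter (fun y => χ y = t') \ S').card : ℝ) ≤ (Y.card : ℝ) +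
        ((univ.filter (fun y => ((S.filter (fun u => G.Adj y u)).card : ℝ) < 5 / 8 * a ∧
          3 / 4 * (N : ℝ) ^ 5 ≤ ((Sg.filter (fun u => G.Adj y u)).card : ℝ))).card : ℝ) := by
      exact_mod_cast (card_le_card hsub).trans (card_union_le _ _)
    have h2 : 5 / 8 * a * Y.card ≤ ∑ y ∈ Y, ((S.filter (fun u => G.Adj y u)).card : ℝ) := by
      have h3 : ∑ y ∈ Y, (5 / 8 * a) ≤ ∑ y ∈ Y, ((S.filter (fun u => G.Adj y u)).card : ℝ) := by
        apply sum_le_sum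
        intro y hy
        rw [hY, mem_filter] at hy
        exact hy.2.2.2
      rw [sum_const, nsmul_eq_mul] at h3
      linarith
    have h4 : ∑ x ∈ S, ((Y.filter (fun u => G.Adj x u)).card : ℝ) ≤
        ∑ x ∈ S, (((univ.filter (fun u => G.Adj x u ∧ χ u = t')).card : ℝ) -
          ((S'.filter (fun u => G.Adj x u)).card : ℝ)) := by
      apply sum_le_sum
      intro x _
      have h5 : (Y.filter (fun u => G.Adj x u)) ∪ (S'.filter (fun u => G.Adj x u)) ⊆
          univ.filter (fun u => G.Adj x u ∧ χ u = t') := by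
        intro u hu
        rw [mem_filter]
        rcases mem_union.mp hu with hu | hu
        · obtain ⟨h6, h7⟩ := mem_filter.mp hu
          rw [hY, mem_filter] at h6
          exact ⟨mem_univ _, h7, h6.2.1⟩
        · obtain ⟨h6, h7⟩ := mem_filter.mp hu
          exact ⟨mem_univ _, h7, h.t2 u h6⟩
      have h8 : Disjoint (Y.filter (fun u => G.Adj x u)) (S'.filter (fun u => G.Adj x u)) := by
        rw [disjoint_left]
        intro u hu hu'
        have h9 := (mem_filter.mp hu).1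
        rw [hY, mem_filter] at h9
        exact h9.2.2.1 (mem_filter.mp hu').1
      have h10 := card_le_card h5
      rw [card_union_of_disjoint h8] at h10
      have h11 : ((Y.filter (fun u => G.Adj x u)).card : ℝ) + ((S'.filter (fun u => G.Adj x u)).card : ℝ) ≤
          ((univ.filter (fun u => G.Adj x u ∧ χ u = t')).card : ℝ) := by exact_mod_cast h10
      linarith
    rw [E2b_dc] at h2
    have h6 : 5 / 8 * a * Y.card ≤ 203 / 10000 / N * a * Q := (h2.trans h4).trans e3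
    have h7 : (Y.card : ℝ) ≤ 33 / 1000 / N * Q := by
      have h8 : a * (5 / 8 * Y.card) ≤ a * (203 / 10000 / N * Q) := by nlinarith
      have h9 := le_of_mul_le_mul_left h8 ha0
      have e : 33 / 1000 / (N : ℝ) * Q - 8 / 5 * (203 / 10000 / N * Q) = 52 / 100000 * (Q * (1 / N)) := by ring
      have : 0 < Q * (1 / (N : ℝ)) := by positivity
      linarith
    have e : 4 / 100 / (N : ℝ) * Q - (33 / 1000 / N * Q + Q / 10000 / N) = 69 / 10000 * (Q * (1 / N)) := by ring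
    have : 0 < Q * (1 / (N : ℝ)) := by positivity
    linarith
  · -- (d)
    set Y : Finset V := univ.filter (fun y =>
      5 / 8 * a ≤ ((S.filter (fun u => G.Adj y u)).card : ℝ)) with hY
    have hsub : Zs G N Sg ⊆ Y ∪
        (univ.filter (fun y => ((S.filter (fun u => G.Adj y u)).card : ℝ) < 5 / 8 * a ∧
          3 / 4 * (N : ℝ) ^ 5 ≤ ((Sg.filter (fun u => G.Adj y u)).card : ℝ))) := by
      intro y hy
      rw [hZ] at hy
      rw [mem_union, hY, mem_filter, mem_filter]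
      by_cases h1 : ((S.filter (fun u => G.Adj y u)).card : ℝ) < 5 / 8 * a
      · exact Or.inr ⟨mem_univ _, h1, hy⟩
      · exact Or.inl ⟨mem_univ _, not_lt.mp h1⟩
    have h1 : ((Zs G N Sg).card : ℝ) ≤ (Y.card : ℝ) +
        ((univ.filter (fun y => ((S.filter (fun u => G.Adj y u)).card : ℝ) < 5 / 8 * a ∧
          3 / 4 * (N : ℝ) ^ 5 ≤ ((Sg.filter (fun u => G.Adj y u)).card : ℝ))).card : ℝ) := by
      exact_mod_cast (card_le_card hsub).trans (card_union_le _ _)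
    have h2 : 5 / 8 * a * Y.card ≤ ∑ y ∈ Y, ((S.filter (fun u => G.Adj y u)).card : ℝ) := by
      have h3 : ∑ y ∈ Y, (5 / 8 * a) ≤ ∑ y ∈ Y, ((S.filter (fun u => G.Adj y u)).card : ℝ) := by
        apply sum_le_sum
        intro y hy
        rw [hY, mem_filter] at hy
        exact hy.2
      rw [sum_const, nsmul_eq_mul] at h3
      linarith
    have h4 : ∑ x ∈ S, ((Y.filter (fun u => G.Adj x u)).card : ℝ) ≤ ∑ x ∈ S, (Δ : ℝ) := by
      apply sum_le_sum
      intro x _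
      have h5 : (Y.filter (fun u => G.Adj x u)).card ≤ Δ := by
        rw [← hG x]
        apply card_le_card
        intro u hu
        rw [mem_filter] at hu
        rw [mem_filter]
        exact ⟨mem_univ _, hu.2⟩
      exact_mod_cast h5
    rw [sum_const, nsmul_eq_mul] at h4
    rw [E2b_dc] at h2
    have h6 : 5 / 8 * a * Y.card ≤ s * Δ := h2.trans h4
    have h7 : (Y.card : ℝ) ≤ 8 / 5 * (mT N * s) := by
      have e : s * (Δ : ℝ) = a * (mT N * s) := by
        rw [ha]; field_simp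
      rw [e] at h6
      have h8 : a * (5 / 8 * Y.card) ≤ a * (mT N * s) := by nlinarith
      have h9 := le_of_mul_le_mul_left h8 ha0
      linarith
    have h8 : (mT N : ℝ) * s ≤ mT N * (101 / 100 * Q) := mul_le_mul_of_nonneg_left hs1 hm0.le
    have h9 : Q / 10000 / (N : ℝ) ≤ Q := by
      have e : Q / 10000 / (N : ℝ) = Q * (1 / N) / 10000 := by ring
      rw [e]
      have : Q * (1 / (N : ℝ)) ≤ Q * 1 := mul_le_mul_of_nonneg_left (hiN.trans (by norm_num)) hQ0.le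
      linarith
    have h9' : Q / 10000 / (N : ℝ) ≤ 1 / 10 * (mT N * Q) := by
      have e : Q / 10000 / (N : ℝ) = Q * (1 / N) / 10000 := by ring
      rw [e]
      have h10 : Q * (1 / (N : ℝ)) ≤ Q * 1 := mul_le_mul_of_nonneg_left (hiN.trans (by norm_num)) hQ0.le
      have h11 : 1 * Q ≤ mT N * Q := mul_le_mul_of_nonneg_right hm1 hQ0.le
      linarith
    nlinarith

end Pool.Agent.H2.LN.HH
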