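/-
ROW E3. The bad event has small probability.
PROOF. `m = mT N = card (Ty N)`. Three applications of McDiarmid's inequality (`mcd`, `mcd'` in `H12/LN/Mcd.lean`; `BD f c`: changing the coordinate `i` changes `f` by at most `c i`). `pr_coord`: `pr (χ x = t) = 1 / m`. (1) `f χ = |Z ∩ {χ = t}|`, `c x = 1` for `x ∈ Z`, else `0`, `B = 3 m Q`, mean `|Z| / m` (`ex_sum`, `ex_ind`), deviation `Q / (10 N)`: exponent `Q ^ 2 / (100 N ^ 2) / (6 m Q) = Q / (600 N ^ 2 m) ≥ Q / (5000 N ^ 2 m ^ 3)`. (2) the same for `Z'`.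
(3) `f χ = ee G (Z.filter (χ = t)) (Z'.filter (χ = t')) = ∑ x ∈ Z, ∑ y ∈ Z', 1[x y adjacent, χ x = t, χ y = t']`, mean `ee G Z Z' / m ^ 2` (adjacent vertices are different, so the two events are independent: `pr_and` in `H65/GI/Exq`). Changing the type of `i` changes only the terms with `x = i` (at most `Δ`, if `i ∈ Z`) and with `y = i` (at most `Δ`, if `i ∈ Z'`): `c i = 2 Δ` if `i ∈ Z ∪ Z'`, else `0`; `∑ c i ^ 2 ≤ 4 Δ ^ 2 (6 m Q) = 24 Δ ^ 2 m Q`. Deviation `(Q / (10 N)) (Δ / m)`: exponent `Q ^ 2 Δ ^ 2 / (100 N ^ 2 m ^ 2) / (48 Δ ^ 2 m Q) = Q / (4800 N ^ 2 m ^ 3)`. Union (`pr_or` in `H65/GI/Cnd`).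
-/
import Pool.Agent.H2.LN.HD
import Pool.Agent.H65.GI.Tri
import Pool.Agent.H12.LN.Mcd

set_option autoImplicit false
set_option linter.unusedSectionVars false

namespace Pool.Agent.H2.LN.HH

open Finset Classical
open Pool.Agent.H65.GI Pool.Agent.H64.LN Pool.Agent.H12.LN

variable {V T : Type} [Fintype V] [Fintype T] [Nonempty T]
variable {G : SimpleGraph V} {Δ : ℕ}

theorem E3_card (N : ℕ) : Fintype.card (Ty N) = mT N := by
  unfold mT
  rw [Fintype.card_prod, Fintype.card_fun, ZMod.card, ZMod.card, Fintype.card_fin]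

theorem E3_mpos (N : ℕ) : (1 : ℝ) ≤ mT N := by
  have h : 1 ≤ mT N := by
    unfold mT
    exact Nat.mul_pos (Nat.pos_of_ne_zero (pow_ne_zero _ two_ne_zero)) (Nat.succ_pos _)
  exact_mod_cast h

theorem E3_pr1 {N : ℕ} (x : V) (t : Ty N) : pr (fun χ : V → Ty N => χ x = t) = 1 / mT N := by
  have h1 := pr_coord (I := V) (κ := Ty N) x (fun k => k = t)
  rw [h1]
  unfold pr
  rw [E3_card]
  congr 1
  rw [Nat.cast_eq_one, card_eq_one]
  exact ⟨t, by ext k; simp⟩

theorem E3_pr2 {N : ℕ} (x y : V) (hxy : x ≠ y) (t t' : Ty N) :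
    pr (fun χ : V → Ty N => χ x = t ∧ χ y = t') = 1 / (mT N : ℝ) ^ 2 := by
  have h1 : Loc (fun χ : V → Ty N => χ x = t) {x} := by
    intro χ χ' h
    have h2 := h x (mem_singleton_self x)
    change (χ x = t) = (χ' x = t)
    rw [h2]
  have h1' : Loc (fun χ : V → Ty N => χ y = t') {y} := by
    intro χ χ' h
    have h2 := h y (mem_singleton_self y)
    change (χ y = t') = (χ' y = t')
    rw [h2]
  rw [pr_and _ _ {x} {y} h1 h1' (by
    rw [disjoint_singleton]
    exact hxy), E3_pr1, E3_pr1]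
  rw [one_div_mul_one_div, sq]

/-- the number of the vertices of type `t` -/
theorem E3_one {N : ℕ} (t : Ty N) (Q : ℝ) (hQ : 0 < Q) (hN : 0 < N) (Z : Finset V)
    (hZ : (Z.card : ℝ) ≤ 3 * mT N * Q) :
    pr (fun χ : V → Ty N => ((Z.filter (fun x => χ x = t)).card : ℝ) < Z.card / mT N - Q / (10 * N)) ≤
      Real.exp (-(Q / (5000 * N ^ 2 * mT N ^ 3))) := by
  have hm := E3_mpos N
  have hN' : (0 : ℝ) < N := by exact_mod_cast hN
  have hf : ∀ χ : V → Ty N, ((Z.filter (fun x => χ x = t)).card : ℝ) = ∑ x ∈ Z, if χ x = t then (1 : ℝ) else 0 := by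
    intro χ
    rw [Finset.sum_boole]
  have hex : ex (fun χ : V → Ty N => ((Z.filter (fun x => χ x = t)).card : ℝ)) = Z.card / mT N := by
    rw [show (fun χ : V → Ty N => ((Z.filter (fun x => χ x = t)).card : ℝ)) =
      fun χ => ∑ x ∈ Z, if χ x = t then (1 : ℝ) else 0 from funext hf, ex_sum]
    have h1 : ∀ x ∈ Z, ex (fun χ : V → Ty N => if χ x = t then (1 : ℝ) else 0) = 1 / mT N := by
      intro x _
      refine Eq.trans ?_ (E3_pr1 x t)
      refine Eq.trans (congrArg ex (funext fun χ => ?_)) (ex_ind (fun χ : V → Ty N => χ x = t)).symm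
      by_cases h : χ x = t
      · rw [if_pos h, if_pos h]
      · rw [if_neg h, if_neg h]
    rw [sum_congr rfl h1, sum_const, nsmul_eq_mul, mul_one_div]
  have hbd : BD (fun χ : V → Ty N => ((Z.filter (fun x => χ x = t)).card : ℝ)) (fun i => if i ∈ Z then 1 else 0) := by
    intro i ω k l
    change |((Z.filter (fun x => (Function.update ω i k) x = t)).card : ℝ) -
      ((Z.filter (fun x => (Function.update ω i l) x = t)).card : ℝ)| ≤ (if i ∈ Z then (1 : ℝ) else 0)
    rw [hf, hf, ← sum_sub_distrib]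
    have h1 : ∀ x ∈ Z, x ≠ i → (if (Function.update ω i k) x = t then (1 : ℝ) else 0) -
        (if (Function.update ω i l) x = t then (1 : ℝ) else 0) = 0 := by
      intro x _ hx
      rw [Function.update_of_ne hx, Function.update_of_ne hx, sub_self]
    by_cases hi : i ∈ Z
    · rw [sum_eq_single_of_mem i hi h1, if_pos hi]
      split_ifs <;> norm_num
    · rw [sum_eq_zero fun x hx => h1 x hx (fun h => hi (h ▸ hx)), if_neg hi, abs_zero]
  have hB : ∑ i, ((fun i => if i ∈ Z then (1 : ℝ) else 0) i) ^ 2 ≤ 3 * mT N * Q := by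
    have h1 : ∀ i, ((fun i => if i ∈ Z then (1 : ℝ) else 0) i) ^ 2 = if i ∈ Z then (1 : ℝ) else 0 := by
      intro i
      by_cases hi : i ∈ Z
      · simp [hi]
      · simp [hi]
    rw [sum_congr rfl fun i _ => h1 i, Finset.sum_boole]
    have h2 : (univ.filter (fun i => i ∈ Z)) = Z := by
      ext i
      simp
    rw [h2]
    exact hZ
  have h := mcd' (fun χ : V → Ty N => ((Z.filter (fun x => χ x = t)).card : ℝ)) _ hbd (3 * mT N * Q)
    (Q / (10 * N)) hB (by positivity) (by positivity)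
  rw [hex] at h
  refine (pr_mono fun χ hχ => ?_).trans (h.trans ?_)
  · exact le_of_lt hχ
  · rw [Real.exp_le_exp]
    rw [neg_le_neg_iff]
    have e1 : (Q / (10 * N)) ^ 2 / (2 * (3 * mT N * Q)) = Q / (600 * (N : ℝ) ^ 2 * mT N) := by
      field_simp
      ring
    rw [e1]
    apply div_le_div_of_nonneg_left hQ.le (by positivity)
    have h3 : (mT N : ℝ) ≤ (mT N : ℝ) ^ 3 := by
      calc (mT N : ℝ) = (mT N : ℝ) ^ 1 := (pow_one _).symm
        _ ≤ _ := pow_le_pow_right₀ hm (by norm_num)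
    have h4 : (0 : ℝ) ≤ (N : ℝ) ^ 2 := by positivity
    have h5 : (N : ℝ) ^ 2 * mT N ≤ (N : ℝ) ^ 2 * (mT N : ℝ) ^ 3 := mul_le_mul_of_nonneg_left h3 h4
    have h6 : 0 ≤ (N : ℝ) ^ 2 * (mT N : ℝ) ^ 3 := by positivity
    nlinarith

theorem E3_ee {N : ℕ} (t t' : Ty N) (Z Z' : Finset V) (χ : V → Ty N) :
    (ee G (Z.filter (fun x => χ x = t)) (Z'.filter (fun x => χ x = t')) : ℝ) =
      ∑ x ∈ Z, ∑ y ∈ Z', if G.Adj x y ∧ χ x = t ∧ χ y = t' then (1 : ℝ) else 0 := by
  unfold ee
  push_cast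
  rw [sum_filter]
  refine sum_congr rfl fun x _ => ?_
  by_cases hx : χ x = t
  · rw [if_pos hx, filter_filter, Finset.sum_boole]
    congr 2
    ext y
    simp only [mem_filter]
    tauto
  · rw [if_neg hx]
    symm
    exact sum_eq_zero fun y _ => if_neg fun h => hx h.2.1

theorem E3_deg (hG : Reg G Δ) (Z : Finset V) (i : V) :
    ∑ y ∈ Z, (if G.Adj i y then (1 : ℝ) else 0) ≤ Δ := by
  rw [Finset.sum_boole]
  have h1 := hG i
  have h2 : (Z.filter (fun y => G.Adj i y)).card ≤ (univ.filter (fun u => G.Adj i u)).card :=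
    card_le_card (filter_subset_filter _ (subset_univ Z))
  rw [h1] at h2
  exact_mod_cast h2

/-- the number of edges -/
theorem E3_two {N : ℕ} (hP : Pm N Δ) (hG : Reg G Δ) (t t' : Ty N) (Q : ℝ) (hQ : 0 < Q) (Z Z' : Finset V)
    (hZ : (Z.card : ℝ) ≤ 3 * mT N * Q) (hZ' : (Z'.card : ℝ) ≤ 3 * mT N * Q) :
    pr (fun χ : V → Ty N => (ee G Z Z' : ℝ) / mT N ^ 2 + Q / (10 * N) * ((Δ : ℝ) / mT N) <
      (ee G (Z.filter (fun x => χ x = t)) (Z'.filter (fun x => χ x = t')) : ℝ)) ≤
      Real.exp (-(Q / (5000 * N ^ 2 * mT N ^ 3))) := by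
  have hm := E3_mpos N
  have hN : 0 < N := lt_of_lt_of_le (by positivity) hP.big
  have hN' : (0 : ℝ) < N := by exact_mod_cast hN
  have hΔ : 0 < Δ := lt_of_lt_of_le (pow_pos hN _) hP.pow
  have hΔ' : (0 : ℝ) < Δ := by exact_mod_cast hΔ
  have hex : ex (fun χ : V → Ty N => (ee G (Z.filter (fun x => χ x = t)) (Z'.filter (fun x => χ x = t')) : ℝ)) =
      (ee G Z Z' : ℝ) / mT N ^ 2 := by
    rw [show (fun χ : V → Ty N => (ee G (Z.filter (fun x => χ x = t)) (Z'.filter (fun x => χ x = t')) : ℝ)) =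
      fun χ => ∑ x ∈ Z, ∑ y ∈ Z', if G.Adj x y ∧ χ x = t ∧ χ y = t' then (1 : ℝ) else 0 from
      funext fun χ => E3_ee t t' Z Z' χ, ex_sum]
    unfold ee
    push_cast
    rw [sum_div]
    refine sum_congr rfl fun x _ => ?_
    rw [ex_sum, ← Finset.sum_boole, sum_div]
    refine sum_congr rfl fun y _ => ?_
    by_cases hxy : G.Adj x y
    · rw [if_pos hxy]
      refine Eq.trans ?_ (E3_pr2 x y hxy.ne t t')
      refine Eq.trans (congrArg ex (funext fun χ => ?_)) (ex_ind (fun χ : V → Ty N => χ x = t ∧ χ y = t')).symm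
      by_cases h : χ x = t ∧ χ y = t'
      · rw [if_pos h, if_pos ⟨hxy, h⟩]
      · rw [if_neg h, if_neg fun h' => h h'.2]
    · rw [if_neg hxy, zero_div]
      have h0 : (fun χ : V → Ty N => if G.Adj x y ∧ χ x = t ∧ χ y = t' then (1 : ℝ) else 0) = fun _ => 0 := by
        funext χ
        exact if_neg fun h => hxy h.1
      rw [h0, ex_const]
  have hbd : BD (fun χ : V → Ty N => (ee G (Z.filter (fun x => χ x = t)) (Z'.filter (fun x => χ x = t')) : ℝ))
      (fun i => if i ∈ Z ∪ Z' then 2 * (Δ : ℝ) else 0) := by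
    intro i ω k l
    change |(ee G (Z.filter (fun x => (Function.update ω i k) x = t)) (Z'.filter (fun x => (Function.update ω i k) x = t')) : ℝ) -
      (ee G (Z.filter (fun x => (Function.update ω i l) x = t)) (Z'.filter (fun x => (Function.update ω i l) x = t')) : ℝ)| ≤
        (if i ∈ Z ∪ Z' then 2 * (Δ : ℝ) else 0)
    rw [E3_ee, E3_ee, ← sum_sub_distrib]
    refine (abs_sum_le_sum_abs _ _).trans ?_
    have h1 : ∀ x ∈ Z, |(∑ y ∈ Z', if G.Adj x y ∧ (Function.update ω i k) x = t ∧ (Function.update ω i k) y = t' then (1 : ℝ) else 0) -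
        ∑ y ∈ Z', if G.Adj x y ∧ (Function.update ω i l) x = t ∧ (Function.update ω i l) y = t' then (1 : ℝ) else 0| ≤
        ∑ y ∈ Z', ((if x = i then (if G.Adj i y then (1 : ℝ) else 0) else 0) +
          (if y = i then (if G.Adj i x then (1 : ℝ) else 0) else 0)) := by
      intro x _
      rw [← sum_sub_distrib]
      refine (abs_sum_le_sum_abs _ _).trans (sum_le_sum fun y _ => ?_)
      by_cases hx : x = i
      · rw [if_pos hx]
        by_cases hxy : G.Adj x y
        · have hiy : G.Adj i y := hx ▸ hxy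
          rw [if_pos hiy]
          have h2 : (0 : ℝ) ≤ if y = i then (if G.Adj i x then (1 : ℝ) else 0) else 0 := by
            split_ifs <;> norm_num
          have h3 : |(if G.Adj x y ∧ (Function.update ω i k) x = t ∧ (Function.update ω i k) y = t' then (1 : ℝ) else 0) -
              if G.Adj x y ∧ (Function.update ω i l) x = t ∧ (Function.update ω i l) y = t' then (1 : ℝ) else 0| ≤ 1 := by
            split_ifs <;> norm_num
          linarith
        · rw [if_neg fun h => hxy h.1, if_neg fun h => hxy h.1, sub_self, abs_zero]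
          have h2 : (0 : ℝ) ≤ if y = i then (if G.Adj i x then (1 : ℝ) else 0) else 0 := by
            split_ifs <;> norm_num
          have h3 : (0 : ℝ) ≤ if G.Adj i y then (1 : ℝ) else 0 := by
            split_ifs <;> norm_num
          linarith
      · rw [if_neg hx, zero_add]
        by_cases hy : y = i
        · rw [if_pos hy]
          by_cases hxy : G.Adj x y
          · have hix : G.Adj i x := hy ▸ hxy.symm
            rw [if_pos hix]
            split_ifs <;> norm_num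
          · rw [if_neg fun h => hxy h.1, if_neg fun h => hxy h.1, sub_self, abs_zero]
            split_ifs <;> norm_num
        · rw [if_neg hy, Function.update_of_ne hx, Function.update_of_ne hx, Function.update_of_ne hy,
            Function.update_of_ne hy, sub_self, abs_zero]
    refine (sum_le_sum h1).trans ?_
    have h4 : ∑ x ∈ Z, ∑ y ∈ Z', ((if x = i then (if G.Adj i y then (1 : ℝ) else 0) else 0) +
          (if y = i then (if G.Adj i x then (1 : ℝ) else 0) else 0)) =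
        (if i ∈ Z then ∑ y ∈ Z', (if G.Adj i y then (1 : ℝ) else 0) else 0) +
          (if i ∈ Z' then ∑ x ∈ Z, (if G.Adj i x then (1 : ℝ) else 0) else 0) := by
      have h5 : ∀ x ∈ Z, ∑ y ∈ Z', ((if x = i then (if G.Adj i y then (1 : ℝ) else 0) else 0) +
          (if y = i then (if G.Adj i x then (1 : ℝ) else 0) else 0)) =
          (if x = i then ∑ y ∈ Z', (if G.Adj i y then (1 : ℝ) else 0) else 0) +
            (if i ∈ Z' then (if G.Adj i x then (1 : ℝ) else 0) else 0) := by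
        intro x _
        rw [sum_add_distrib, Finset.sum_ite_eq']
        congr 1
        by_cases hx : x = i
        · simp only [if_pos hx]
        · simp only [if_neg hx, sum_const_zero]
      rw [sum_congr rfl h5, sum_add_distrib, Finset.sum_ite_eq']
      congr 1
      by_cases hi : i ∈ Z'
      · simp only [if_pos hi]
      · simp only [if_neg hi, sum_const_zero]
    rw [h4]
    have d1 := E3_deg hG Z' i
    have d2 := E3_deg hG Z i
    have hmem : (i ∈ Z ∪ Z') ↔ (i ∈ Z ∨ i ∈ Z') := mem_union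
    by_cases a1 : i ∈ Z
    · have a3 : i ∈ Z ∪ Z' := hmem.2 (Or.inl a1)
      rw [if_pos a1, if_pos a3]
      by_cases a2 : i ∈ Z'
      · rw [if_pos a2]
        linarith
      · rw [if_neg a2]
        linarith
    · rw [if_neg a1]
      by_cases a2 : i ∈ Z'
      · have a3 : i ∈ Z ∪ Z' := hmem.2 (Or.inr a2)
        rw [if_pos a2, if_pos a3]
        linarith
      · have a3 : ¬ (i ∈ Z ∪ Z') := fun h => (hmem.1 h).elim a1 a2
        rw [if_neg a2, if_neg a3, add_zero]
  have hB : ∑ i, ((fun i => if i ∈ Z ∪ Z' then 2 * (Δ : ℝ) else 0) i) ^ 2 ≤ 24 * (Δ : ℝ) ^ 2 * mT N * Q := by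
    have h1 : ∀ i, ((fun i => if i ∈ Z ∪ Z' then 2 * (Δ : ℝ) else 0) i) ^ 2 =
        (4 * (Δ : ℝ) ^ 2) * if i ∈ Z ∪ Z' then (1 : ℝ) else 0 := by
      intro i
      change (if i ∈ Z ∪ Z' then 2 * (Δ : ℝ) else 0) ^ 2 = _
      by_cases hi : i ∈ Z ∪ Z'
      · rw [if_pos hi, if_pos hi]
        ring
      · rw [if_neg hi, if_neg hi]
        ring
    rw [sum_congr rfl fun i _ => h1 i, ← mul_sum, Finset.sum_boole]
    have h2 : (univ.filter (fun i => i ∈ Z ∪ Z')) = Z ∪ Z' := by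
      ext i
      simp
    rw [h2]
    have h3 : ((Z ∪ Z').card : ℝ) ≤ Z.card + Z'.card := by exact_mod_cast card_union_le Z Z'
    have h4 : (0 : ℝ) ≤ 4 * (Δ : ℝ) ^ 2 := by positivity
    calc 4 * (Δ : ℝ) ^ 2 * ((Z ∪ Z').card : ℝ) ≤ 4 * (Δ : ℝ) ^ 2 * (3 * mT N * Q + 3 * mT N * Q) :=
          mul_le_mul_of_nonneg_left (by linarith) h4
      _ = _ := by ring
  have h := mcd (fun χ : V → Ty N => (ee G (Z.filter (fun x => χ x = t)) (Z'.filter (fun x => χ x = t')) : ℝ)) _ hbd
    (24 * (Δ : ℝ) ^ 2 * mT N * Q) (Q / (10 * N) * ((Δ : ℝ) / mT N)) hB (by positivity) (by positivity)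
  rw [hex] at h
  refine (pr_mono fun χ hχ => ?_).trans (h.trans ?_)
  · exact le_of_lt hχ
  · rw [Real.exp_le_exp]
    rw [neg_le_neg_iff]
    have e1 : (Q / (10 * N) * ((Δ : ℝ) / mT N)) ^ 2 / (2 * (24 * (Δ : ℝ) ^ 2 * mT N * Q)) =
        Q / (4800 * (N : ℝ) ^ 2 * (mT N : ℝ) ^ 3) := by
      field_simp
      ring
    rw [e1]
    apply div_le_div_of_nonneg_left hQ.le (by positivity)
    have h6 : 0 ≤ (N : ℝ) ^ 2 * (mT N : ℝ) ^ 3 := by positivity
    nlinarith

theorem e3 {N : ℕ} (hP : Pm N Δ) (hG : Reg G Δ) (t t' : Ty N) (Q : ℝ) (hQ : 0 < Q) (Z Z' : Finset V)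
    (hZ : (Z.card : ℝ) ≤ 3 * mT N * Q) (hZ' : (Z'.card : ℝ) ≤ 3 * mT N * Q) :
    pr (fun χ : V → Ty N => Bad G N Δ χ t t' Q Z Z') ≤
      3 * Real.exp (-(Q / (5000 * N ^ 2 * mT N ^ 3))) := by
  have hN : 0 < N := lt_of_lt_of_le (by positivity) hP.big
  have h1 := E3_one t Q hQ hN Z hZ
  have h2 := E3_one t' Q hQ hN Z' hZ'
  have h3 := E3_two hP hG t t' Q hQ Z Z' hZ hZ'
  unfold Bad
  refine (pr_or _ _).trans ?_
  have h4 := pr_or (fun χ : V → Ty N => ((Z'.filter (fun x => χ x = t')).card : ℝ) < Z'.card / mT N - Q / (10 * N))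
    (fun χ : V → Ty N => (ee G Z Z' : ℝ) / mT N ^ 2 + Q / (10 * N) * ((Δ : ℝ) / mT N) <
      (ee G (Z.filter (fun x => χ x = t)) (Z'.filter (fun x => χ x = t')) : ℝ))
  linarith

end Pool.Agent.H2.LN.HH
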