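/-
ROW E4. A violating pair gives a bad event.
PROOF. `φ = 1 / (100 N)`, `ε = 1 / (10 N)`, `Q`, `a = Δ / m` (`m = mT N`). `Sg ⊆ S` from `e2b h`, `Z' := Zs G N Sg`; `Sg' ⊆ S'` from `e2b (Vio_sy h)`, `Z := Zs G N Sg'`. So `|S' \ Z'| ≤ 18 φ Q`, `|(Z' ∩ V_t') \ S'| ≤ 4 φ Q`, `|Z'| ≤ 2 m Q`, and `|S \ Z| ≤ 18 φ Q`, `|(Z ∩ V_t) \ S| ≤ 4 φ Q`, `|Z| ≤ 2 m Q`. Suppose `¬ Bad`. `kk1` (`H64/LN/K5.lean`) for `Z, Z'`: `|Z ∪ Z'| ≤ 4 m Q ≤ 4 m Δ ^ 12 ≤ Δ ^ 13`: `ee G Z Z' ≤ (1 - 1 / N) Δ (|Z| + |Z'|) / 2`.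
So `ee (Z ∩ V_t) (Z' ∩ V_t') ≤ ee Z Z' / m ^ 2 + ε a Q ≤ (1 - 1/N) a (|Z| / m + |Z'| / m) / 2 + ε a Q ≤ (1 - 1/N) a (|Z ∩ V_t| + |Z' ∩ V_t'| + 2 ε Q) / 2 + ε a Q ≤ a Q ((1 - 1/N)(1 + 4 φ + ε) + ε) ≤ a Q (1 + 4 φ + 2 ε - 1 / N)` (`|Z ∩ V_t| ≤ |S| + 4 φ Q`, ...).
Lower bound: `ee S S' ≤ ee (Z ∩ V_t) (Z' ∩ V_t') + ee (S \ Z) S' + ee S (S' \ Z')` (`S ∩ Z ⊆ Z ∩ V_t`, `S' ∩ Z' ⊆ Z' ∩ V_t'`), `ee (S \ Z) S' ≤ 18 φ Q (1 + N ^ -9) a` (`dg`: `|N(x) ∩ S'| ≤ |N(x) ∩ V_t'|`), `ee S (S' \ Z') = ee (S' \ Z') S ≤ 18 φ Q (1 + N ^ -9) a` (`ee_comm`). With `vi`: `(1 - φ) a Q - 36 φ (1 + N ^ -9) a Q < a Q (1 + 4 φ + 2 ε - 1 / N)`; but `φ + 36 φ (1 + N ^ -9) + 4 φ + 2 ε ≤ 42 φ + 2 ε = 0.62 / N < 1 / N`. Contradiction (`a Q > 0`).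
-/
import Pool.Agent.H2.LN.HD
import Pool.Agent.H2.LN.H.E1
import Pool.Agent.H2.LN.H.E2b

set_option autoImplicit false
set_option linter.unusedSectionVars false

namespace Pool.Agent.H2.LN.HH

open Finset Classical
open Pool.Agent.H65.GI Pool.Agent.H64.LN

variable {V T : Type} [Fintype V] [Fintype T] [Nonempty T]
variable {G : SimpleGraph V} {Δ : ℕ}

private theorem E4_mono (G : SimpleGraph V) {X X' Y Y' : Finset V} (h1 : X ⊆ X') (h2 : Y ⊆ Y') :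
    ee G X Y ≤ ee G X' Y' := by
  unfold ee
  calc ∑ x ∈ X, (Y.filter (fun y => G.Adj x y)).card ≤
        ∑ x ∈ X', (Y.filter (fun y => G.Adj x y)).card := Finset.sum_le_sum_of_subset h1
    _ ≤ ∑ x ∈ X', (Y'.filter (fun y => G.Adj x y)).card := by
        apply Finset.sum_le_sum
        intro x _
        exact Finset.card_le_card (Finset.filter_subset_filter _ h2)

private theorem E4_split (G : SimpleGraph V) (X Y Z : Finset V) :
    ee G X Y = ee G (X ∩ Z) Y + ee G (X \ Z) Y := by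
  unfold ee
  rw [Finset.sum_inter_add_sum_sdiff]

private theorem E4_bd (G : SimpleGraph V) (X Y : Finset V) (c : ℝ)
    (h : ∀ x ∈ X, ((Y.filter (fun y => G.Adj x y)).card : ℝ) ≤ c) :
    (ee G X Y : ℝ) ≤ X.card * c := by
  unfold ee
  push_cast
  calc ∑ x ∈ X, ((Y.filter (fun y => G.Adj x y)).card : ℝ) ≤ ∑ x ∈ X, c := Finset.sum_le_sum h
    _ = X.card * c := by rw [Finset.sum_const, nsmul_eq_mul]

private theorem E4_dg {N : ℕ} {χ : V → Ty N} {v : V} {t t' : Ty N} {S S' : Finset V}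
    (h : Vio G N Δ χ v t t' S S') (x : V) (hx : x ∈ S) :
    ((S'.filter (fun y => G.Adj x y)).card : ℝ) ≤ (Δ : ℝ) / mT N + (Δ : ℝ) / mT N / N ^ 9 := by
  have h1 := h.dg x (bl_mono G v (Nat.le_succ _) (h.s1 hx)) t'
  have h2 := (abs_le.mp h1).2
  have h3 : (S'.filter (fun y => G.Adj x y)) ⊆ univ.filter (fun u => G.Adj x u ∧ χ u = t') := by
    intro u hu
    obtain ⟨h4, h5⟩ := Finset.mem_filter.mp hu
    exact Finset.mem_filter.mpr ⟨Finset.mem_univ _, h5, h.t2 u h4⟩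
  have h4 : ((S'.filter (fun y => G.Adj x y)).card : ℝ) ≤
      ((univ.filter (fun u => G.Adj x u ∧ χ u = t')).card : ℝ) := by
    exact_mod_cast Finset.card_le_card h3
  linarith

private theorem E4_card {A S : Finset V} {c : ℝ} (h : ((A \ S).card : ℝ) ≤ c) : (A.card : ℝ) ≤ S.card + c := by
  have h1 : A ⊆ S ∪ (A \ S) := by
    intro x hx
    by_cases hs : x ∈ S
    · exact Finset.mem_union_left _ hs
    · exact Finset.mem_union_right _ (Finset.mem_sdiff.mpr ⟨hx, hs⟩)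
  have h2 : (A.card : ℝ) ≤ (S.card : ℝ) + ((A \ S).card : ℝ) := by
    exact_mod_cast (Finset.card_le_card h1).trans (Finset.card_union_le _ _)
  linarith

/-- a violating pair gives samples with a bad event -/
theorem e4 {N : ℕ} (hP : Pm N Δ) (hG : Reg G Δ) (hgap : Gap G N Δ) {χ : V → Ty N} {v : V}
    {t t' : Ty N} {S S' : Finset V} (h : Vio G N Δ χ v t t' S S') : ∃ Sg Sg' : Finset V,
    Sg ⊆ bl G v (8 * N ^ 3) ∧ Sg' ⊆ bl G v (8 * N ^ 3) ∧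
    ((Sg.card : ℝ) + Sg'.card) ≤ 6 * (N ^ 5 * mT N / Δ) * (((S.card : ℝ) + S'.card) / 2) ∧
    ((Zs G N Sg).card : ℝ) ≤ 3 * mT N * (((S.card : ℝ) + S'.card) / 2) ∧
    ((Zs G N Sg').card : ℝ) ≤ 3 * mT N * (((S.card : ℝ) + S'.card) / 2) ∧
    Bad G N Δ χ t t' (((S.card : ℝ) + S'.card) / 2) (Zs G N Sg') (Zs G N Sg) := by
  have hN0 : (0 : ℝ) < N := nN0 hP
  have hN := nN hP
  have hm0 : (0 : ℝ) < mT N := nmT0 hP
  have hΔ0 : (0 : ℝ) < Δ := nΔ0 hP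
  obtain ⟨-, hQa⟩ := e1a hP h
  obtain ⟨Sg, hSg, a1, a2, a3, a4⟩ := e2b hP hG h
  obtain ⟨Sg', hSg', a5, a6, a7, a8⟩ := e2b hP hG (Vio_sy h)
  rw [add_comm (S'.card : ℝ) (S.card : ℝ)] at a5 a6 a7 a8
  have hvi := h.vi
  have hd1 := E4_dg h
  have hd2 := E4_dg (Vio_sy h)
  have hc1 : (S.card : ℝ) ≤ (Δ : ℝ) ^ 12 := by exact_mod_cast h.c1
  have hc2 : (S'.card : ℝ) ≤ (Δ : ℝ) ^ 12 := by exact_mod_cast h.c2
  set Q : ℝ := ((S.card : ℝ) + S'.card) / 2 with hQ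
  set a : ℝ := (Δ : ℝ) / mT N with ha
  have ha0 : 0 < a := div_pos hΔ0 hm0
  have hQ0 : 0 < Q := by linarith
  have hmQ : 0 < (mT N : ℝ) * Q := mul_pos hm0 hQ0
  refine ⟨Sg, Sg', hSg.trans h.s1, hSg'.trans h.s2, ?_, ?_, ?_, ?_⟩
  · linarith
  · linarith
  · linarith
  by_contra hbad
  unfold Bad at hbad
  push Not at hbad
  obtain ⟨b1, b2, b3⟩ := hbad
  set Z : Finset V := Zs G N Sg' with hZdef
  set Z' : Finset V := Zs G N Sg with hZdef'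
  set A : Finset V := Z.filter (fun x => χ x = t) with hA
  set B : Finset V := Z'.filter (fun x => χ x = t') with hB
  -- the gap
  have hZc : (Z ∪ Z').card ≤ Δ ^ 13 := by
    have h1 : ((Z ∪ Z').card : ℝ) ≤ (Z.card : ℝ) + Z'.card := by
      exact_mod_cast Finset.card_union_le _ _
    have h2 : Q ≤ (Δ : ℝ) ^ 12 := by linarith
    have h3 : 4 * (mT N : ℝ) ≤ Δ := by
      have h4 := (nmT hP).2
      have h5 := nΔN hP
      have h6 : (N : ℝ) ^ 54 * N ≤ (N : ℝ) ^ 40000 := by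
        rw [← pow_succ]
        exact pow_le_pow_right₀ (nN1 hP) (by norm_num)
      have h7 : (0 : ℝ) < (N : ℝ) ^ 54 := pow_pos hN0 _
      have h8 : (16 : ℝ) ≤ N := le_trans (by norm_num) hN
      nlinarith
    have h4 : ((Z ∪ Z').card : ℝ) ≤ (Δ : ℝ) ^ 13 := by
      calc ((Z ∪ Z').card : ℝ) ≤ 4 * (mT N : ℝ) * Q := by linarith
        _ ≤ Δ * (Δ : ℝ) ^ 12 := mul_le_mul h3 h2 hQ0.le hΔ0.le
        _ = (Δ : ℝ) ^ 13 := by ring
    exact_mod_cast h4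
  have hgp := kk1 G N Δ hgap Z Z' hZc
  -- sizes of A and B
  have hAc := E4_card a7
  have hBc := E4_card a3
  -- decomposition
  have hdec : ee G S S' ≤ ee G A B + ee G (S' \ Z') S + ee G (S \ Z) S' := by
    have h1 := E4_split G S S' Z
    have h2 : ee G (S ∩ Z) S' = ee G (S' ∩ Z') (S ∩ Z) + ee G (S' \ Z') (S ∩ Z) := by
      rw [ee_comm, E4_split G S' (S ∩ Z) Z']
    have h3 : ee G (S' ∩ Z') (S ∩ Z) ≤ ee G A B := by
      rw [ee_comm G A B]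
      apply E4_mono
      · intro x hx
        obtain ⟨hx1, hx2⟩ := Finset.mem_inter.mp hx
        exact Finset.mem_filter.mpr ⟨hx2, h.t2 x hx1⟩
      · intro x hx
        obtain ⟨hx1, hx2⟩ := Finset.mem_inter.mp hx
        exact Finset.mem_filter.mpr ⟨hx2, h.t1 x hx1⟩
    have h4 : ee G (S' \ Z') (S ∩ Z) ≤ ee G (S' \ Z') S :=
      E4_mono G (Finset.Subset.refl _) Finset.inter_subset_left
    omega
  have hdec' : (ee G S S' : ℝ) ≤ ee G A B + ee G (S' \ Z') S + ee G (S \ Z) S' := by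
    exact_mod_cast hdec
  have e5 : (ee G (S' \ Z') S : ℝ) ≤ (S' \ Z').card * (a + a / N ^ 9) :=
    E4_bd G _ _ _ (fun x hx => hd2 x (Finset.mem_sdiff.mp hx).1)
  have e6 : (ee G (S \ Z) S' : ℝ) ≤ (S \ Z).card * (a + a / N ^ 9) :=
    E4_bd G _ _ _ (fun x hx => hd1 x (Finset.mem_sdiff.mp hx).1)
  -- in terms of e = 1 / N
  obtain ⟨e, he⟩ : ∃ e : ℝ, e = 1 / N := ⟨_, rfl⟩
  have he0 : 0 < e := by rw [he]; positivity
  have he1 : e ≤ 1 := by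
    rw [he, div_le_one hN0]
    exact nN1 hP
  obtain ⟨f, hf⟩ : ∃ f : ℝ, f = 1 / (N : ℝ) ^ 9 := ⟨_, rfl⟩
  have hf0 : 0 < f := by rw [hf]; positivity
  have hf1 : f ≤ 1 / 100 := by
    rw [hf]
    apply one_div_le_one_div_of_le (by norm_num)
    have h1 : (N : ℝ) ^ 1 ≤ (N : ℝ) ^ 9 := pow_le_pow_right₀ (nN1 hP) (by norm_num)
    rw [pow_one] at h1
    have h2 : (100 : ℝ) ≤ N := le_trans (by norm_num) hN
    linarith
  have r1 : Q / (10 * N) = Q * e / 10 := by rw [he]; field_simp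
  have r2 : 4 / 100 / (N : ℝ) * Q = 4 / 100 * (Q * e) := by rw [he]; field_simp
  have r3 : 18 / 100 / (N : ℝ) * Q = 18 / 100 * (Q * e) := by rw [he]; field_simp
  have r4 : a / (N : ℝ) ^ 9 = a * f := by rw [hf]; field_simp
  have r5 : (1 : ℝ) - 1 / (100 * N) = 1 - e / 100 := by
    rw [he]
    congr 1
    field_simp
  rw [r1] at b1 b2 b3
  rw [r2] at hAc hBc
  rw [r3] at a2 a6
  rw [r4] at e5 e6
  rw [r5] at hvi
  -- the bound for ee Z Z'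
  have hzz : (Z.card : ℝ) / mT N + Z'.card / mT N ≤ Q * (2 + 28 / 100 * e) := by
    have h1 : (S.card : ℝ) + S'.card = 2 * Q := by rw [hQ]; ring
    have h2 : Q * (2 + 28 / 100 * e) = 2 * Q + 28 / 100 * (Q * e) := by ring
    rw [h2]
    linarith
  have hEZ : (ee G Z Z' : ℝ) / mT N ^ 2 ≤ a * (1 - e) * (Q * (1 + 14 / 100 * e)) := by
    have h1 : (ee G Z Z' : ℝ) / mT N ^ 2 ≤
        (((Δ : ℝ) - Δ / N) * (((Z.card : ℝ) + Z'.card) / 2)) / mT N ^ 2 :=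
      div_le_div_of_nonneg_right hgp (by positivity)
    have h2 : (((Δ : ℝ) - Δ / N) * (((Z.card : ℝ) + Z'.card) / 2)) / mT N ^ 2 =
        a * (1 - e) * (((Z.card : ℝ) / mT N + Z'.card / mT N) / 2) := by
      rw [ha, he]
      field_simp
    rw [h2] at h1
    have h3 : 0 ≤ a * (1 - e) := mul_nonneg ha0.le (by linarith)
    have h4 : ((Z.card : ℝ) / mT N + Z'.card / mT N) / 2 ≤ Q * (1 + 14 / 100 * e) := by
      have : Q * (2 + 28 / 100 * e) / 2 = Q * (1 + 14 / 100 * e) := by ring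
      linarith
    exact le_trans h1 (mul_le_mul_of_nonneg_left h4 h3)
  have haf : 0 < a + a * f := by positivity
  have e7 : (ee G (S' \ Z') S : ℝ) ≤ 18 / 100 * (Q * e) * (a + a * f) :=
    le_trans e5 (mul_le_mul_of_nonneg_right a2 haf.le)
  have e8 : (ee G (S \ Z) S' : ℝ) ≤ 18 / 100 * (Q * e) * (a + a * f) :=
    le_trans e6 (mul_le_mul_of_nonneg_right a6 haf.le)
  have hfin : (1 - e / 100) * a * Q < a * (1 - e) * (Q * (1 + 14 / 100 * e)) + Q * e / 10 * a +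
      2 * (18 / 100 * (Q * e) * (a + a * f)) := by linarith
  have hP0 : 0 < a * Q * e := by positivity
  have k1 : a * Q * e * f ≤ a * Q * e * (1 / 100) := mul_le_mul_of_nonneg_left hf1 hP0.le
  have k2 : 0 < a * Q * e * e := by positivity
  have k3 : a * (1 - e) * (Q * (1 + 14 / 100 * e)) + Q * e / 10 * a +
      2 * (18 / 100 * (Q * e) * (a + a * f)) - (1 - e / 100) * a * Q =
      a * Q * e * (-39 / 100) - 14 / 100 * (a * Q * e * e) + 36 / 100 * (a * Q * e * f) := by ring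
  linarith

end Pool.Agent.H2.LN.HH
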