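/-
ROW E5. The union bound.
PROOF. `m = mT N`, `B := bl G v (8 N ^ 3)`, `b := |B| + 1 ≤ (Δ + 1) ^ (8 N ^ 3) + 1 ≤ (2 Δ) ^ (9 N ^ 3)` (`bl_card` in `H65/GI/Lll`), `λ = N ^ 5 m / Δ`. By `e4` and `e1a` the event implies: there are `t, t'`, a natural number `j ≤ 2 Δ ^ 12` (`j = |S| + |S'|`), `Q = j / 2 ≥ Δ / (2 m)`, and `Sg, Sg' ⊆ B` with `|Sg| + |Sg'| ≤ 6 λ Q`, `|Zs Sg|, |Zs Sg'| ≤ 3 m Q`, and `Bad G N Δ χ t t' Q (Zs Sg') (Zs Sg)`. Number of subsets of `B` with at most `l` elements: `≤ (|B| + 1) ^ l` (every such set is the image of a function `Fin l → Option B`; or induction on `l`). So for fixed `t, t', j` the number of pairs is `≤ b ^ (2 l)`, `l = ⌊6 λ Q⌋₊`, and by `e3` and `pr_ex` (`H65/GI/Cnd`) the probability is `≤ b ^ (2 l) 3 exp (-Q / (5000 N ^ 2 m ^ 3))`.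
`b ^ (2 l) ≤ exp (12 λ Q 9 N ^ 3 log (2 Δ)) ≤ exp (Q N ^ 10 m / Δ * 216)` (`log (2 Δ) ≤ 2 log Δ ≤ N`) and `216 N ^ 10 m / Δ ≤ 1 / (10000 N ^ 2 m ^ 3)` (`m ≤ 4 N ^ 54`, `Δ ≥ N ^ 40000`). So each term is `≤ 3 exp (-Q / (10000 N ^ 2 m ^ 3)) ≤ 3 exp (-Δ / (20000 N ^ 2 m ^ 4))`; the number of `(t, t', j)` is `≤ m ^ 2 (2 Δ ^ 12 + 1) ≤ Δ ^ 14`. `Δ ^ 14 * 3 ≤ exp (15 N)` and `Δ / (20000 N ^ 2 m ^ 4) ≥ N ^ 7`. (`nlogN, nmT, nΔN` in `H64/LN/Bnm`.)
-/
import Pool.Agent.H2.LN.HD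
import Pool.Agent.H2.LN.H.E3
import Pool.Agent.H2.LN.H.E4
import Pool.Agent.H2.LN.H.E1

set_option autoImplicit false
set_option linter.unusedSectionVars false

namespace Pool.Agent.H2.LN.HH

open Finset Classical
open Pool.Agent.H65.GI Pool.Agent.H64.LN

variable {V T : Type} [Fintype V] [Fintype T] [Nonempty T]
variable {G : SimpleGraph V} {Δ : ℕ}

/-- the number of small subsets -/
theorem E5_sub {α : Type} (B : Finset α) (l : ℕ) :
    (B.powerset.filter (fun s => s.card ≤ l)).card ≤ (B.card + 1) ^ l := by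
  induction l with
  | zero =>
    have h1 : B.powerset.filter (fun s => s.card ≤ 0) ⊆ {∅} := by
      intro s hs
      rw [mem_filter] at hs
      rw [mem_singleton]
      exact Finset.card_eq_zero.1 (Nat.le_zero.1 hs.2)
    have h2 := card_le_card h1
    rw [card_singleton] at h2
    rw [pow_zero]
    exact h2
  | succ l ih =>
    have h1 : B.powerset.filter (fun s => s.card ≤ l + 1) ⊆
        ((insertNone B) ×ˢ (B.powerset.filter (fun s => s.card ≤ l))).image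
          (fun q : Option α × Finset α => q.1.elim q.2 (fun a => insert a q.2)) := by
      intro s hs
      rw [mem_filter, mem_powerset] at hs
      rw [mem_image]
      by_cases h : s = ∅
      · refine ⟨(none, ∅), ?_, ?_⟩
        · rw [mem_product, mem_filter, mem_powerset]
          refine ⟨?_, ?_, ?_⟩
          · simp
          · simp
          · simp
        · rw [h]
          rfl
      · obtain ⟨a, ha⟩ := Finset.nonempty_iff_ne_empty.2 h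
        refine ⟨(some a, s.erase a), ?_, ?_⟩
        · rw [mem_product, mem_filter, mem_powerset]
          refine ⟨?_, ?_, ?_⟩
          · simp [hs.1 ha]
          · exact (erase_subset _ _).trans hs.1
          · have h3 := card_erase_of_mem ha
            have h4 := hs.2
            change (s.erase a).card ≤ l
            omega
        · exact insert_erase ha
    have h2 := card_le_card h1
    refine h2.trans (card_image_le.trans ?_)
    rw [card_product, card_insertNone, pow_succ, mul_comm]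
    exact Nat.mul_le_mul_right _ ih

theorem E5_cT (N : ℕ) : Fintype.card (Ty N) = mT N := by
  simp [mT, Ty, ZMod.card]

/-- the size of the ball -/
theorem E5_ball {N : ℕ} (hP : Pm N Δ) (hG : Reg G Δ) (v : V) :
    (((bl G v (8 * N ^ 3)).card + 1 : ℕ) : ℝ) ≤ Real.exp ((N : ℝ) ^ 4) := by
  have hN := nN hP
  have hN1 := nN1 hP
  have hN0 := nN0 hP
  have hΔ0 := nΔ0 hP
  have hΔ2 : (2 : ℝ) ≤ Δ := by
    have h1 := nΔN hP
    have h2 : (N : ℝ) ≤ (N : ℝ) ^ 40000 := le_self_pow₀ hN1 (by norm_num)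
    have h3 : (2 : ℝ) ≤ 2 ^ 40 := by norm_num
    linarith
  have h1 : (bl G v (8 * N ^ 3)).card + 1 ≤ (Δ + 1) ^ (8 * N ^ 3 + 1) := by
    have h2 := bl_card G Δ hG v (8 * N ^ 3)
    have h3 : 1 ≤ (Δ + 1) ^ (8 * N ^ 3) := Nat.one_le_pow _ _ (by omega)
    have h4 : 1 ≤ Δ := by
      have : (1 : ℝ) ≤ Δ := by linarith
      exact_mod_cast this
    rw [pow_succ (Δ + 1)]
    generalize (Δ + 1) ^ (8 * N ^ 3) = y at h2 h3 ⊢
    generalize (bl G v (8 * N ^ 3)).card = x at h2 ⊢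
    nlinarith
  have h2 : (((bl G v (8 * N ^ 3)).card + 1 : ℕ) : ℝ) ≤ ((Δ : ℝ) + 1) ^ (8 * N ^ 3 + 1) := by
    exact_mod_cast h1
  refine h2.trans ?_
  have h3 : (Δ : ℝ) + 1 ≤ Real.exp (2 * Real.log Δ) := by
    have h4 : Real.exp (2 * Real.log Δ) = (Δ : ℝ) ^ 2 := by
      rw [two_mul, Real.exp_add, Real.exp_log hΔ0, sq]
    rw [h4]
    nlinarith
  have h4 : ((Δ : ℝ) + 1) ^ (8 * N ^ 3 + 1) ≤ Real.exp (2 * Real.log Δ) ^ (8 * N ^ 3 + 1) :=
    pow_le_pow_left₀ (by linarith) h3 _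
  refine h4.trans ?_
  rw [← Real.exp_nat_mul]
  apply Real.exp_le_exp.2
  have h5 := nlogN hP
  have h6 : (0 : ℝ) ≤ Real.log Δ := Real.log_nonneg (by linarith)
  have h7 : ((8 * N ^ 3 + 1 : ℕ) : ℝ) ≤ 9 * (N : ℝ) ^ 3 := by
    push_cast
    have : (1 : ℝ) ≤ (N : ℝ) ^ 3 := one_le_pow₀ hN1
    linarith
  calc ((8 * N ^ 3 + 1 : ℕ) : ℝ) * (2 * Real.log Δ) ≤ 9 * (N : ℝ) ^ 3 * (2 * Real.log Δ) :=
        mul_le_mul_of_nonneg_right h7 (by linarith)
    _ = (N : ℝ) ^ 3 * (18 * Real.log Δ) := by ring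
    _ ≤ (N : ℝ) ^ 3 * N := by
      apply mul_le_mul_of_nonneg_left _ (by positivity)
      linarith
    _ = (N : ℝ) ^ 4 := by ring

/-- numbers -/
theorem E5_n1 {N : ℕ} (hP : Pm N Δ) : 120000 * (N : ℝ) ^ 18 * (mT N : ℝ) ^ 4 ≤ Δ := by
  have hN := nN hP
  have hN1 := nN1 hP
  have hN0 := nN0 hP
  have hm := nmT hP
  have hm0 := nmT0 hP
  have h1 : (mT N : ℝ) ^ 4 ≤ (4 * (N : ℝ) ^ 54) ^ 4 := pow_le_pow_left₀ hm0.le hm.2 4
  have h2 : (4 * (N : ℝ) ^ 54) ^ 4 = 256 * (N : ℝ) ^ 216 := by ring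
  calc 120000 * (N : ℝ) ^ 18 * (mT N : ℝ) ^ 4 ≤ 120000 * (N : ℝ) ^ 18 * (256 * (N : ℝ) ^ 216) := by
        rw [h2] at h1
        exact mul_le_mul_of_nonneg_left h1 (by positivity)
    _ = 30720000 * (N : ℝ) ^ 234 := by ring
    _ ≤ N * (N : ℝ) ^ 234 := by
        apply mul_le_mul_of_nonneg_right _ (by positivity)
        have : (30720000 : ℝ) ≤ 2 ^ 40 := by norm_num
        linarith
    _ = (N : ℝ) ^ 235 := by ring
    _ ≤ (N : ℝ) ^ 40000 := pow_le_pow_right₀ hN1 (by norm_num)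
    _ ≤ Δ := nΔN hP

/-- small samples -/
noncomputable def E5_P (G : SimpleGraph V) (N Δ : ℕ) (v : V) (Q : ℝ) : Finset (Finset V) :=
  (bl G v (8 * N ^ 3)).powerset.filter (fun s => s.card ≤ ⌊6 * (N ^ 5 * mT N / Δ) * Q⌋₊)

/-- pairs of samples -/
noncomputable def E5_J (G : SimpleGraph V) (N Δ : ℕ) (v : V) (Q : ℝ) : Finset (Finset V × Finset V) :=
  ((E5_P G N Δ v Q) ×ˢ (E5_P G N Δ v Q)).filter (fun q =>
    ((Zs G N q.1).card : ℝ) ≤ 3 * mT N * Q ∧ ((Zs G N q.2).card : ℝ) ≤ 3 * mT N * Q)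

theorem E5_Pc {N : ℕ} (hP : Pm N Δ) (hG : Reg G Δ) (v : V) (Q : ℝ) :
    ((E5_P G N Δ v Q).card : ℝ) ≤
      Real.exp ((⌊6 * (N ^ 5 * mT N / Δ) * Q⌋₊ : ℕ) * (N : ℝ) ^ 4) := by
  have h3 := E5_sub (bl G v (8 * N ^ 3)) ⌊6 * (N ^ 5 * mT N / Δ) * Q⌋₊
  have h5 : ((E5_P G N Δ v Q).card : ℝ) ≤
      ((((bl G v (8 * N ^ 3)).card + 1 : ℕ) : ℝ)) ^ ⌊6 * (N ^ 5 * mT N / Δ) * Q⌋₊ := by
    unfold E5_P
    exact_mod_cast h3
  refine h5.trans ?_
  rw [Real.exp_nat_mul]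
  exact pow_le_pow_left₀ (by positivity) (E5_ball hP hG v) _

theorem E5_Jc {N : ℕ} (hP : Pm N Δ) (hG : Reg G Δ) (v : V) (Q : ℝ) :
    ((E5_J G N Δ v Q).card : ℝ) ≤
      Real.exp (2 * (⌊6 * (N ^ 5 * mT N / Δ) * Q⌋₊ : ℕ) * (N : ℝ) ^ 4) := by
  have h1 := E5_Pc hP hG v Q
  have h2 : (E5_J G N Δ v Q).card ≤ (E5_P G N Δ v Q).card * (E5_P G N Δ v Q).card := by
    unfold E5_J
    refine (card_filter_le _ _).trans ?_
    rw [card_product]
  have h3 : ((E5_J G N Δ v Q).card : ℝ) ≤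
      ((E5_P G N Δ v Q).card : ℝ) * ((E5_P G N Δ v Q).card : ℝ) := by
    exact_mod_cast h2
  refine h3.trans ?_
  calc _ ≤ Real.exp ((⌊6 * (N ^ 5 * mT N / Δ) * Q⌋₊ : ℕ) * (N : ℝ) ^ 4) *
        Real.exp ((⌊6 * (N ^ 5 * mT N / Δ) * Q⌋₊ : ℕ) * (N : ℝ) ^ 4) :=
        mul_le_mul h1 h1 (by positivity) (by positivity)
    _ = _ := by
      rw [← Real.exp_add]
      congr 1
      ring

/-- exponents -/
theorem E5_n2 {N : ℕ} (hP : Pm N Δ) (Q : ℝ) (hQ : (Δ : ℝ) / mT N / 2 ≤ Q) :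
    2 * ((⌊6 * (N ^ 5 * mT N / Δ) * Q⌋₊ : ℕ) : ℝ) * (N : ℝ) ^ 4 +
      -(Q / (5000 * N ^ 2 * mT N ^ 3)) ≤ -(N : ℝ) ^ 7 := by
  have hN := nN hP
  have hN1 := nN1 hP
  have hN0 := nN0 hP
  have hm0 := nmT0 hP
  have hΔ0 := nΔ0 hP
  have hQ0 : 0 < Q := lt_of_lt_of_le (by positivity) hQ
  have hl1 : ((⌊6 * (N ^ 5 * mT N / Δ) * Q⌋₊ : ℕ) : ℝ) ≤ 6 * (N ^ 5 * mT N / Δ) * Q :=
    Nat.floor_le (by positivity)
  generalize ((⌊6 * (N ^ 5 * mT N / Δ) * Q⌋₊ : ℕ) : ℝ) = l at hl1 ⊢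
  have hm1 := E5_n1 hP
  generalize (mT N : ℝ) = m at hm0 hl1 hm1 hQ ⊢
  generalize (N : ℝ) = n at hN hN1 hN0 hl1 hm1 ⊢
  generalize (Δ : ℝ) = D at hΔ0 hl1 hm1 hQ ⊢
  have h2 : 2 * l * n ^ 4 ≤ Q / (10000 * n ^ 2 * m ^ 3) := by
    calc 2 * l * n ^ 4 ≤ 2 * (6 * (n ^ 5 * m / D) * Q) * n ^ 4 := by
          apply mul_le_mul_of_nonneg_right _ (by positivity)
          linarith
      _ = Q * (12 * n ^ 9 * m / D) := by ring
      _ ≤ Q * (1 / (10000 * n ^ 2 * m ^ 3)) := by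
          apply mul_le_mul_of_nonneg_left _ hQ0.le
          rw [div_le_div_iff₀ hΔ0 (by positivity)]
          calc 12 * n ^ 9 * m * (10000 * n ^ 2 * m ^ 3) =
                120000 * n ^ 11 * m ^ 4 := by ring
            _ ≤ 120000 * n ^ 18 * m ^ 4 := by
                apply mul_le_mul_of_nonneg_right _ (by positivity)
                apply mul_le_mul_of_nonneg_left _ (by norm_num)
                exact pow_le_pow_right₀ hN1 (by norm_num)
            _ ≤ 1 * D := by rw [one_mul]; exact hm1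
      _ = _ := by ring
  have h3 : n ^ 7 ≤ Q / (10000 * n ^ 2 * m ^ 3) := by
    rw [le_div_iff₀ (by positivity)]
    have h5 : D ≤ 2 * m * Q := by
      rw [div_div, div_le_iff₀ (by positivity)] at hQ
      linarith
    have h6 : n ^ 9 ≤ n ^ 18 := pow_le_pow_right₀ hN1 (by norm_num)
    have h7 : 120000 * n ^ 9 * m ^ 4 ≤ 2 * m * Q := by
      calc 120000 * n ^ 9 * m ^ 4 ≤ 120000 * n ^ 18 * m ^ 4 := by
            apply mul_le_mul_of_nonneg_right _ (by positivity)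
            apply mul_le_mul_of_nonneg_left h6 (by norm_num)
        _ ≤ D := hm1
        _ ≤ _ := h5
    have h8 : m * (60000 * n ^ 9 * m ^ 3) ≤ m * Q := by
      have : m * (60000 * n ^ 9 * m ^ 3) = (120000 * n ^ 9 * m ^ 4) / 2 := by ring
      rw [this]
      linarith
    have h9 := le_of_mul_le_mul_left h8 hm0
    calc n ^ 7 * (10000 * n ^ 2 * m ^ 3) = 10000 * n ^ 9 * m ^ 3 := by ring
      _ ≤ 60000 * n ^ 9 * m ^ 3 := by
          apply mul_le_mul_of_nonneg_right _ (by positivity)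
          have : (0 : ℝ) < n ^ 9 := by positivity
          linarith
      _ ≤ Q := h9
  have h4 : Q / (5000 * n ^ 2 * m ^ 3) = 2 * (Q / (10000 * n ^ 2 * m ^ 3)) := by
    field_simp
    ring
  rw [h4]
  linarith

/-- one triple -/
theorem E5_in {N : ℕ} (hP : Pm N Δ) (hG : Reg G Δ) (v : V) (t t' : Ty N) (Q : ℝ)
    (hQ : (Δ : ℝ) / mT N / 2 ≤ Q) :
    pr (fun χ : V → Ty N => ∃ q ∈ E5_J G N Δ v Q,
        Bad G N Δ χ t t' Q (Zs G N q.2) (Zs G N q.1)) ≤ 3 * Real.exp (-(N : ℝ) ^ 7) := by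
  have hm0 := nmT0 hP
  have hΔ0 := nΔ0 hP
  have hQ0 : 0 < Q := lt_of_lt_of_le (by positivity) hQ
  have g1 : ∀ q ∈ E5_J G N Δ v Q, pr (fun χ : V → Ty N => Bad G N Δ χ t t' Q (Zs G N q.2) (Zs G N q.1)) ≤
      3 * Real.exp (-(Q / (5000 * N ^ 2 * mT N ^ 3))) := by
    intro q hq
    unfold E5_J at hq
    have g2 := (mem_filter.1 hq).2
    exact e3 hP hG t t' Q hQ0 (Zs G N q.2) (Zs G N q.1) g2.2 g2.1
  have g2 := pr_ex (E5_J G N Δ v Q)
    (fun q (χ : V → Ty N) => Bad G N Δ χ t t' Q (Zs G N q.2) (Zs G N q.1)) _ g1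
  refine g2.trans ?_
  calc _ ≤ Real.exp (2 * (⌊6 * (N ^ 5 * mT N / Δ) * Q⌋₊ : ℕ) * (N : ℝ) ^ 4) *
        (3 * Real.exp (-(Q / (5000 * N ^ 2 * mT N ^ 3)))) :=
        mul_le_mul_of_nonneg_right (E5_Jc hP hG v Q) (by positivity)
    _ = 3 * Real.exp (2 * (⌊6 * (N ^ 5 * mT N / Δ) * Q⌋₊ : ℕ) * (N : ℝ) ^ 4 +
          -(Q / (5000 * N ^ 2 * mT N ^ 3))) := by
        rw [Real.exp_add]
        ring
    _ ≤ 3 * Real.exp (-(N : ℝ) ^ 7) := by
        apply mul_le_mul_of_nonneg_left _ (by norm_num)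
        exact Real.exp_le_exp.2 (E5_n2 hP Q hQ)

/-- the union bound -/
theorem e5 {N : ℕ} (hP : Pm N Δ) (hG : Reg G Δ) (hgap : Gap G N Δ) (v : V) :
    pr (fun χ : V → Ty N => ∃ t t' S S', Vio G N Δ χ v t t' S S') ≤ Real.exp (-(N : ℝ) ^ 6) := by
  have hN := nN hP
  have hN1 := nN1 hP
  have hN0 := nN0 hP
  have hm0 := nmT0 hP
  have hm := nmT hP
  have hΔ0 := nΔ0 hP
  have hΔ1 := nΔ1 hP
  set R : Finset ℕ := (range (2 * Δ ^ 12 + 1)).filter (fun j : ℕ => (Δ : ℝ) / mT N / 2 ≤ (j : ℝ) / 2)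
    with hR
  set J : Finset (Ty N × Ty N × ℕ) := univ ×ˢ univ ×ˢ R with hJ
  have h1 : pr (fun χ : V → Ty N => ∃ t t' S S', Vio G N Δ χ v t t' S S') ≤
      pr (fun χ : V → Ty N => ∃ i ∈ J, ∃ q ∈ E5_J G N Δ v ((i.2.2 : ℝ) / 2),
        Bad G N Δ χ i.1 i.2.1 ((i.2.2 : ℝ) / 2) (Zs G N q.2) (Zs G N q.1)) := by
    apply pr_mono
    rintro χ ⟨t, t', S, S', h⟩
    have g1 := (e1a hP h).2
    obtain ⟨Sg, Sg', b1, b2, b3, b4, b5, b6⟩ := e4 hP hG hgap h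
    have hj : ((S.card + S'.card : ℕ) : ℝ) = (S.card : ℝ) + S'.card := by push_cast; ring
    rw [← hj] at g1 b3 b4 b5 b6
    refine ⟨(t, t', S.card + S'.card), ?_, (Sg, Sg'), ?_, b6⟩
    · rw [hJ, mem_product, mem_product, hR, mem_filter, mem_range]
      refine ⟨mem_univ _, mem_univ _, ?_, g1⟩
      have c1 := h.c1
      have c2 := h.c2
      change S.card + S'.card < 2 * Δ ^ 12 + 1
      omega
    · have d1 : (0 : ℝ) ≤ (Sg.card : ℝ) := Nat.cast_nonneg _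
      have d2 : (0 : ℝ) ≤ (Sg'.card : ℝ) := Nat.cast_nonneg _
      have f1 : Sg ∈ E5_P G N Δ v (((S.card + S'.card : ℕ) : ℝ) / 2) := by
        unfold E5_P
        rw [mem_filter, mem_powerset]
        exact ⟨b1, Nat.le_floor (by linarith)⟩
      have f2 : Sg' ∈ E5_P G N Δ v (((S.card + S'.card : ℕ) : ℝ) / 2) := by
        unfold E5_P
        rw [mem_filter, mem_powerset]
        exact ⟨b2, Nat.le_floor (by linarith)⟩
      unfold E5_J
      exact mem_filter.2 ⟨mem_product.2 ⟨f1, f2⟩, b4, b5⟩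
  refine h1.trans ?_
  refine (pr_ex J _ (3 * Real.exp (-(N : ℝ) ^ 7)) ?_).trans ?_
  · intro i hi
    rw [hJ, mem_product, mem_product, hR, mem_filter] at hi
    exact E5_in hP hG v i.1 i.2.1 ((i.2.2 : ℝ) / 2) hi.2.2.2
  · have h2 : (J.card : ℝ) ≤ mT N * (mT N * (2 * (Δ : ℝ) ^ 12 + 1)) := by
      have h3 : J.card ≤ mT N * (mT N * (2 * Δ ^ 12 + 1)) := by
        rw [hJ, card_product, card_product, card_univ, E5_cT]
        apply Nat.mul_le_mul_left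
        apply Nat.mul_le_mul_left
        rw [hR]
        refine (card_filter_le _ _).trans ?_
        rw [card_range]
      exact_mod_cast h3
    have h3 : (mT N : ℝ) ≤ Δ := by
      have h4 := E5_n1 hP
      have h5 : (mT N : ℝ) ≤ 120000 * (N : ℝ) ^ 18 * (mT N : ℝ) ^ 4 := by
        have e1 : (1 : ℝ) ≤ (mT N : ℝ) := le_trans (one_le_pow₀ hN1) hm.1
        have e2 : (1 : ℝ) ≤ (N : ℝ) ^ 18 := one_le_pow₀ hN1
        have e3 : (mT N : ℝ) ≤ (mT N : ℝ) ^ 4 := le_self_pow₀ e1 (by norm_num)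
        calc (mT N : ℝ) ≤ (mT N : ℝ) ^ 4 := e3
          _ = 1 * 1 * (mT N : ℝ) ^ 4 := by ring
          _ ≤ 120000 * (N : ℝ) ^ 18 * (mT N : ℝ) ^ 4 := by
            apply mul_le_mul_of_nonneg_right _ (by positivity)
            apply mul_le_mul (by norm_num) e2 (by norm_num) (by norm_num)
      linarith
    have h4 : (mT N : ℝ) * (mT N * (2 * (Δ : ℝ) ^ 12 + 1)) * 3 ≤ (Δ : ℝ) ^ 15 := by
      have e1 : (1 : ℝ) ≤ (Δ : ℝ) ^ 12 := one_le_pow₀ hΔ1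
      have e2 : (9 : ℝ) ≤ Δ := by
        have := nΔN hP
        have h2 : (N : ℝ) ≤ (N : ℝ) ^ 40000 := le_self_pow₀ hN1 (by norm_num)
        have h3 : (9 : ℝ) ≤ 2 ^ 40 := by norm_num
        linarith
      calc (mT N : ℝ) * (mT N * (2 * (Δ : ℝ) ^ 12 + 1)) * 3 ≤ Δ * (Δ * (3 * (Δ : ℝ) ^ 12)) * 3 := by
            apply mul_le_mul_of_nonneg_right _ (by norm_num)
            apply mul_le_mul h3 _ (by positivity) hΔ0.le
            apply mul_le_mul h3 (by linarith) (by positivity) hΔ0.le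
        _ = 9 * (Δ : ℝ) ^ 14 := by ring
        _ ≤ Δ * (Δ : ℝ) ^ 14 := mul_le_mul_of_nonneg_right e2 (by positivity)
        _ = _ := by ring
    have h5 : (Δ : ℝ) ^ 15 ≤ Real.exp N := by
      have e1 : (Δ : ℝ) ^ 15 = Real.exp (15 * Real.log Δ) := by
        have : (15 : ℝ) * Real.log Δ = ((15 : ℕ) : ℝ) * Real.log Δ := by norm_num
        rw [this, Real.exp_nat_mul, Real.exp_log hΔ0]
      rw [e1]
      apply Real.exp_le_exp.2
      have := nlogN hP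
      have h6 : (0 : ℝ) ≤ Real.log Δ := Real.log_nonneg hΔ1
      linarith
    calc (J.card : ℝ) * (3 * Real.exp (-(N : ℝ) ^ 7)) ≤
          mT N * (mT N * (2 * (Δ : ℝ) ^ 12 + 1)) * (3 * Real.exp (-(N : ℝ) ^ 7)) :=
          mul_le_mul_of_nonneg_right h2 (by positivity)
      _ = (mT N * (mT N * (2 * (Δ : ℝ) ^ 12 + 1)) * 3) * Real.exp (-(N : ℝ) ^ 7) := by ring
      _ ≤ Real.exp N * Real.exp (-(N : ℝ) ^ 7) :=
          mul_le_mul_of_nonneg_right (h4.trans h5) (by positivity)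
      _ = Real.exp (N + -(N : ℝ) ^ 7) := (Real.exp_add _ _).symm
      _ ≤ _ := by
        apply Real.exp_le_exp.2
        have e1 : (N : ℝ) ≤ (N : ℝ) ^ 6 := le_self_pow₀ hN1 (by norm_num)
        have e2 : (2 : ℝ) * (N : ℝ) ^ 6 ≤ (N : ℝ) ^ 7 := by
          have : (N : ℝ) ^ 7 = N * (N : ℝ) ^ 6 := by ring
          rw [this]
          apply mul_le_mul_of_nonneg_right _ (by positivity)
          have h3 : (2 : ℝ) ≤ 2 ^ 40 := by norm_num
          linarith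
        linarith

end Pool.Agent.H2.LN.HH
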