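/-
ROW Edg. Degrees into the types.
PROOF. `m = mT N = card (Ty N)`. For fixed `t`: `ber` (`H12/LN/Tools.lean`) with `J = univ.filter (G.Adj v ·)` (`card = Δ` by `hG`), `A u = (χ u = t)`, `S u = {u}`, `w = 1`, `W = 1`: `pr (A u) = 1 / m` (`pr_coord` in `H65/GI/Tri` or `pr_co` in `H65/GI/Law`), `V = Δ / m`, `tt = Δ / m / N ^ 9`: probability of deviation `≥ tt` is `≤ 2 exp (-(tt ^ 2 / (4 (V + tt)))) ≤ 2 exp (-(Δ / m) / (8 N ^ 18))`. `Δ / m ≥ N ^ 40000 / (4 N ^ 54)`, so this is `≤ 2 exp (-2 N ^ 6)`; union over `m ≤ 4 N ^ 54` types (`pr_ex` in `H65/GI/Cnd`): `8 N ^ 54 exp (-2 N ^ 6) ≤ exp (-N ^ 6)`. (`nmT, nΔN, nN` in `H64/LN/Bnm`.) The event `¬ dgo` is: some `t` with deviation `>` the bound. `∑ u ∈ J, if χ u = t then 1 else 0` is the card of the filter.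
-/
import Pool.Agent.H2.LN.HD
import Pool.Agent.H65.GI.Tri

set_option autoImplicit false
set_option linter.unusedSectionVars false

namespace Pool.Agent.H2.LN.HH

open Finset Classical
open Pool.Agent.H65.GI Pool.Agent.H64.LN

variable {V T : Type} [Fintype V] [Fintype T] [Nonempty T]
variable {G : SimpleGraph V} {Δ : ℕ}

theorem Edg_card (N : ℕ) : Fintype.card (Ty N) = mT N := by
  have h : Fintype.card ((Fin (k0 N) → ZMod 2) × ZMod (N ^ 4 + 1)) = 2 ^ k0 N * (N ^ 4 + 1) := by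
    rw [Fintype.card_prod, Fintype.card_fun, ZMod.card, ZMod.card, Fintype.card_fin]
  exact h

theorem Edg_big {N : ℕ} (hP : Pm N Δ) : 72 * (N : ℝ) ^ 72 ≤ (Δ : ℝ) / mT N := by
  have hN := nN hP
  have hN1 := nN1 hP
  have hN0 := nN0 hP
  have hm := nmT hP
  rw [le_div_iff₀ (nmT0 hP)]
  have h288 : (288 : ℝ) ≤ N := le_trans (by norm_num) hN
  calc 72 * (N : ℝ) ^ 72 * mT N ≤ 72 * (N : ℝ) ^ 72 * (4 * (N : ℝ) ^ 54) :=
        mul_le_mul_of_nonneg_left hm.2 (by positivity)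
    _ = 288 * (N : ℝ) ^ 126 := by ring
    _ ≤ (N : ℝ) * (N : ℝ) ^ 126 := mul_le_mul_of_nonneg_right h288 (by positivity)
    _ = (N : ℝ) ^ 127 := by ring
    _ ≤ (N : ℝ) ^ 40000 := pow_le_pow_right₀ hN1 (by norm_num)
    _ ≤ Δ := nΔN hP

theorem Edg_exp {N : ℕ} (hP : Pm N Δ) : (N : ℝ) ^ 6 + 8 * (N : ℝ) ^ 54 ≤
    ((Δ : ℝ) / mT N / (N : ℝ) ^ 9) ^ 2 / (4 * ((Δ : ℝ) / mT N + 1 * ((Δ : ℝ) / mT N / (N : ℝ) ^ 9))) := by
  have hN1 := nN1 hP
  have hN0 := nN0 hP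
  have hb := Edg_big hP
  obtain ⟨R, hR⟩ : ∃ R : ℝ, R = (Δ : ℝ) / mT N := ⟨_, rfl⟩
  rw [← hR] at hb ⊢
  have hR0 : 0 < R := lt_of_lt_of_le (by positivity) hb
  have h9 : (1 : ℝ) ≤ (N : ℝ) ^ 9 := one_le_pow₀ hN1
  have h9' : R / (N : ℝ) ^ 9 ≤ R := div_le_self hR0.le h9
  have hden : 0 < 4 * (R + 1 * (R / (N : ℝ) ^ 9)) := by positivity
  have h6 : (N : ℝ) ^ 6 ≤ (N : ℝ) ^ 54 := pow_le_pow_right₀ hN1 (by norm_num)
  have h2 : (N : ℝ) ^ 6 + 8 * (N : ℝ) ^ 54 ≤ R / (8 * (N : ℝ) ^ 18) := by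
    rw [le_div_iff₀ (by positivity)]
    calc ((N : ℝ) ^ 6 + 8 * (N : ℝ) ^ 54) * (8 * (N : ℝ) ^ 18)
        ≤ (9 * (N : ℝ) ^ 54) * (8 * (N : ℝ) ^ 18) :=
          mul_le_mul_of_nonneg_right (by linarith) (by positivity)
      _ = 72 * (N : ℝ) ^ 72 := by ring
      _ ≤ R := hb
  refine h2.trans ?_
  have h3 : R / (8 * (N : ℝ) ^ 18) = (R / (N : ℝ) ^ 9) ^ 2 / (8 * R) := by
    field_simp
  rw [h3]
  exact div_le_div_of_nonneg_left (by positivity) hden (by linarith)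

theorem e_dg {N : ℕ} (hP : Pm N Δ) (hG : Reg G Δ) (v : V) :
    pr (fun χ : V → Ty N => ¬ dgo G N Δ χ v) ≤ Real.exp (-(N : ℝ) ^ 6) := by
  have hN1 := nN1 hP
  have hN0 := nN0 hP
  have hΔ0 := nΔ0 hP
  have hm0 := nmT0 hP
  have hE := Edg_exp hP
  have hpr : ∀ (u : V) (t : Ty N), pr (fun χ : V → Ty N => χ u = t) = 1 / (mT N : ℝ) := by
    intro u t
    rw [pr_coord u (fun x => x = t)]
    unfold pr
    rw [Edg_card]
    have h2 : ∀ s : Finset (Ty N), (∀ x, x ∈ s ↔ x = t) → (s.card : ℝ) = 1 := fun s hs => by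
      have h3 : s.card = 1 := card_eq_one.2 ⟨t, by ext x; rw [hs, mem_singleton]⟩
      rw [h3, Nat.cast_one]
    refine congrArg (fun k : ℝ => k / (mT N : ℝ)) (h2 _ fun x => ?_)
    simp only [mem_filter, mem_univ, true_and]
  have hJ : ((univ.filter (fun u => G.Adj v u)).card : ℝ) = Δ := by exact_mod_cast hG v
  have key : ∀ t ∈ (univ : Finset (Ty N)), pr (fun χ : V → Ty N => (Δ : ℝ) / mT N / (N : ℝ) ^ 9 <
      |((univ.filter (fun u => G.Adj v u ∧ χ u = t)).card : ℝ) - (Δ : ℝ) / mT N|) ≤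
      2 * Real.exp (-((N : ℝ) ^ 6 + 8 * (N : ℝ) ^ 54)) := by
    intro t _
    have h := Pool.Agent.H12.LN.ber (I := V) (κ := Ty N) (univ.filter (fun u => G.Adj v u))
      (fun u (χ : V → Ty N) => χ u = t) (fun u => {u})
      (fun u _ ω ω' hω => by
        have h1 : ω u = ω' u := hω u (mem_singleton_self u)
        simp only [h1])
      (fun u _ u' _ hne => by rwa [Finset.disjoint_singleton])
      (fun _ => 1) 1 ((Δ : ℝ) / mT N) ((Δ : ℝ) / mT N / (N : ℝ) ^ 9)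
      (fun _ _ => ⟨zero_le_one, le_rfl⟩) (by
        simp only [hpr]
        rw [sum_const, nsmul_eq_mul, hJ]
        exact le_of_eq (by ring)) zero_le_one (by positivity)
    refine le_trans (pr_mono ?_) (h.trans ?_)
    · intro χ hχ
      refine le_trans (le_of_lt hχ) (le_of_eq ?_)
      congr 2
      · rw [← filter_filter, card_eq_sum_ones, Nat.cast_sum, sum_filter]
        refine sum_congr rfl fun u _ => ?_
        split_ifs <;> norm_num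
      · simp only [hpr]
        rw [sum_const, nsmul_eq_mul, hJ]
        ring
    · refine mul_le_mul_of_nonneg_left (Real.exp_le_exp.2 ?_) (by norm_num)
      linarith
  have hu := pr_ex (univ : Finset (Ty N)) (fun t (χ : V → Ty N) => (Δ : ℝ) / mT N / (N : ℝ) ^ 9 <
      |((univ.filter (fun u => G.Adj v u ∧ χ u = t)).card : ℝ) - (Δ : ℝ) / mT N|) _ key
  refine le_trans (pr_mono ?_) (hu.trans ?_)
  · intro χ hχ
    unfold dgo at hχ
    push Not at hχ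
    obtain ⟨t, ht⟩ := hχ
    exact ⟨t, mem_univ _, ht⟩
  · rw [card_univ, Edg_card]
    have h1 : (mT N : ℝ) * 2 ≤ 8 * (N : ℝ) ^ 54 := by linarith [(nmT hP).2]
    have h2 : 8 * (N : ℝ) ^ 54 * Real.exp (-(8 * (N : ℝ) ^ 54)) ≤ 1 := by
      rw [Real.exp_neg, ← div_eq_mul_inv, div_le_one (Real.exp_pos _)]
      linarith [Real.add_one_le_exp (8 * (N : ℝ) ^ 54)]
    have h3 : Real.exp (-((N : ℝ) ^ 6 + 8 * (N : ℝ) ^ 54)) =
        Real.exp (-(N : ℝ) ^ 6) * Real.exp (-(8 * (N : ℝ) ^ 54)) := by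
      rw [← Real.exp_add]
      congr 1
      ring
    rw [h3]
    have h4 := Real.exp_pos (-(N : ℝ) ^ 6)
    have h5 := Real.exp_pos (-(8 * (N : ℝ) ^ 54))
    calc (mT N : ℝ) * (2 * (Real.exp (-(N : ℝ) ^ 6) * Real.exp (-(8 * (N : ℝ) ^ 54))))
        = ((mT N : ℝ) * 2) * Real.exp (-(8 * (N : ℝ) ^ 54)) * Real.exp (-(N : ℝ) ^ 6) := by ring
      _ ≤ (8 * (N : ℝ) ^ 54) * Real.exp (-(8 * (N : ℝ) ^ 54)) * Real.exp (-(N : ℝ) ^ 6) := by
          gcongr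
      _ ≤ 1 * Real.exp (-(N : ℝ) ^ 6) := by gcongr
      _ = _ := one_mul _

end Pool.Agent.H2.LN.HH
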