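/-
ROW He. Averages over one coordinate.
PROOF. `Ea a F χ = (∑ t, F (update χ a t)) / card T`; `Da a F = F - Ea a F`. All by `funext χ` and `Finset.sum_add_distrib, Finset.mul_sum, Finset.sum_comm, Finset.sum_div`. `Ea_up`: `Function.update_idem`. `Ea_of`: sum of a constant (`card T ≠ 0`). `Ea_Ea`: `Ea_of` with `Ea_up`. `Ea_cm`: trivial for `a = b`, otherwise `Function.update_comm` and `Finset.sum_comm`. `Da_cm`, `ED_cm`, `Ea_Da`, `Da_Da`: expand with `Ea_lin` (`c = -1`) and `Ea_cm`, `Ea_Ea`. `Ea_mul`: `G (update χ a t) = G χ`, `Finset.sum_mul`.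
-/
import Pool.Agent.H2.LN.HD

set_option autoImplicit false
set_option linter.unusedSectionVars false

namespace Pool.Agent.H2.LN.HH

open Finset Classical
open Pool.Agent.H65.GI Pool.Agent.H64.LN

variable {V T : Type} [Fintype V] [Fintype T] [Nonempty T]

private theorem He_card : (Fintype.card T : ℝ) ≠ 0 := Nat.cast_ne_zero.2 Fintype.card_ne_zero

theorem Ea_lin (a : V) (c : ℝ) (F G : Fn V T) :
    Ea a (fun χ => F χ + c * G χ) = fun χ => Ea a F χ + c * Ea a G χ := by
  funext χ
  show (∑ t, (F (Function.update χ a t) + c * G (Function.update χ a t))) / (Fintype.card T : ℝ) =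
    (∑ t, F (Function.update χ a t)) / (Fintype.card T : ℝ) + c * ((∑ t, G (Function.update χ a t)) / (Fintype.card T : ℝ))
  rw [Finset.sum_add_distrib, ← Finset.mul_sum]
  ring

theorem Ea_sum {ι : Type} (a : V) (J : Finset ι) (F : ι → Fn V T) :
    Ea a (fun χ => ∑ i ∈ J, F i χ) = fun χ => ∑ i ∈ J, Ea a (F i) χ := by
  funext χ
  show (∑ t, ∑ i ∈ J, F i (Function.update χ a t)) / (Fintype.card T : ℝ) =
    ∑ i ∈ J, (∑ t, F i (Function.update χ a t)) / (Fintype.card T : ℝ)
  rw [Finset.sum_comm, Finset.sum_div]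

theorem Da_lin (a : V) (c : ℝ) (F G : Fn V T) :
    Da a (fun χ => F χ + c * G χ) = fun χ => Da a F χ + c * Da a G χ := by
  funext χ
  have h := congrFun (Ea_lin a c F G) χ
  show (F χ + c * G χ) - Ea a (fun χ => F χ + c * G χ) χ = (F χ - Ea a F χ) + c * (G χ - Ea a G χ)
  rw [h]
  ring

theorem Da_sum {ι : Type} (a : V) (J : Finset ι) (F : ι → Fn V T) :
    Da a (fun χ => ∑ i ∈ J, F i χ) = fun χ => ∑ i ∈ J, Da a (F i) χ := by
  funext χ
  have h := congrFun (Ea_sum a J F) χ
  show (∑ i ∈ J, F i χ) - Ea a (fun χ => ∑ i ∈ J, F i χ) χ = ∑ i ∈ J, (F i χ - Ea a (F i) χ)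
  rw [h, Finset.sum_sub_distrib]

theorem Ea_up (a : V) (F : Fn V T) (χ : V → T) (t : T) : Ea a F (Function.update χ a t) = Ea a F χ := by
  show (∑ t', F (Function.update (Function.update χ a t) a t')) / (Fintype.card T : ℝ) =
    (∑ t', F (Function.update χ a t')) / (Fintype.card T : ℝ)
  simp only [Function.update_idem]

/-- if `F` does not depend on the type of `a` -/
theorem Ea_of (a : V) (F : Fn V T) (h : ∀ χ t, F (Function.update χ a t) = F χ) : Ea a F = F := by
  funext χ
  show (∑ t, F (Function.update χ a t)) / (Fintype.card T : ℝ) = F χ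
  rw [Finset.sum_congr rfl fun t _ => h χ t, Finset.sum_const, Finset.card_univ, nsmul_eq_mul,
    mul_div_assoc, mul_comm, div_mul_cancel₀ _ He_card]

theorem Da_of (a : V) (F : Fn V T) (h : ∀ χ t, F (Function.update χ a t) = F χ) :
    Da a F = fun _ => 0 := by
  funext χ
  show F χ - Ea a F χ = 0
  rw [Ea_of a F h, sub_self]

theorem Ea_Ea (a : V) (F : Fn V T) : Ea a (Ea a F) = Ea a F :=
  Ea_of a (Ea a F) fun χ t => Ea_up a F χ t

private theorem He_ED (a b : V) (F : Fn V T) (χ : V → T) : Ea a (Da b F) χ = Ea a F χ - Ea a (Ea b F) χ := by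
  have h := congrFun (Ea_lin a (-1) F (Ea b F)) χ
  have h1 : Da b F = fun χ => F χ + (-1) * Ea b F χ := by
    funext χ
    show F χ - Ea b F χ = F χ + (-1) * Ea b F χ
    ring
  rw [h1, h]
  ring

theorem Ea_Da (a : V) (F : Fn V T) : Ea a (Da a F) = fun _ => 0 := by
  funext χ
  rw [He_ED, Ea_Ea, sub_self]

theorem Da_Da (a : V) (F : Fn V T) : Da a (Da a F) = Da a F := by
  funext χ
  show Da a F χ - Ea a (Da a F) χ = Da a F χ
  rw [Ea_Da, sub_zero]

theorem Ea_cm (a b : V) (F : Fn V T) : Ea a (Ea b F) = Ea b (Ea a F) := by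
  by_cases hab : a = b
  · rw [hab]
  funext χ
  show (∑ t, (∑ t', F (Function.update (Function.update χ a t) b t')) / (Fintype.card T : ℝ)) / (Fintype.card T : ℝ) =
    (∑ t', (∑ t, F (Function.update (Function.update χ b t') a t)) / (Fintype.card T : ℝ)) / (Fintype.card T : ℝ)
  rw [← Finset.sum_div, ← Finset.sum_div, Finset.sum_comm]
  congr 2
  refine Finset.sum_congr rfl fun t' _ => Finset.sum_congr rfl fun t _ => ?_
  rw [Function.update_comm hab]

theorem Da_cm (a b : V) (F : Fn V T) : Da a (Da b F) = Da b (Da a F) := by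
  funext χ
  show (F χ - Ea b F χ) - Ea a (Da b F) χ = (F χ - Ea a F χ) - Ea b (Da a F) χ
  rw [He_ED, He_ED, Ea_cm a b]
  ring

theorem ED_cm (a b : V) (F : Fn V T) : Ea a (Da b F) = Da b (Ea a F) := by
  funext χ
  show Ea a (Da b F) χ = Ea a F χ - Ea b (Ea a F) χ
  rw [He_ED, Ea_cm a b]

/-- multiplication with a function that does not depend on `a` -/
theorem Ea_mul (a : V) (F G : Fn V T) (h : ∀ χ t, G (Function.update χ a t) = G χ) :
    Ea a (fun χ => F χ * G χ) = fun χ => Ea a F χ * G χ := by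
  funext χ
  show (∑ t, F (Function.update χ a t) * G (Function.update χ a t)) / (Fintype.card T : ℝ) =
    (∑ t, F (Function.update χ a t)) / (Fintype.card T : ℝ) * G χ
  rw [Finset.sum_congr rfl fun t _ => by rw [h χ t], ← Finset.sum_mul]
  ring

end Pool.Agent.H2.LN.HH
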