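import Pool.Agent.H2.LN.HD
import Pool.Agent.H2.LN.H.He

set_option autoImplicit false
set_option linter.unusedSectionVars false

namespace Pool.Agent.H2.LN.HH

open Finset Classical
open Pool.Agent.H65.GI Pool.Agent.H64.LN

variable {V T : Type} [Fintype V] [Fintype T] [Nonempty T]

theorem Dg_of {S : Finset V} {F : Fn V T} {d : ℕ} (h : S.card ≤ d) (hF : Loc F S) : Dg d F :=
  Submodule.subset_span ⟨S, h, hF⟩

theorem Dg_mono {d d' : ℕ} (h : d ≤ d') {F : Fn V T} (hF : Dg d F) : Dg d' F := by
  refine Submodule.span_mono ?_ hF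
  rintro f ⟨S, hS, hf⟩
  exact ⟨S, hS.trans h, hf⟩

theorem Dg_lin {d : ℕ} {F G : Fn V T} (hF : Dg d F) (hG : Dg d G) (a b : ℝ) :
    Dg d (fun χ => a * F χ + b * G χ) :=
  Submodule.add_mem _ (Submodule.smul_mem _ a hF) (Submodule.smul_mem _ b hG)

theorem Dg_sum {ι : Type} {d : ℕ} (J : Finset ι) (F : ι → Fn V T) (h : ∀ i ∈ J, Dg d (F i)) :
    Dg d (fun χ => ∑ i ∈ J, F i χ) := by
  have h1 : (fun χ => ∑ i ∈ J, F i χ) = ∑ i ∈ J, F i := by
    funext χ
    rw [Finset.sum_apply]
  rw [h1]
  exact Submodule.sum_mem _ h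

/-- a linear operation that maps local functions into the span -/
theorem Hd_map {d d' : ℕ} (Φ : Fn V T → Fn V T)
    (hadd : ∀ F G, Φ (F + G) = Φ F + Φ G) (hsmul : ∀ (c : ℝ) F, Φ (c • F) = c • Φ F)
    (h : ∀ (S : Finset V) (f : Fn V T), S.card ≤ d → Loc f S → Dg d' (Φ f)) {F : Fn V T}
    (hF : Dg d F) : Dg d' (Φ F) := by
  let L : Fn V T →ₗ[ℝ] Fn V T := { toFun := Φ, map_add' := hadd, map_smul' := hsmul }
  have h1 : Submodule.span ℝ {f : Fn V T | ∃ S : Finset V, S.card ≤ d ∧ Loc f S} ≤
      (Submodule.span ℝ {f : Fn V T | ∃ S : Finset V, S.card ≤ d' ∧ Loc f S}).comap L := by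
    rw [Submodule.span_le]
    rintro f ⟨S, hS, hf⟩
    exact h S f hS hf
  exact h1 hF

theorem Dg_mul {d d' : ℕ} {F G : Fn V T} (hF : Dg d F) (hG : Dg d' G) :
    Dg (d + d') (fun χ => F χ * G χ) := by
  have h1 : ∀ (S : Finset V) (f : Fn V T), S.card ≤ d → Loc f S → Dg (d + d') (fun χ => f χ * G χ) := by
    intro S f hS hf
    refine Hd_map (d := d') (fun g χ => f χ * g χ) ?_ ?_ ?_ hG
    · intro g g'
      funext χ
      simp only [Pi.add_apply]
      ring
    · intro c g
      funext χ
      simp only [Pi.smul_apply, smul_eq_mul]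
      ring
    · intro S' g hS' hg
      refine Dg_of (S := S ∪ S') ((card_union_le _ _).trans (Nat.add_le_add hS hS')) ?_
      intro ω ω' h
      show f ω * g ω = f ω' * g ω'
      rw [hf ω ω' (fun i hi => h i (mem_union_left _ hi)),
        hg ω ω' (fun i hi => h i (mem_union_right _ hi))]
  refine Hd_map (d := d) (fun f χ => f χ * G χ) ?_ ?_ h1 hF
  · intro g g'
    funext χ
    simp only [Pi.add_apply]
    ring
  · intro c g
    funext χ
    simp only [Pi.smul_apply, smul_eq_mul]
    ring

theorem Hd_up {S : Finset V} {f : Fn V T} (hf : Loc f S) (a : V) (t : T) :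
    Loc (fun χ => f (Function.update χ a t)) S := by
  intro ω ω' h
  refine hf _ _ ?_
  intro i hi
  by_cases hia : i = a
  · subst hia
    simp
  · rw [Function.update_of_ne hia, Function.update_of_ne hia, h i hi]

theorem Dg_Ea {d : ℕ} {F : Fn V T} (hF : Dg d F) (a : V) : Dg d (Ea a F) := by
  refine Hd_map (d := d) (Ea a) ?_ ?_ ?_ hF
  · intro g g'
    funext χ
    simp only [Ea, Pi.add_apply, Finset.sum_add_distrib, add_div]
  · intro c g
    funext χ
    simp only [Ea, Pi.smul_apply, smul_eq_mul, ← Finset.mul_sum, mul_div_assoc]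
  · intro S f hS hf
    refine Dg_of hS ?_
    intro ω ω' h
    show (∑ t, f (Function.update ω a t)) / (Fintype.card T : ℝ) =
      (∑ t, f (Function.update ω' a t)) / (Fintype.card T : ℝ)
    congr 1
    exact Finset.sum_congr rfl (fun t _ => Hd_up hf a t ω ω' h)

theorem Dg_Da {d : ℕ} {F : Fn V T} (hF : Dg d F) (a : V) : Dg d (Da a F) := by
  have h := Dg_lin hF (Dg_Ea hF a) 1 (-1)
  have h1 : (fun χ => 1 * F χ + -1 * Ea a F χ) = Da a F := by
    funext χ
    unfold Da
    ring
  rwa [h1] at h

theorem Dg_sb {d : ℕ} {F : Fn V T} (hF : Dg d F) (a : V) (t : T) : Dg d (sb a t F) := by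
  refine Hd_map (d := d) (sb a t) ?_ ?_ ?_ hF
  · intro g g'
    rfl
  · intro c g
    rfl
  · intro S f hS hf
    exact Dg_of hS (Hd_up hf a t)

/-- the slices of `D_a F` have smaller degree -/
theorem Dg_dn {d : ℕ} {F : Fn V T} (hF : Dg (d + 1) F) (a : V) (t : T) : Dg d (sb a t (Da a F)) := by
  refine Hd_map (d := d + 1) (fun F => sb a t (Da a F)) ?_ ?_ ?_ hF
  · intro g g'
    funext χ
    simp only [sb, Da, Ea, Pi.add_apply, Finset.sum_add_distrib, add_div]
    ring
  · intro c g
    funext χ
    simp only [sb, Da, Ea, Pi.smul_apply, smul_eq_mul, ← Finset.mul_sum, mul_div_assoc]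
    ring
  · intro S f hS hf
    by_cases ha : a ∈ S
    · refine Dg_of (S := S.erase a) ?_ ?_
      · rw [card_erase_of_mem ha]
        omega
      · intro ω ω' h
        have h1 : ∀ s : T, f (Function.update ω a s) = f (Function.update ω' a s) := by
          intro s
          refine hf _ _ ?_
          intro i hi
          by_cases hia : i = a
          · subst hia
            simp
          · rw [Function.update_of_ne hia, Function.update_of_ne hia]
            exact h i (mem_erase.2 ⟨hia, hi⟩)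
        simp only [sb, Da, Ea, Function.update_idem, h1]
    · have h0 : Da a f = fun _ => 0 := by
        refine Da_of a f ?_
        intro χ s
        refine hf _ _ ?_
        intro i hi
        have hia : i ≠ a := fun h => ha (h ▸ hi)
        rw [Function.update_of_ne hia]
      show Dg d (sb a t (Da a f))
      rw [h0]
      exact Submodule.zero_mem _

/-- functions of degree 0 are constant -/
theorem Dg_0 {F : Fn V T} (hF : Dg 0 F) (χ χ' : V → T) : F χ = F χ' := by
  have h : F ∈ Submodule.span ℝ {f : Fn V T | ∃ S : Finset V, S.card ≤ 0 ∧ Loc f S} := hF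
  induction h using Submodule.span_induction with
  | mem f hf =>
    obtain ⟨S, hS, hf⟩ := hf
    have h0 : S = ∅ := card_eq_zero.1 (Nat.le_zero.1 hS)
    subst h0
    exact hf _ _ (fun i hi => absurd hi (notMem_empty i))
  | zero => rfl
  | add f g hf hg h1 h2 =>
    show f χ + g χ = f χ' + g χ'
    rw [h1 hf, h2 hg]
  | smul c f hf h1 =>
    show c * f χ = c * f χ'
    rw [h1 hf]

end Pool.Agent.H2.LN.HH
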