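/-
ROW Hf. Influences.
PROOF. `eff`: claim for all finite sets `U` of coordinates, for all `d` and `F` with `Dg d F`: `∑ a ∈ U, nm (Da a F) ^ 2 ≤ d * nm F ^ 2`. Induction on `U`; step `insert b U`. If `d = 0`: `F` is constant (`Dg_0`), all `Da a F = 0` (`Da_of`). `d = d' + 1`: for `a ∈ U` (so `a ≠ b`): `nm (Da a F) ^ 2 = nm (Ea b (Da a F)) ^ 2 + nm (Da b (Da a F)) ^ 2 = nm (Da a (Ea b F)) ^ 2 + nm (Da a (Da b F)) ^ 2` (`pyth`, `ED_cm`, `Da_cm`).
`∑ a ∈ U, nm (Da a (Ea b F)) ^ 2 ≤ d nm (Ea b F) ^ 2` (IH, `Dg_Ea`). `nm (Da a (Da b F)) ^ 2 = (1 / m) ∑ t, nm (sb b t (Da a (Da b F))) ^ 2 = (1 / m) ∑ t, nm (Da a (sb b t (Da b F))) ^ 2` (`nm_sq`, `ex_sb`, `sb_Da`), and `sb b t (Da b F)` has degree `≤ d'` (`Dg_dn`): by IH `∑ a ∈ U, nm (Da a (Da b F)) ^ 2 ≤ d' (1 / m) ∑ t, nm (sb b t (Da b F)) ^ 2 = d' nm (Da b F) ^ 2`. Total `≤ d nm (Ea b F) ^ 2 + d' nm (Da b F) ^ 2 + nm (Da b F) ^ 2 = d nm F ^ 2` (`pyth`).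
`cov`: claim for all finite sets `U`, all `F, G` with `Loc F U`: `|ex (F G) - ex F * ex G| ≤ ∑ a ∈ U, nm (Da a F) * nm (Da a G)`. `U = ∅`: `F` is constant. Step `insert b U`: `F = Ea b F + Da b F`; `Ea b F` is local to `U`; `ex (Da b F * G) = ex (Da b (Da b F) * G) = ex (Da b F * Da b G)` (`Da_Da`, `ex_sd`), bounded by `cs`; IH for `Ea b F` with `ex (Ea b F) = ex F` and `nm (Da a (Ea b F)) = nm (Ea b (Da a F)) ≤ nm (Da a F)`. Apply with `U = univ`.
-/
import Pool.Agent.H2.LN.HD
import Pool.Agent.H2.LN.H.Hx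
import Pool.Agent.H2.LN.H.Hd

set_option autoImplicit false
set_option linter.unusedSectionVars false

namespace Pool.Agent.H2.LN.HH

open Finset Classical
open Pool.Agent.H65.GI Pool.Agent.H64.LN

variable {V T : Type} [Fintype V] [Fintype T] [Nonempty T]

theorem Hf_slice (b : V) (F : Fn V T) :
    nm F ^ 2 = (∑ t, nm (sb b t F) ^ 2) / Fintype.card T := by
  rw [nm_sq, ex_sb b (fun χ => F χ ^ 2)]
  congr 1
  refine sum_congr rfl fun t _ => ?_
  rw [nm_sq]
  rfl

theorem Hf_nm0 : nm (fun _ : V → T => (0 : ℝ)) = 0 := by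
  have h := nm_smul 0 (fun _ : V → T => (0 : ℝ))
  simpa using h

theorem Hf_eff (U : Finset V) : ∀ (d : ℕ) (F : Fn V T), Dg d F →
    ∑ a ∈ U, nm (Da a F) ^ 2 ≤ d * nm F ^ 2 := by
  induction U using Finset.induction_on with
  | empty =>
    intro d F _
    rw [sum_empty]
    exact mul_nonneg (Nat.cast_nonneg _) (sq_nonneg _)
  | insert b U hb ih =>
    intro d F hF
    rcases d with _ | d
    · have h0 : ∀ a, Da a F = fun _ => 0 := fun a => Da_of a F (fun χ t => Dg_0 hF _ _)
      have h1 : ∑ a ∈ insert b U, nm (Da a F) ^ 2 = 0 := by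
        refine sum_eq_zero fun a _ => ?_
        rw [h0 a, Hf_nm0]
        norm_num
      rw [h1]
      exact mul_nonneg (Nat.cast_nonneg _) (sq_nonneg _)
    · rw [sum_insert hb]
      have hT : (0 : ℝ) < Fintype.card T := by exact_mod_cast Fintype.card_pos
      have h1 : ∀ a, nm (Da a F) ^ 2 = nm (Da a (Ea b F)) ^ 2 + nm (Da a (Da b F)) ^ 2 := by
        intro a
        rw [pyth b (Da a F), ED_cm b a F, Da_cm b a F]
      rw [sum_congr rfl fun a _ => h1 a, sum_add_distrib]
      have h2 := ih (d + 1) (Ea b F) (Dg_Ea hF b)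
      have h3 : ∑ a ∈ U, nm (Da a (Da b F)) ^ 2 ≤ d * nm (Da b F) ^ 2 := by
        have e1 : ∀ a ∈ U, nm (Da a (Da b F)) ^ 2 =
            (∑ t, nm (Da a (sb b t (Da b F))) ^ 2) / Fintype.card T := by
          intro a ha
          have hab : b ≠ a := fun h => hb (h ▸ ha)
          rw [Hf_slice b (Da a (Da b F))]
          congr 1
          refine sum_congr rfl fun t _ => ?_
          rw [sb_Da b a hab t (Da b F)]
        rw [sum_congr rfl e1, ← sum_div, sum_comm, Hf_slice b (Da b F), mul_div_assoc', mul_sum]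
        refine div_le_div_of_nonneg_right ?_ hT.le
        exact sum_le_sum fun t _ => ih d _ (Dg_dn hF b t)
      have h4 := pyth b F
      push_cast at h2 ⊢
      nlinarith [h2, h3, h4]

theorem eff {d : ℕ} {F : Fn V T} (hF : Dg d F) : ∑ a, nm (Da a F) ^ 2 ≤ d * nm F ^ 2 :=
  Hf_eff univ d F hF

theorem Hf_cov (U : Finset V) : ∀ (F G : Fn V T), Loc F U →
    |ex (fun χ => F χ * G χ) - ex F * ex G| ≤ ∑ a ∈ U, nm (Da a F) * nm (Da a G) := by
  induction U using Finset.induction_on with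
  | empty =>
    intro F G hF
    obtain ⟨χ0⟩ : Nonempty (V → T) := inferInstance
    have h0 : F = fun _ => F χ0 := by
      funext χ
      exact hF χ χ0 (fun i hi => absurd hi (notMem_empty i))
    rw [h0, ex_smul, ex_const, sub_self, abs_zero, sum_empty]
  | insert b U hb ih =>
    intro F G hF
    rw [sum_insert hb]
    have hloc : Loc (Ea b F) U := by
      intro ω ω' h
      unfold Ea
      congr 1
      refine sum_congr rfl fun t _ => ?_
      refine hF _ _ fun i hi => ?_
      by_cases hib : i = b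
      · subst hib
        rw [Function.update_self, Function.update_self]
      · rw [Function.update_of_ne hib, Function.update_of_ne hib]
        exact h i ((mem_insert.1 hi).resolve_left hib)
    have h1 := ih (Ea b F) G hloc
    rw [ex_Ea] at h1
    have h2 : ex (fun χ => F χ * G χ) = ex (fun χ => Ea b F χ * G χ) + ex (fun χ => Da b F χ * Da b G χ) := by
      have e : ex (fun χ => Da b F χ * G χ) = ex (fun χ => Da b F χ * Da b G χ) := by
        have h := ex_sd b (Da b F) G
        rw [Da_Da] at h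
        exact h
      rw [← e, ← ex_add]
      congr 1
      funext χ
      unfold Da
      ring
    have h3 := cs (Da b F) (Da b G)
    have h4 : ∑ a ∈ U, nm (Da a (Ea b F)) * nm (Da a G) ≤ ∑ a ∈ U, nm (Da a F) * nm (Da a G) := by
      refine sum_le_sum fun a _ => ?_
      refine mul_le_mul_of_nonneg_right ?_ (nm_nn _)
      rw [← ED_cm b a F]
      exact nm_Ea b (Da a F)
    have h5 : ex (fun χ => F χ * G χ) - ex F * ex G =
        (ex (fun χ => Ea b F χ * G χ) - ex F * ex G) + ex (fun χ => Da b F χ * Da b G χ) := by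
      rw [h2]
      ring
    rw [h5]
    refine (abs_add_le _ _).trans ?_
    linarith

theorem cov (F G : Fn V T) (h : ex F = 0) :
    |ex (fun χ => F χ * G χ)| ≤ ∑ a, nm (Da a F) * nm (Da a G) := by
  have h1 := Hf_cov univ F G (fun ω ω' h => congrArg F (funext fun i => h i (mem_univ i)))
  rw [h, zero_mul, sub_zero] at h1
  exact h1

end Pool.Agent.H2.LN.HH
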