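/-
ROW Tmu. The means mu.
PROOF. `mu v w = ex (A_v (update ..) + B_w (update ..))`, `A = fA G Δ K p q`, `B = fA G Δ K q p`; `|mu| ≤ 2 m (nm (Da v A_v) + nm (Da w A_v) + nm (Da v B_w) + nm (Da w B_w))` (`ex_add`, `cm` with `h1.mean`, `h2.mean`). `mu_bd`: each norm `≤ x` (`nm_Da`, `n1`). `mu_su`: `c w = PM v w`: `c w ≠ 0` gives `v ≠ w`; `∑ c w = 1`, `∑ c w ^ 2 ≤ 1 / Δ`: the four sums are `≤ x / √Δ` (`h1.o1`), `≤ Δ ^ (-1/2) √7 x` (Cauchy-Schwarz, `eff`, `d ≤ 7`, `h1.n1`), `≤ x / √Δ` (Cauchy-Schwarz, `h2.n2` with `a = v`), `≤ x / √Δ` (`h2.o1`). `2 (3 + √7) ≤ 12`.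
-/
import Pool.Agent.H2.LN.HD
import Pool.Agent.H2.LN.H.Tcm
import Pool.Agent.H2.LN.H.Hf

set_option autoImplicit false
set_option linter.unusedSectionVars false

namespace Pool.Agent.H2.LN.HH

open Finset Classical
open Pool.Agent.H65.GI Pool.Agent.H64.LN

variable {V T : Type} [Fintype V] [Fintype T] [Nonempty T]
variable {G : SimpleGraph V} {Δ : ℕ}

private theorem Tmu_cs (c g : V → ℝ) (a b : ℝ) (ha : 0 ≤ a) (hb : 0 ≤ b) (h1 : ∑ w, c w ^ 2 ≤ a ^ 2)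
    (h2 : ∑ w, g w ^ 2 ≤ b ^ 2) : ∑ w, c w * g w ≤ a * b := by
  have h3 : (∑ w, c w * g w) ^ 2 ≤ (a * b) ^ 2 := by
    refine le_trans (Finset.sum_mul_sq_le_sq_mul_sq univ c g) ?_
    rw [mul_pow]
    exact mul_le_mul h1 h2 (Finset.sum_nonneg fun w _ => sq_nonneg _) (sq_nonneg _)
  exact le_trans (le_abs_self _) (abs_le_of_sq_le_sq h3 (mul_nonneg ha hb))

private theorem Tmu_1 (K d ρ : ℕ) (t t' : T) (p q : V → Fn V T) (x y : ℝ)
    (h1 : Af G Δ d ρ x y (fA G Δ K p q)) (h2 : Af G Δ d ρ x y (fA G Δ K q p)) (v w : V) (h : v ≠ w) :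
    |mu G Δ K t t' p q v w| ≤ 2 * Fintype.card T * (nm (Da v (fA G Δ K p q v)) + nm (Da w (fA G Δ K p q v)) +
      nm (Da v (fA G Δ K q p w)) + nm (Da w (fA G Δ K q p w))) := by
  have h3 := cm t t' v w h (fA G Δ K p q v) (h1.mean v)
  have h4 := cm t t' v w h (fA G Δ K q p w) (h2.mean w)
  have h5 : mu G Δ K t t' p q v w =
      ex (fun χ : V → T => fA G Δ K p q v (Function.update (Function.update χ v t) w t')) +
      ex (fun χ : V → T => fA G Δ K q p w (Function.update (Function.update χ v t) w t')) := by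
    unfold mu
    exact ex_add _ _
  rw [h5]
  refine le_trans (abs_add_le _ _) ?_
  linarith

theorem mu_bd (hΔ : 0 < Δ) (K d ρ : ℕ) (t t' : T) (p q : V → Fn V T) (x y : ℝ) (hx : 0 ≤ x)
    (h1 : Af G Δ d ρ x y (fA G Δ K p q)) (h2 : Af G Δ d ρ x y (fA G Δ K q p)) (v w : V) (h : v ≠ w) :
    |mu G Δ K t t' p q v w| ≤ 8 * Fintype.card T * x := by
  have _ := hΔ
  have _ := hx
  have h3 := Tmu_1 K d ρ t t' p q x y h1 h2 v w h
  have h4 : nm (Da v (fA G Δ K p q v)) + nm (Da w (fA G Δ K p q v)) +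
      nm (Da v (fA G Δ K q p w)) + nm (Da w (fA G Δ K q p w)) ≤ 4 * x := by
    have e1 := le_trans (nm_Da v (fA G Δ K p q v)) (h1.n1 v)
    have e2 := le_trans (nm_Da w (fA G Δ K p q v)) (h1.n1 v)
    have e3 := le_trans (nm_Da v (fA G Δ K q p w)) (h2.n1 w)
    have e4 := le_trans (nm_Da w (fA G Δ K q p w)) (h2.n1 w)
    linarith
  have h5 : (0 : ℝ) ≤ 2 * Fintype.card T := by positivity
  have h6 := mul_le_mul_of_nonneg_left h4 h5
  linarith

theorem mu_su (hΔ : 0 < Δ) (hG : Reg G Δ) (K d ρ : ℕ) (hd : d ≤ 7) (t t' : T) (p q : V → Fn V T)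
    (x y : ℝ) (hx : 0 ≤ x) (h1 : Af G Δ d ρ x y (fA G Δ K p q)) (h2 : Af G Δ d ρ x y (fA G Δ K q p))
    (v : V) : ∑ w, PM G Δ v w * |mu G Δ K t t' p q v w| ≤
      12 * Fintype.card T * x / Real.sqrt Δ := by
  have hΔ0 : (0 : ℝ) < Δ := by exact_mod_cast hΔ
  have hs : 0 < Real.sqrt Δ := Real.sqrt_pos.mpr hΔ0
  have hm : (0 : ℝ) ≤ 2 * Fintype.card T := by positivity
  have hc1 := PM_row G Δ hΔ hG v
  have hc2 : ∑ w, PM G Δ v w ^ 2 ≤ (1 / Real.sqrt Δ) ^ 2 := by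
    have e1 : ∀ w, PM G Δ v w ^ 2 ≤ PM G Δ v w * (1 / Δ) := by
      intro w
      have e2 : PM G Δ v w ≤ 1 / Δ := by
        simp only [PM]
        split_ifs
        · exact le_refl _
        · positivity
      rw [sq]
      exact mul_le_mul_of_nonneg_left e2 (PM_nn G Δ v w)
    refine le_trans (Finset.sum_le_sum fun w _ => e1 w) ?_
    rw [← Finset.sum_mul, hc1, one_mul, div_pow, one_pow, Real.sq_sqrt hΔ0.le]
  have hi : 0 ≤ 1 / Real.sqrt Δ := by positivity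
  have s1 : ∑ w, PM G Δ v w * nm (Da v (fA G Δ K p q v)) ≤ x / Real.sqrt Δ := by
    rw [← Finset.sum_mul, hc1, one_mul]
    exact h1.o1 v
  have s2 : ∑ w, PM G Δ v w * nm (Da w (fA G Δ K p q v)) ≤ 1 / Real.sqrt Δ * (3 * x) := by
    refine Tmu_cs _ _ _ _ hi (by linarith) hc2 ?_
    refine le_trans (eff (h1.dg v)) ?_
    have e1 : nm (fA G Δ K p q v) ^ 2 ≤ x ^ 2 := pow_le_pow_left₀ (nm_nn _) (h1.n1 v) 2
    have e2 : (d : ℝ) ≤ 7 := by exact_mod_cast hd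
    have e3 : (d : ℝ) * nm (fA G Δ K p q v) ^ 2 ≤ 7 * x ^ 2 :=
      mul_le_mul e2 e1 (sq_nonneg _) (by norm_num)
    nlinarith [sq_nonneg x]
  have s3 : ∑ w, PM G Δ v w * nm (Da v (fA G Δ K q p w)) ≤ 1 / Real.sqrt Δ * x :=
    Tmu_cs _ _ _ _ hi hx hc2 (h2.n2 v)
  have s4 : ∑ w, PM G Δ v w * nm (Da w (fA G Δ K q p w)) ≤ x / Real.sqrt Δ := by
    refine le_trans (Finset.sum_le_sum fun w _ => mul_le_mul_of_nonneg_left (h2.o1 w) (PM_nn G Δ v w)) ?_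
    rw [← Finset.sum_mul, hc1, one_mul]
  have h3 : ∀ w, PM G Δ v w * |mu G Δ K t t' p q v w| ≤ 2 * Fintype.card T *
      (PM G Δ v w * nm (Da v (fA G Δ K p q v)) + PM G Δ v w * nm (Da w (fA G Δ K p q v)) +
      PM G Δ v w * nm (Da v (fA G Δ K q p w)) + PM G Δ v w * nm (Da w (fA G Δ K q p w))) := by
    intro w
    by_cases hw : v = w
    · have e1 : PM G Δ v w = 0 := by
        simp only [PM]
        rw [if_neg]
        rw [hw]
        exact G.loopless.irrefl w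
      rw [e1]
      simp
    · have e1 := mul_le_mul_of_nonneg_left (Tmu_1 K d ρ t t' p q x y h1 h2 v w hw) (PM_nn G Δ v w)
      refine le_trans e1 (le_of_eq ?_)
      ring
  refine le_trans (Finset.sum_le_sum fun w _ => h3 w) ?_
  rw [← Finset.mul_sum, Finset.sum_add_distrib, Finset.sum_add_distrib, Finset.sum_add_distrib]
  have h4 : (∑ w, PM G Δ v w * nm (Da v (fA G Δ K p q v))) + (∑ w, PM G Δ v w * nm (Da w (fA G Δ K p q v))) +
      (∑ w, PM G Δ v w * nm (Da v (fA G Δ K q p w))) + (∑ w, PM G Δ v w * nm (Da w (fA G Δ K q p w))) ≤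
      6 * (x / Real.sqrt Δ) := by
    have e1 : 1 / Real.sqrt Δ * (3 * x) = 3 * (x / Real.sqrt Δ) := by ring
    have e2 : 1 / Real.sqrt Δ * x = x / Real.sqrt Δ := by ring
    linarith
  refine le_trans (mul_le_mul_of_nonneg_left h4 hm) (le_of_eq ?_)
  ring

end Pool.Agent.H2.LN.HH
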