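/-
ROW Hn. The L2 norm.
PROOF. `ex f = (∑ f) / card Ω`. `nm_sq`: `Real.sq_sqrt` (`ex` of squares is `≥ 0`). `cs`: `Finset.sum_mul_sq_le_sq_mul_sq`: `(∑ F G) ^ 2 ≤ (∑ F ^ 2) (∑ G ^ 2)`, divide by `card ^ 2`; `abs_le_of_sq_le_sq` type lemma. `nm_add`: `nm (F + G) ^ 2 = nm F ^ 2 + 2 ex (F G) + nm G ^ 2 ≤ (nm F + nm G) ^ 2` (`cs`), `abs_le_abs`/`pow_le_pow_left₀` inverse (`le_of_sq_le_sq`: `pow_le_pow_iff_left₀`).
`nm_smul`: `Real.sqrt_mul_self`/`Real.sqrt_sq_eq_abs`. `nm_sum`: induction on `J` with `nm_add` (`nm 0 = 0`). `nm_le_of_abs`: `Real.sqrt_le_sqrt`, `sq_le_sq'`. Rules for `ex` (`ex_add, ex_smul, ex_mono, ex_const, ex_sum, ex_abs`): `H65/GI/Cnd.lean`.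
-/
import Pool.Agent.H2.LN.HD

set_option autoImplicit false
set_option linter.unusedSectionVars false

namespace Pool.Agent.H2.LN.HH

open Finset Classical
open Pool.Agent.H65.GI Pool.Agent.H64.LN

variable {V T : Type} [Fintype V] [Fintype T] [Nonempty T]

private theorem Hn_ex_nn (F : Fn V T) : 0 ≤ ex (fun χ => F χ ^ 2) := by
  unfold ex
  exact div_nonneg (Finset.sum_nonneg fun χ _ => sq_nonneg (F χ)) (Nat.cast_nonneg _)

theorem nm_sq (F : Fn V T) : nm F ^ 2 = ex (fun χ => F χ ^ 2) := by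
  unfold nm
  exact Real.sq_sqrt (Hn_ex_nn F)

theorem nm_nn (F : Fn V T) : 0 ≤ nm F := Real.sqrt_nonneg _

theorem cs (F G : Fn V T) : |ex (fun χ => F χ * G χ)| ≤ nm F * nm G := by
  unfold nm
  rw [← Real.sqrt_mul (Hn_ex_nn F)]
  refine Real.abs_le_sqrt ?_
  unfold ex
  rw [div_pow, div_mul_div_comm, ← sq]
  exact div_le_div_of_nonneg_right (Finset.sum_mul_sq_le_sq_mul_sq _ _ _) (sq_nonneg _)

theorem nm_add (F G : Fn V T) : nm (fun χ => F χ + G χ) ≤ nm F + nm G := by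
  have h0 : 0 ≤ nm F + nm G := add_nonneg (nm_nn F) (nm_nn G)
  have h1 : ex (fun χ => (F χ + G χ) ^ 2) = ex (fun χ => F χ ^ 2) + 2 * ex (fun χ => F χ * G χ) + ex (fun χ => G χ ^ 2) := by
    rw [← ex_smul, ← ex_add, ← ex_add]
    congr 1
    funext χ
    ring
  have h2 : ex (fun χ => F χ * G χ) ≤ nm F * nm G := (le_abs_self _).trans (cs F G)
  have h3 : nm (fun χ => F χ + G χ) = Real.sqrt (ex (fun χ => (F χ + G χ) ^ 2)) := rfl
  rw [h3]
  refine Real.sqrt_le_iff.mpr ⟨h0, ?_⟩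
  rw [h1, ← nm_sq F, ← nm_sq G]
  nlinarith

theorem nm_smul (c : ℝ) (F : Fn V T) : nm (fun χ => c * F χ) = |c| * nm F := by
  have h1 : ex (fun χ => (c * F χ) ^ 2) = c ^ 2 * ex (fun χ => F χ ^ 2) := by
    rw [← ex_smul]
    congr 1
    funext χ
    ring
  have h3 : nm (fun χ => c * F χ) = Real.sqrt (ex (fun χ => (c * F χ) ^ 2)) := rfl
  rw [h3, h1, Real.sqrt_mul (sq_nonneg c), Real.sqrt_sq_eq_abs]
  rfl

theorem nm_sum {ι : Type} (J : Finset ι) (F : ι → Fn V T) :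
    nm (fun χ => ∑ i ∈ J, F i χ) ≤ ∑ i ∈ J, nm (F i) := by
  induction J using Finset.induction_on with
  | empty =>
    have h1 : nm (fun χ : V → T => ∑ i ∈ (∅ : Finset ι), F i χ) = 0 := by
      have h2 := nm_smul (0 : ℝ) (fun χ : V → T => ∑ i ∈ (∅ : Finset ι), F i χ)
      rw [abs_zero, zero_mul] at h2
      rw [← h2]
      congr 1
      funext χ
      rw [Finset.sum_empty, zero_mul]
    rw [h1, Finset.sum_empty]
  | insert a J ha ih =>
    rw [Finset.sum_insert ha]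
    have h1 : (fun χ : V → T => ∑ i ∈ insert a J, F i χ) = fun χ => F a χ + ∑ i ∈ J, F i χ := by
      funext χ
      rw [Finset.sum_insert ha]
    rw [h1]
    exact (nm_add (F a) (fun χ => ∑ i ∈ J, F i χ)).trans (by linarith)

theorem nm_le_of_abs (F G : Fn V T) (h : ∀ χ, |F χ| ≤ |G χ|) : nm F ≤ nm G := by
  unfold nm
  refine Real.sqrt_le_sqrt (ex_mono fun χ => ?_)
  exact sq_le_sq.mpr (h χ)

end Pool.Agent.H2.LN.HH
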