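/-
ROW Hx. Means and averages.
PROOF. `ex_Ea`: this is `Pool.Agent.H12.LN.ex_av` (`H12/LN/Mcd.lean`; `av` has the same definition). `ex_sa`: `ex (Ea F * G) = ex (Ea (Ea F * G)) = ex (Ea F * Ea G)` (`Ea_mul` after commuting the factors; `Ea_up`), symmetric in `F, G`. `ex_sd`: subtract `ex_sa` from `ex (F G)`. `pyth`: `F = Ea F + Da F`, `ex (Ea F * Da F) = ex (F * Ea (Da F)) = 0` (`ex_sa`, `Ea_Da`), `nm_sq`. `nm_Ea`, `nm_Da`: `pyth`.
`ex_sb`: `ex F = ex (Ea a F)`, interchange (`ex_sum`, `ex_smul` or unfold). `nm_sb`: `nm (sb a t F) ^ 2 = ex (sb a t (F ^ 2)) ≤ ∑ s, ex (sb a s (F ^ 2)) = card T * ex (F ^ 2)`. `sb_Da`: `Function.update_comm`.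
-/
import Pool.Agent.H2.LN.HD
import Pool.Agent.H2.LN.H.Hn
import Pool.Agent.H2.LN.H.He

set_option autoImplicit false
set_option linter.unusedSectionVars false

namespace Pool.Agent.H2.LN.HH

open Finset Classical
open Pool.Agent.H65.GI Pool.Agent.H64.LN

variable {V T : Type} [Fintype V] [Fintype T] [Nonempty T]

theorem ex_Ea (a : V) (F : Fn V T) : ex (Ea a F) = ex F := by
  exact Pool.Agent.H12.LN.ex_av a F

private theorem Hx_sub (F G : Fn V T) : ex (fun χ => F χ - G χ) = ex F - ex G := by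
  have h : (fun χ => F χ - G χ) = fun χ => F χ + (-1) * G χ := by
    funext χ
    ring
  rw [h, ex_add, ex_smul]
  ring

private theorem Hx_sa (a : V) (F G : Fn V T) :
    ex (fun χ => Ea a F χ * G χ) = ex (fun χ => Ea a F χ * Ea a G χ) := by
  rw [← ex_Ea a (fun χ => Ea a F χ * G χ)]
  have h : (fun χ => Ea a F χ * G χ) = fun χ => G χ * Ea a F χ := by
    funext χ
    exact mul_comm _ _
  rw [h, Ea_mul a G (Ea a F) (Ea_up a F)]
  congr 1
  funext χ
  exact mul_comm _ _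

theorem ex_sa (a : V) (F G : Fn V T) : ex (fun χ => Ea a F χ * G χ) = ex (fun χ => F χ * Ea a G χ) := by
  rw [Hx_sa a F G]
  have h : (fun χ => F χ * Ea a G χ) = fun χ => Ea a G χ * F χ := by
    funext χ
    exact mul_comm _ _
  rw [h, Hx_sa a G F]
  congr 1
  funext χ
  exact mul_comm _ _

theorem ex_sd (a : V) (F G : Fn V T) : ex (fun χ => Da a F χ * G χ) = ex (fun χ => F χ * Da a G χ) := by
  have h1 : (fun χ => Da a F χ * G χ) = fun χ => F χ * G χ - Ea a F χ * G χ := by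
    funext χ
    show (F χ - Ea a F χ) * G χ = _
    ring
  have h2 : (fun χ => F χ * Da a G χ) = fun χ => F χ * G χ - F χ * Ea a G χ := by
    funext χ
    show F χ * (G χ - Ea a G χ) = _
    ring
  rw [h1, h2, Hx_sub, Hx_sub, ex_sa]

theorem pyth (a : V) (F : Fn V T) : nm F ^ 2 = nm (Ea a F) ^ 2 + nm (Da a F) ^ 2 := by
  rw [nm_sq, nm_sq, nm_sq]
  have h0 : ex (fun χ => Ea a F χ * Da a F χ) = 0 := by
    rw [ex_sa, Ea_Da]
    have h : (fun χ : V → T => F χ * (fun _ : V → T => (0 : ℝ)) χ) = fun _ => 0 := by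
      funext χ
      exact mul_zero _
    rw [h, ex_const]
  have h1 : (fun χ => F χ ^ 2) = fun χ => (Ea a F χ ^ 2 + Da a F χ ^ 2) + 2 * (Ea a F χ * Da a F χ) := by
    funext χ
    show F χ ^ 2 = Ea a F χ ^ 2 + (F χ - Ea a F χ) ^ 2 + 2 * (Ea a F χ * (F χ - Ea a F χ))
    ring
  rw [h1, ex_add, ex_add, ex_smul, h0]
  ring

theorem nm_Ea (a : V) (F : Fn V T) : nm (Ea a F) ≤ nm F := by
  refine (sq_le_sq₀ (nm_nn _) (nm_nn _)).1 ?_
  rw [pyth a F]
  have := sq_nonneg (nm (Da a F))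
  linarith

theorem nm_Da (a : V) (F : Fn V T) : nm (Da a F) ≤ nm F := by
  refine (sq_le_sq₀ (nm_nn _) (nm_nn _)).1 ?_
  rw [pyth a F]
  have := sq_nonneg (nm (Ea a F))
  linarith

/-- slicing -/
theorem ex_sb (a : V) (F : Fn V T) : ex F = (∑ t, ex (sb a t F)) / Fintype.card T := by
  have h1 : Ea a F = fun χ => (Fintype.card T : ℝ)⁻¹ * ∑ t, sb a t F χ := by
    funext χ
    show (∑ t, F (Function.update χ a t)) / (Fintype.card T : ℝ) = _
    rw [div_eq_inv_mul]
    rfl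
  rw [← ex_Ea a F, h1, ex_smul, ex_sum, div_eq_inv_mul]

theorem nm_sb (a : V) (t : T) (F : Fn V T) : nm (sb a t F) ≤ Real.sqrt (Fintype.card T) * nm F := by
  have hT : (0 : ℝ) < Fintype.card T := by exact_mod_cast Fintype.card_pos
  refine (sq_le_sq₀ (nm_nn _) (mul_nonneg (Real.sqrt_nonneg _) (nm_nn _))).1 ?_
  rw [mul_pow, Real.sq_sqrt hT.le, nm_sq, nm_sq]
  have h1 := ex_sb a (fun χ => F χ ^ 2)
  rw [eq_div_iff hT.ne', mul_comm] at h1
  rw [h1]
  have h2 : (fun χ => sb a t F χ ^ 2) = sb a t (fun χ => F χ ^ 2) := rfl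
  rw [h2]
  refine Finset.single_le_sum (f := fun s => ex (sb a s (fun χ => F χ ^ 2))) (fun s _ => ?_) (Finset.mem_univ t)
  have h3 := ex_mono (f := fun _ : V → T => (0 : ℝ)) (g := sb a s (fun χ => F χ ^ 2)) (fun χ => sq_nonneg _)
  rwa [ex_const] at h3

theorem sb_Da (a b : V) (hab : a ≠ b) (t : T) (F : Fn V T) : Da b (sb a t F) = sb a t (Da b F) := by
  funext χ
  show F (Function.update χ a t) - (∑ s, F (Function.update (Function.update χ b s) a t)) / (Fintype.card T : ℝ) =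
    F (Function.update χ a t) - (∑ s, F (Function.update (Function.update χ a t) b s)) / (Fintype.card T : ℝ)
  congr 2
  refine Finset.sum_congr rfl fun s _ => ?_
  rw [Function.update_comm hab.symm]

end Pool.Agent.H2.LN.HH
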