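/-
ROW Ho. The functions om.
PROOF. `om t v χ = m - 1` if `χ v = t`, `-1` otherwise (`m = card T ≥ 1`). `Ea v (om t v) = 0`: `(1 / m) ((m - 1) + (m - 1) (-1))`; `om_ex`: `ex_Ea`. `om_nm`: `ex (om ^ 2) = ex (Ea v (om ^ 2)) = ((m - 1) ^ 2 + (m - 1)) / m = m - 1 ≤ m`. `om_nm1`: `1 + om = m 1[χ v = t]`, mean of the square `m ^ 2 / m`. `om_Da`: `a = v`: `Ea v (om t v) = 0`; otherwise `Da_of`.
-/
import Pool.Agent.H2.LN.HD
import Pool.Agent.H2.LN.H.Hx

set_option autoImplicit false
set_option linter.unusedSectionVars false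

namespace Pool.Agent.H2.LN.HH

open Finset Classical
open Pool.Agent.H65.GI Pool.Agent.H64.LN

variable {V T : Type} [Fintype V] [Fintype T] [Nonempty T]

theorem Ho_card : (0 : ℝ) < (Fintype.card T : ℝ) := by
  exact_mod_cast (Fintype.card_pos : 0 < Fintype.card T)

theorem Ho_s (c : ℝ) (t : T) : ∑ s : T, (if s = t then c else 0) = c := by
  rw [Fintype.sum_eq_single t (fun s hs => if_neg hs), if_pos rfl]

theorem Ho_up (t s : T) (v : V) (χ : V → T) :
    om t v (Function.update χ v s) = if s = t then (Fintype.card T : ℝ) - 1 else -1 := by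
  unfold om
  rw [Function.update_self]

theorem Ho_Ea (t : T) (v : V) : Ea v (om t v) = fun _ => 0 := by
  funext χ
  have h1 : ∑ s : T, om t v (Function.update χ v s) = 0 := by
    have h2 : ∀ s : T, om t v (Function.update χ v s) =
        (if s = t then (Fintype.card T : ℝ) else 0) + (-1) := by
      intro s
      rw [Ho_up]
      split_ifs
      · ring
      · ring
    rw [Finset.sum_congr rfl (fun s _ => h2 s), Finset.sum_add_distrib, Ho_s, Finset.sum_const,
      nsmul_eq_mul, Finset.card_univ]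
    ring
  change (∑ s : T, om t v (Function.update χ v s)) / (Fintype.card T : ℝ) = 0
  rw [h1, zero_div]

theorem Ho_sq (t : T) (v : V) : ex (fun χ : V → T => om t v χ ^ 2) = (Fintype.card T : ℝ) - 1 := by
  have hc : (0 : ℝ) < (Fintype.card T : ℝ) := Ho_card
  rw [← ex_Ea v (fun χ : V → T => om t v χ ^ 2)]
  have h0 : Ea v (fun χ : V → T => om t v χ ^ 2) = fun _ => (Fintype.card T : ℝ) - 1 := by
    funext χ
    have h2 : ∀ s : T, om t v (Function.update χ v s) ^ 2 =
        (if s = t then ((Fintype.card T : ℝ) - 1) ^ 2 - 1 else 0) + 1 := by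
      intro s
      rw [Ho_up]
      split_ifs
      · ring
      · ring
    change (∑ s : T, om t v (Function.update χ v s) ^ 2) / (Fintype.card T : ℝ) = _
    rw [Finset.sum_congr rfl (fun s _ => h2 s), Finset.sum_add_distrib, Ho_s, Finset.sum_const,
      nsmul_eq_mul, Finset.card_univ, div_eq_iff hc.ne']
    ring
  rw [h0, ex_const]

theorem Ho_sq1 (t : T) (v : V) : ex (fun χ : V → T => (1 + om t v χ) ^ 2) = (Fintype.card T : ℝ) := by
  have hc : (0 : ℝ) < (Fintype.card T : ℝ) := Ho_card
  rw [← ex_Ea v (fun χ : V → T => (1 + om t v χ) ^ 2)]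
  have h0 : Ea v (fun χ : V → T => (1 + om t v χ) ^ 2) = fun _ => (Fintype.card T : ℝ) := by
    funext χ
    have h2 : ∀ s : T, (1 + om t v (Function.update χ v s)) ^ 2 =
        (if s = t then (Fintype.card T : ℝ) ^ 2 else 0) := by
      intro s
      rw [Ho_up]
      split_ifs
      · ring
      · ring
    change (∑ s : T, (1 + om t v (Function.update χ v s)) ^ 2) / (Fintype.card T : ℝ) = _
    rw [Finset.sum_congr rfl (fun s _ => h2 s), Ho_s, div_eq_iff hc.ne']
    ring
  rw [h0, ex_const]

theorem om_ex (t : T) (v : V) : ex (om t v) = 0 := by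
  rw [← ex_Ea v (om t v), Ho_Ea, ex_const]

theorem om_loc (t : T) (v : V) : Loc (om t v) {v} := by
  intro ω ω' h
  unfold om
  rw [h v (Finset.mem_singleton_self v)]

theorem om_abs (t : T) (v : V) (χ : V → T) : |om t v χ| ≤ Fintype.card T := by
  have hc : (1 : ℝ) ≤ (Fintype.card T : ℝ) := by
    exact_mod_cast (Fintype.card_pos : 0 < Fintype.card T)
  unfold om
  split_ifs
  · rw [abs_le]
    constructor
    · linarith
    · linarith
  · rw [abs_neg, abs_one]
    exact hc

theorem om_nm (t : T) (v : V) : nm (om t v) ≤ Real.sqrt (Fintype.card T) := by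
  unfold nm
  refine Real.sqrt_le_sqrt ?_
  rw [Ho_sq]
  linarith

theorem om_nm1 (t : T) (v : V) : nm (fun χ => 1 + om t v χ) ≤ Real.sqrt (Fintype.card T) := by
  unfold nm
  refine Real.sqrt_le_sqrt ?_
  rw [Ho_sq1]

theorem om_Da (t : T) (v a : V) : Da a (om t v) = if a = v then om t v else fun _ => 0 := by
  split_ifs with h
  · subst h
    funext χ
    unfold Da
    rw [Ho_Ea, sub_zero]
  · refine Da_of a (om t v) ?_
    intro χ s
    unfold om
    rw [Function.update_of_ne (fun h' => h h'.symm)]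

end Pool.Agent.H2.LN.HH
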