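/-
ROW Hp. The field P om.
PROOF. `Pf G Δ 1 (om t) v χ = ∑ w, (PM G Δ ^ 1) v w * om t w χ`, `pow_one`, `PM G Δ v w = 1 / Δ` for adjacent `v, w`, `0` otherwise (`PM_nn, PM_symm, PM_row` in `H64/LN/K6`). `Da a (Pf G Δ 1 (om t) v) = fun χ => PM v a * om t a χ` (`Da_sum`, `Da_lin`-type rule for scalar multiples, `om_Da`). `n1`: `nm (Pf ..) ^ 2 = ex (Pf * Pf) ≤ ∑ a, nm (Da a Pf) ^ 2` (`cov`, mean `0`) `= ∑ a, (PM v a) ^ 2 nm (om a) ^ 2 ≤ m / Δ` (`∑ a, (PM v a) ^ 2 ≤ (1 / Δ) ∑ PM v a`). `n2`: `∑ v, (PM v a) ^ 2 m ≤ m / Δ` (`Real.sq_sqrt`). `s1`, `s2`: `PM_row`, `PM_symm`.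
`Pom_st`: `Dg_sum` with `Dg_of` (`om_loc`, card 1); `PM v w ≠ 0` gives `w ∈ bl G v 1` (`bl_self, bl_adj` in `H65/GI/Lll`); `om_ex`; `PM v v = 0` (`G.loopless`) and `om_loc` for the last property.
-/
import Pool.Agent.H2.LN.HD
import Pool.Agent.H2.LN.H.Ho
import Pool.Agent.H2.LN.H.Hd
import Pool.Agent.H2.LN.H.Hf

set_option autoImplicit false
set_option linter.unusedSectionVars false

namespace Pool.Agent.H2.LN.HH

open Finset Classical
open Pool.Agent.H65.GI Pool.Agent.H64.LN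

variable {V T : Type} [Fintype V] [Fintype T] [Nonempty T]
variable {G : SimpleGraph V} {Δ : ℕ}

private theorem Hp_eq (t : T) (v : V) : Pf G Δ 1 (om t) v = fun χ : V → T => ∑ w, PM G Δ v w * om t w χ := by
  funext χ
  unfold Pf
  rw [pow_one]

private theorem Hp_Da_smul (a : V) (c : ℝ) (F : Fn V T) : Da a (fun χ => c * F χ) = fun χ => c * Da a F χ := by
  funext χ
  unfold Da Ea
  rw [← Finset.mul_sum, mul_sub, mul_div_assoc]

private theorem Hp_Da (t : T) (v a : V) : Da a (Pf G Δ 1 (om t) v) = fun χ : V → T => PM G Δ v a * om t a χ := by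
  rw [Hp_eq, Da_sum]
  funext χ
  rw [Finset.sum_eq_single a]
  · rw [Hp_Da_smul, om_Da, if_pos rfl]
  · intro w _ hw
    rw [Hp_Da_smul, om_Da, if_neg (Ne.symm hw), mul_zero]
  · intro h
    exact absurd (Finset.mem_univ a) h

private theorem Hp_nm (t : T) (v a : V) :
    nm (Da a (Pf G Δ 1 (om t) v)) ≤ PM G Δ v a * Real.sqrt (Fintype.card T) := by
  rw [Hp_Da, nm_smul, abs_of_nonneg (PM_nn G Δ v a)]
  exact mul_le_mul_of_nonneg_left (om_nm t a) (PM_nn G Δ v a)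

private theorem Hp_nm2 (t : T) (v a : V) :
    nm (Da a (Pf G Δ 1 (om t) v)) ^ 2 ≤ PM G Δ v a * (Fintype.card T / Δ) := by
  have h1 := pow_le_pow_left₀ (nm_nn _) (Hp_nm (G := G) (Δ := Δ) t v a) 2
  rw [mul_pow, Real.sq_sqrt (Nat.cast_nonneg _)] at h1
  refine h1.trans ?_
  have h2 : PM G Δ v a ≤ 1 / (Δ : ℝ) := by
    unfold PM
    split_ifs
    · exact le_refl _
    · positivity
  have h3 : PM G Δ v a ^ 2 ≤ PM G Δ v a * (1 / Δ) := by
    rw [sq]
    exact mul_le_mul_of_nonneg_left h2 (PM_nn G Δ v a)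
  have h4 : PM G Δ v a * ((Fintype.card T : ℝ) / Δ) = PM G Δ v a * (1 / Δ) * Fintype.card T := by ring
  rw [h4]
  exact mul_le_mul_of_nonneg_right h3 (Nat.cast_nonneg _)

private theorem Hp_ex (t : T) (v : V) : ex (Pf G Δ 1 (om t) v : Fn V T) = 0 := by
  rw [Hp_eq, ex_sum]
  refine Finset.sum_eq_zero fun w _ => ?_
  rw [ex_smul, om_ex, mul_zero]

theorem Pom (hΔ : 0 < Δ) (hG : Reg G Δ) (t : T) :
    Bd (Real.sqrt (Fintype.card T / Δ)) (Real.sqrt (Fintype.card T)) (Pf G Δ 1 (om t)) := by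
  have hcol : ∀ a : V, ∑ v, PM G Δ v a = 1 := by
    intro a
    rw [← PM_row G Δ hΔ hG a]
    exact Finset.sum_congr rfl fun v _ => PM_symm G Δ v a
  have hx : (0 : ℝ) ≤ (Fintype.card T : ℝ) / Δ := by positivity
  refine ⟨fun v => ?_, fun a => ?_, fun v => ?_, fun a => ?_⟩
  · have h1 := cov (Pf G Δ 1 (om t) v) (Pf G Δ 1 (om t) v) (Hp_ex t v)
    have h2 : ∑ a, nm (Da a (Pf G Δ 1 (om t) v)) * nm (Da a (Pf G Δ 1 (om t) v)) ≤ (Fintype.card T : ℝ) / Δ := by
      calc ∑ a, nm (Da a (Pf G Δ 1 (om t) v)) * nm (Da a (Pf G Δ 1 (om t) v))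
          ≤ ∑ a, PM G Δ v a * (Fintype.card T / Δ) := by
            refine Finset.sum_le_sum fun a _ => ?_
            rw [← sq]
            exact Hp_nm2 t v a
        _ = (Fintype.card T : ℝ) / Δ := by
            rw [← Finset.sum_mul, PM_row G Δ hΔ hG v, one_mul]
    have h3 : nm (Pf G Δ 1 (om t) v) ^ 2 ≤ (Fintype.card T : ℝ) / Δ := by
      rw [nm_sq]
      have h4 : (fun χ => Pf G Δ 1 (om t) v χ ^ 2) = fun χ : V → T => Pf G Δ 1 (om t) v χ * Pf G Δ 1 (om t) v χ := by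
        funext χ
        rw [sq]
      rw [h4]
      exact (le_abs_self _).trans (h1.trans h2)
    exact Real.le_sqrt_of_sq_le h3
  · rw [Real.sq_sqrt hx]
    calc ∑ v, nm (Da a (Pf G Δ 1 (om t) v)) ^ 2 ≤ ∑ v, PM G Δ v a * (Fintype.card T / Δ) :=
          Finset.sum_le_sum fun v _ => Hp_nm2 t v a
      _ = (Fintype.card T : ℝ) / Δ := by
          rw [← Finset.sum_mul, hcol, one_mul]
  · calc ∑ a, nm (Da a (Pf G Δ 1 (om t) v)) ≤ ∑ a, PM G Δ v a * Real.sqrt (Fintype.card T) :=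
          Finset.sum_le_sum fun a _ => Hp_nm t v a
      _ = Real.sqrt (Fintype.card T) := by
          rw [← Finset.sum_mul, PM_row G Δ hΔ hG v, one_mul]
  · calc ∑ v, nm (Da a (Pf G Δ 1 (om t) v)) ≤ ∑ v, PM G Δ v a * Real.sqrt (Fintype.card T) :=
          Finset.sum_le_sum fun v _ => Hp_nm t v a
      _ = Real.sqrt (Fintype.card T) := by
          rw [← Finset.sum_mul, hcol, one_mul]

theorem Pom_st (hΔ : 0 < Δ) (hG : Reg G Δ) (t : T) (v : V) : Dg 1 (Pf G Δ 1 (om t) v) ∧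
    Loc (Pf G Δ 1 (om t) v) (bl G v 1) ∧ ex (Pf G Δ 1 (om t) v) = 0 ∧
    ∀ χ s, Pf G Δ 1 (om t) v (Function.update χ v s) = Pf G Δ 1 (om t) v χ := by
  refine ⟨?_, ?_, Hp_ex t v, ?_⟩
  · rw [Hp_eq]
    refine Dg_sum Finset.univ _ fun w _ => ?_
    refine Dg_of (S := {w}) (Finset.card_singleton w).le ?_
    intro χ χ' h
    show PM G Δ v w * om t w χ = PM G Δ v w * om t w χ'
    rw [om_loc t w χ χ' h]
  · intro χ χ' h
    rw [Hp_eq]
    refine Finset.sum_congr rfl fun w _ => ?_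
    by_cases hw : G.Adj v w
    · have hm : w ∈ bl G v 1 := bl_adj G (bl_self G v 0) hw
      rw [om_loc t w χ χ' fun i hi => by
        rw [Finset.mem_singleton.1 hi]
        exact h w hm]
    · have h0 : PM G Δ v w = 0 := by
        unfold PM
        exact if_neg hw
      rw [h0, zero_mul, zero_mul]
  · intro χ s
    rw [Hp_eq]
    refine Finset.sum_congr rfl fun w _ => ?_
    by_cases hw : w = v
    · subst hw
      have h0 : PM G Δ w w = 0 := by
        unfold PM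
        exact if_neg (G.loopless.irrefl w)
      rw [h0, zero_mul, zero_mul]
    · rw [om_loc t w (Function.update χ v s) χ fun i hi => by
        rw [Finset.mem_singleton.1 hi, Function.update_of_ne hw]]

end Pool.Agent.H2.LN.HH
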