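/-
ROW Tps. All error fields.
PROOF. Induction on `k` (for all `t, t'`). `Gm := Gam m K ≥ m ≥ 1` (`K ≥ 1`), `Δ ≥ 1`. `k = 0`: `ps 0 t t' = - Pf G Δ 1 (om t')`: `Pom_st`, `Pom`, `Bd_neg`: `√(m / Δ) = √m / √Δ ≤ 2 Gm / √Δ`, `√m ≤ 2 Gm`; `bl G v 1 ⊆ bl G v (K + 1)`. Step (`k + 1 ≤ 6`, so `k + 1 ≤ 6` is the degree needed in `nx_Fl`): `x = (2 Gm) ^ (k+1) / √Δ ^ (k+1)`, `y = (2 Gm) ^ (k+1)`, radius `(k+1)(K+1) + K + 1 = (k+2)(K+1)`; `nx_Fl` gives `Gm (x / √Δ + y √(N ^ 3 / Δ ^ 12)) ≤ 2 Gm y / √Δ ^ (k+2)` since `√(N ^ 3 / Δ ^ 12) ≤ 1 / √Δ ^ 7 ≤ 1 / √Δ ^ (k + 2)` (`N ^ 3 ≤ Δ ^ 5`, `k + 2 ≤ 7`; `√Δ ^ 14 = Δ ^ 7`), and `Gm (x + y) ≤ 2 Gm y` (`x ≤ y`). You need monotonicity of `Fl` in `x` (for `0 ≤ x ≤ x'`) and `y`.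
-/
import Pool.Agent.H2.LN.HD
import Pool.Agent.H2.LN.H.Tnx
import Pool.Agent.H2.LN.H.Hp

set_option autoImplicit false
set_option linter.unusedSectionVars false

namespace Pool.Agent.H2.LN.HH

open Finset Classical
open Pool.Agent.H65.GI Pool.Agent.H64.LN

variable {V T : Type} [Fintype V] [Fintype T] [Nonempty T]
variable {G : SimpleGraph V} {Δ : ℕ}

theorem Tps_mono {d ρ : ℕ} {x x' y y' : ℝ} {f : V → Fn V T} (h : Fl G d ρ x y f) (hx0 : 0 ≤ x) (hx : x ≤ x')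
    (hy : y ≤ y') : Fl G d ρ x' y' f where
  own := h.own
  mean := h.mean
  dg := h.dg
  lo := h.lo
  n1 := fun v => (h.n1 v).trans hx
  n2 := fun a => (h.n2 a).trans (pow_le_pow_left₀ hx0 hx 2)
  s1 := fun v => (h.s1 v).trans hy
  s2 := fun a => (h.s2 a).trans hy

theorem Tps_neg {d ρ : ℕ} (h1 : 1 ≤ d) (h2 : 1 ≤ ρ) (hΔ : 0 < Δ) (hG : Reg G Δ) (t' : T) :
    Fl G d ρ (Real.sqrt (Fintype.card T / Δ)) (Real.sqrt (Fintype.card T)) (fun v χ => - Pf G Δ 1 (om t') v χ) := by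
  have hB := Bd_neg (Pom hΔ hG t')
  refine ⟨?_, ?_, ?_, ?_, hB.n1, hB.n2, hB.s1, hB.s2⟩
  · intro v χ t
    show - _ = - _
    rw [(Pom_st hΔ hG t' v).2.2.2]
  · intro v
    have h := (Pom_st hΔ hG t' v).2.2.1
    unfold ex at h ⊢
    rw [Finset.sum_neg_distrib, neg_div, h, neg_zero]
  · intro v
    have h := Dg_mono h1 (Pom_st hΔ hG t' v).1
    unfold Dg at h ⊢
    exact Submodule.neg_mem _ h
  · intro v ω ω' hω
    show - _ = - _
    rw [(Pom_st hΔ hG t' v).2.1 ω ω' fun i hi => hω i (bl_mono G v h2 hi)]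

/-- The numbers. -/
theorem Tps_num {D g m s : ℝ} (hD : 1 ≤ D) (hg : g = 2 * m) (hm : 1 ≤ m) (hs : s ≤ 1 / D ^ 7) (k : ℕ) (hk : k + 2 ≤ 7) :
    m * (g ^ (k + 1) / D ^ (k + 1) / D + g ^ (k + 1) * s) ≤ g ^ (k + 2) / D ^ (k + 2) ∧
      m * (g ^ (k + 1) / D ^ (k + 1) + g ^ (k + 1)) ≤ g ^ (k + 2) := by
  have hg0 : 0 < g := by rw [hg]; linarith
  have hD0 : 0 < D := by linarith
  have hgk : 0 < g ^ (k + 1) := by positivity
  constructor
  · have h1 : s ≤ 1 / D ^ (k + 2) := by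
      refine hs.trans ?_
      exact one_div_le_one_div_of_le (by positivity) (pow_le_pow_right₀ hD hk)
    have h2 : g ^ (k + 1) / D ^ (k + 1) / D = g ^ (k + 1) * (1 / D ^ (k + 2)) := by
      rw [div_div, ← pow_succ]
      ring
    rw [h2]
    calc m * (g ^ (k + 1) * (1 / D ^ (k + 2)) + g ^ (k + 1) * s) ≤
          m * (g ^ (k + 1) * (1 / D ^ (k + 2)) + g ^ (k + 1) * (1 / D ^ (k + 2))) := by gcongr
      _ = (2 * m) * g ^ (k + 1) * (1 / D ^ (k + 2)) := by ring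
      _ = g ^ (k + 2) / D ^ (k + 2) := by
          rw [← hg]
          ring
  · have h1 : g ^ (k + 1) / D ^ (k + 1) ≤ g ^ (k + 1) := div_le_self hgk.le (one_le_pow₀ hD)
    calc m * (g ^ (k + 1) / D ^ (k + 1) + g ^ (k + 1)) ≤ m * (g ^ (k + 1) + g ^ (k + 1)) := by gcongr
      _ = (2 * m) * g ^ (k + 1) := by ring
      _ = g ^ (k + 2) := by
          rw [← hg]
          ring

/-- all error fields -/
theorem ps_Fl {N : ℕ} (hP : Pm N Δ) (hG : Reg G Δ) (hgap : Gap G N Δ) (K : ℕ) (hK : N ^ 3 ≤ K)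
    (hK2 : Even K) (k : ℕ) (hk : k ≤ 6) (t t' : T) :
    Fl G (k + 1) ((k + 1) * (K + 1)) ((2 * Gam (Fintype.card T) K) ^ (k + 1) / Real.sqrt Δ ^ (k + 1))
      ((2 * Gam (Fintype.card T) K) ^ (k + 1)) (ps G Δ K k t t') := by
  have hN : 1 ≤ N := le_trans (by norm_num) hP.big
  have hΔ : 0 < Δ := lt_of_lt_of_le (by positivity) hP.pow
  have hNΔ : N ^ 3 ≤ Δ := (Nat.pow_le_pow_right hN (by norm_num)).trans hP.pow
  have hΔ1 : (1 : ℝ) ≤ Δ := by exact_mod_cast hΔ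
  have hD : 1 ≤ Real.sqrt Δ := by
    rw [Real.one_le_sqrt]
    exact hΔ1
  have hD0 : 0 < Real.sqrt Δ := by linarith
  have hsq : Real.sqrt Δ ^ 2 = Δ := Real.sq_sqrt (by linarith)
  have hm1 : (1 : ℝ) ≤ (Fintype.card T : ℝ) := by exact_mod_cast Fintype.card_pos (α := T)
  have hK1 : (1 : ℝ) ≤ (K : ℝ) := by
    have : 1 ≤ K := le_trans (Nat.one_le_pow _ _ hN) hK
    exact_mod_cast this
  have hGam : (Fintype.card T : ℝ) ≤ Gam (Fintype.card T) K := by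
    unfold Gam
    have h1 : (Fintype.card T : ℝ) ≤ (20 * (Fintype.card T : ℝ)) ^ 10 := by
      calc (Fintype.card T : ℝ) ≤ 20 * (Fintype.card T : ℝ) := by linarith
        _ = (20 * (Fintype.card T : ℝ)) ^ 1 := by ring
        _ ≤ (20 * (Fintype.card T : ℝ)) ^ 10 := pow_le_pow_right₀ (by linarith) (by norm_num)
    calc (Fintype.card T : ℝ) ≤ (20 * (Fintype.card T : ℝ)) ^ 10 := h1
      _ = (20 * (Fintype.card T : ℝ)) ^ 10 * 1 := by ring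
      _ ≤ (20 * (Fintype.card T : ℝ)) ^ 10 * K := mul_le_mul_of_nonneg_left hK1 (by positivity)
  have hGam1 : 1 ≤ Gam (Fintype.card T) K := hm1.trans hGam
  have hs : Real.sqrt (N ^ 3 / (Δ : ℝ) ^ 12) ≤ 1 / Real.sqrt Δ ^ 7 := by
    rw [Real.sqrt_le_left (by positivity)]
    have h1 : (1 / Real.sqrt Δ ^ 7) ^ 2 = 1 / (Δ : ℝ) ^ 7 := by
      rw [div_pow, one_pow, ← pow_mul, mul_comm 7 2, pow_mul, hsq]
    rw [h1, div_le_div_iff₀ (by positivity) (by positivity)]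
    have h2 : (N : ℝ) ^ 3 ≤ (Δ : ℝ) := by exact_mod_cast hNΔ
    calc (N : ℝ) ^ 3 * (Δ : ℝ) ^ 7 ≤ (Δ : ℝ) * (Δ : ℝ) ^ 7 := mul_le_mul_of_nonneg_right h2 (by positivity)
      _ = (Δ : ℝ) ^ 8 := by ring
      _ ≤ (Δ : ℝ) ^ 12 := pow_le_pow_right₀ hΔ1 (by norm_num)
      _ = 1 * (Δ : ℝ) ^ 12 := by ring
  induction k generalizing t t' with
  | zero =>
    have h0 := Tps_neg (G := G) (d := 1) (ρ := K + 1) le_rfl (by omega) hΔ hG t'
    have hsm : Real.sqrt (Fintype.card T) ≤ 2 * Gam (Fintype.card T) K := by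
      have : Real.sqrt (Fintype.card T) ≤ (Fintype.card T : ℝ) := by
        rw [Real.sqrt_le_left (by linarith)]
        nlinarith
      linarith
    have h1 : Real.sqrt (Fintype.card T / Δ) ≤ (2 * Gam (Fintype.card T) K) ^ (0 + 1) / Real.sqrt Δ ^ (0 + 1) := by
      rw [Real.sqrt_div (by linarith), zero_add, pow_one, pow_one]
      exact div_le_div_of_nonneg_right hsm hD0.le
    have h2 : Real.sqrt (Fintype.card T) ≤ (2 * Gam (Fintype.card T) K) ^ (0 + 1) := by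
      rw [zero_add, pow_one]
      exact hsm
    have h3 := Tps_mono h0 (Real.sqrt_nonneg _) h1 h2
    rw [show (0 + 1) * (K + 1) = K + 1 by ring]
    exact h3
  | succ k ih =>
    have hx : 0 ≤ (2 * Gam (Fintype.card T) K) ^ (k + 1) / Real.sqrt Δ ^ (k + 1) := by positivity
    have hy : 0 ≤ (2 * Gam (Fintype.card T) K) ^ (k + 1) := by positivity
    have h0 := nx_Fl hP hG hgap K (k + 1) ((k + 1) * (K + 1)) hK hK2 (by omega) hk t t'
      (ps G Δ K k t t') (ps G Δ K k t' t) _ _ hx hy (ih (by omega) t t') (ih (by omega) t' t)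
    have h1 := Tps_num hD rfl hGam1 hs k (by omega)
    have h2 := Tps_mono h0 (by positivity) h1.1 h1.2
    rw [show (k + 1 + 1) * (K + 1) = (k + 1) * (K + 1) + K + 1 by ring]
    exact h2

end Pool.Agent.H2.LN.HH
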