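/-
ROW Tsy. Symmetry of mu; the number of types.
PROOF. `mu_sy`: unfold, `Function.update_comm`, `add_comm`. `card_Ty`: `Fintype.card_prod`, `Fintype.card_fun`/`Fintype.card_pi`, `ZMod.card`, `Fintype.card_fin`; `mT N = 2 ^ k0 N * (N ^ 4 + 1)`.
-/
import Pool.Agent.H2.LN.HD

set_option autoImplicit false
set_option linter.unusedSectionVars false

namespace Pool.Agent.H2.LN.HH

open Finset Classical
open Pool.Agent.H65.GI Pool.Agent.H64.LN

variable {V T : Type} [Fintype V] [Fintype T] [Nonempty T]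
variable {G : SimpleGraph V} {Δ : ℕ}

theorem mu_sy (K : ℕ) (t t' : T) (p q : V → Fn V T) (v w : V) (h : v ≠ w) :
    mu G Δ K t' t q p w v = mu G Δ K t t' p q v w := by
  unfold mu
  congr 1
  funext χ
  rw [Function.update_comm h]
  exact add_comm _ _

theorem card_Ty (N : ℕ) : Fintype.card (Ty N) = mT N := by
  simp [Ty, mT, ZMod.card]

end Pool.Agent.H2.LN.HH
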