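/-
ROW G6c. The means mu are small.
PROOF. `K = 2 N ^ 3`, `m = mT N`. `ps_Fl` for both fields, `fA_Af` for `fA p q` and `fA q p` with `x = K (2 Gm) ^ (k+1) / √Δ ^ (k+1) ≤ K (2 Gm) / √Δ` (`2 Gm ≤ √Δ`); `mu_bd`: `|mu| ≤ 8 m K 2 Gm / √Δ ≤ N ^ 620 / √Δ` (`8 m K ≤ N ^ 60`, `2 Gm ≤ N ^ 555`), and `100 N ^ 620 ≤ N ^ 2000 ≤ Δ ^ (1/20)`, `√Δ = Δ ^ (1/2)`: `N ^ 620 / √Δ ≤ Δ ^ (-9/20) / 100`. (`N ^ 2000 = (N ^ 40000) ^ (1/20) ≤ Δ ^ (1/20)`.)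
-/
import Pool.Agent.H2.LN.HD
import Pool.Agent.H2.LN.H.Tps
import Pool.Agent.H2.LN.H.Tmu
import Pool.Agent.H2.LN.H.Tsy
import Pool.Agent.H2.LN.H.Ha
import Pool.Agent.H64.LN.Bnm

set_option autoImplicit false
set_option linter.unusedSectionVars false

namespace Pool.Agent.H2.LN.HH

open Finset Classical
open Pool.Agent.H65.GI Pool.Agent.H64.LN

variable {V T : Type} [Fintype V] [Fintype T] [Nonempty T]
variable {G : SimpleGraph V} {Δ : ℕ}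

private theorem G6c_num {N : ℕ} (hP : Pm N Δ) (k : ℕ) :
    8 * (mT N : ℝ) * (((2 * N ^ 3 : ℕ) : ℝ) *
      ((2 * Gam (mT N) (2 * N ^ 3)) ^ (k + 1) / Real.sqrt Δ ^ (k + 1))) ≤
      (Δ : ℝ) ^ (-(9 : ℝ) / 20) / 100 := by
  have hN := nN hP
  have hN0 := nN0 hP
  have hN1 := nN1 hP
  have hm := (nmT hP).2
  have hm0 := nmT0 hP
  have hΔ0 := nΔ0 hP
  have hΔN := nΔN hP
  have hsq : 0 < Real.sqrt Δ := Real.sqrt_pos.2 hΔ0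
  obtain ⟨g, hg⟩ : ∃ g : ℝ, g = 2 * Gam (mT N) (2 * N ^ 3) := ⟨_, rfl⟩
  rw [← hg]
  have hg0 : 0 ≤ g := by
    rw [hg]
    unfold Gam
    positivity
  have h20 : 20 * (mT N : ℝ) ≤ (N : ℝ) ^ 55 := by
    calc 20 * (mT N : ℝ) ≤ 20 * (4 * (N : ℝ) ^ 54) := mul_le_mul_of_nonneg_left hm (by norm_num)
      _ = 80 * (N : ℝ) ^ 54 := by ring
      _ ≤ N * (N : ℝ) ^ 54 := mul_le_mul_of_nonneg_right (le_trans (by norm_num) hN) (by positivity)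
      _ = (N : ℝ) ^ 55 := by ring
  have hgN : g ≤ (N : ℝ) ^ 554 := by
    rw [hg]
    unfold Gam
    push_cast
    calc 2 * ((20 * (mT N : ℝ)) ^ 10 * (2 * (N : ℝ) ^ 3)) ≤ 2 * (((N : ℝ) ^ 55) ^ 10 * (2 * (N : ℝ) ^ 3)) := by
          have h1 := pow_le_pow_left₀ (by positivity) h20 10
          have h2 := mul_le_mul_of_nonneg_right h1 (show (0 : ℝ) ≤ 2 * (N : ℝ) ^ 3 by positivity)
          linarith
      _ = 4 * (N : ℝ) ^ 553 := by ring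
      _ ≤ N * (N : ℝ) ^ 553 := mul_le_mul_of_nonneg_right (le_trans (by norm_num) hN) (by positivity)
      _ = (N : ℝ) ^ 554 := by ring
  have hsN : (N : ℝ) ^ 20000 ≤ Real.sqrt Δ := by
    refine Real.le_sqrt_of_sq_le ?_
    have h1 : ((N : ℝ) ^ 20000) ^ 2 = (N : ℝ) ^ 40000 := by rw [← pow_mul]
    rw [h1]
    exact hΔN
  have hgs : g ≤ Real.sqrt Δ := hgN.trans ((pow_le_pow_right₀ hN1 (by norm_num)).trans hsN)
  have hr0 : 0 ≤ g / Real.sqrt Δ := div_nonneg hg0 hsq.le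
  have hr1 : g / Real.sqrt Δ ≤ 1 := (div_le_one hsq).2 hgs
  have hk : g ^ (k + 1) / Real.sqrt Δ ^ (k + 1) ≤ g / Real.sqrt Δ := by
    rw [← div_pow]
    calc (g / Real.sqrt Δ) ^ (k + 1) ≤ (g / Real.sqrt Δ) ^ 1 := pow_le_pow_of_le_one hr0 hr1 (by omega)
      _ = g / Real.sqrt Δ := pow_one _
  have hs : (N : ℝ) ^ 2000 ≤ (Δ : ℝ) ^ ((1 : ℝ) / 20) := by
    have h1 : ((N : ℝ) ^ 40000) ^ ((1 : ℝ) / 20) ≤ (Δ : ℝ) ^ ((1 : ℝ) / 20) :=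
      Real.rpow_le_rpow (by positivity) hΔN (by norm_num)
    refine le_trans (le_of_eq ?_) h1
    rw [← Real.rpow_natCast (N : ℝ) 40000, ← Real.rpow_mul hN0.le, ← Real.rpow_natCast (N : ℝ) 2000]
    norm_num
  have he : (Δ : ℝ) ^ (-(9 : ℝ) / 20) = (Δ : ℝ) ^ ((1 : ℝ) / 20) / Real.sqrt Δ := by
    rw [Real.sqrt_eq_rpow, ← Real.rpow_sub hΔ0]
    norm_num
  rw [he]
  push_cast
  calc 8 * (mT N : ℝ) * (2 * (N : ℝ) ^ 3 * (g ^ (k + 1) / Real.sqrt Δ ^ (k + 1))) ≤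
      8 * (mT N : ℝ) * (2 * (N : ℝ) ^ 3 * (g / Real.sqrt Δ)) := by gcongr
    _ = 16 * (mT N : ℝ) * (N : ℝ) ^ 3 * g / Real.sqrt Δ := by ring
    _ ≤ 16 * (4 * (N : ℝ) ^ 54) * (N : ℝ) ^ 3 * (N : ℝ) ^ 554 / Real.sqrt Δ := by gcongr
    _ = 64 * (N : ℝ) ^ 611 / Real.sqrt Δ := by ring
    _ ≤ (Δ : ℝ) ^ ((1 : ℝ) / 20) / Real.sqrt Δ / 100 := by
        rw [div_div, mul_comm (Real.sqrt Δ) 100, ← div_div]
        refine div_le_div_of_nonneg_right ?_ hsq.le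
        rw [le_div_iff₀ (by norm_num)]
        calc 64 * (N : ℝ) ^ 611 * 100 = 6400 * (N : ℝ) ^ 611 := by ring
          _ ≤ N * (N : ℝ) ^ 611 := mul_le_mul_of_nonneg_right (le_trans (by norm_num) hN) (by positivity)
          _ = (N : ℝ) ^ 612 := by ring
          _ ≤ (N : ℝ) ^ 2000 := pow_le_pow_right₀ hN1 (by norm_num)
          _ ≤ _ := hs

theorem h6c {N : ℕ} (hP : Pm N Δ) (hG : Reg G Δ) (hgap : Gap G N Δ) (t t' : Ty N) (k : ℕ) (hk : k < 6)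
    (v w : V) (h : v ≠ w) : |mu G Δ (2 * N ^ 3) t t' (ps G Δ (2 * N ^ 3) k t t')
      (ps G Δ (2 * N ^ 3) k t' t) v w| ≤ (Δ : ℝ) ^ (-(9 : ℝ) / 20) / 100 := by
  have hΔ : 0 < Δ := by exact_mod_cast nΔ0 hP
  have hΔ0 := nΔ0 hP
  have hK : N ^ 3 ≤ 2 * N ^ 3 := by omega
  have hK2 : Even (2 * N ^ 3) := even_two_mul _
  have h1 := ps_Fl hP hG hgap (2 * N ^ 3) hK hK2 k (by omega) t t'
  have h2 := ps_Fl hP hG hgap (2 * N ^ 3) hK hK2 k (by omega) t' t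
  rw [card_Ty] at h1 h2
  have hG0 : 0 ≤ 2 * Gam (mT N) (2 * N ^ 3) := by
    unfold Gam
    positivity
  have hx : 0 ≤ (2 * Gam (mT N) (2 * N ^ 3)) ^ (k + 1) / Real.sqrt Δ ^ (k + 1) := by positivity
  have hy : 0 ≤ (2 * Gam (mT N) (2 * N ^ 3)) ^ (k + 1) := pow_nonneg hG0 _
  have a1 := fA_Af hΔ hG (2 * N ^ 3) _ _ _ _ _ _ hx hy h1 h2
  have a2 := fA_Af hΔ hG (2 * N ^ 3) _ _ _ _ _ _ hx hy h2 h1
  have h3 := mu_bd hΔ (2 * N ^ 3) _ _ t t' _ _ _ _ (mul_nonneg (Nat.cast_nonneg _) hx) a1 a2 v w h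
  rw [card_Ty] at h3
  exact h3.trans (G6c_num hP k)

end Pool.Agent.H2.LN.HH
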