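/-
ROW Gwt. The weights.
PROOF. `K = 2 N ^ 3`, `A k v = fA (ps k t t') (ps k t' t) v χ`, `B k w = fA (ps k t' t) (ps k t t') w χ`, `M k v w = mu t t' (ps k t t') (ps k t' t) v w`, `c0 = mT N * d0 N Δ / Δ`, `Y v w := c0 (1 + ∑ k ∈ range 6, (A k v + B k w - M k v w))`. Define `y u v := if χ u = t ∧ χ v = t' then Y u v else if χ u = t' ∧ χ v = t then Y v u else 0`; symmetric since `t ≠ t'`.
Bounds: `d0 = ⌊(Δ / m)(1 - Δ ^ (-2/5))⌋₊`, so `1 - Δ ^ (-2/5) - m / Δ ≤ c0 ≤ 1 - Δ ^ (-2/5)`; `|∑ ..| ≤ 18 Δ ^ (-9/20) / 100` (`h2` for `(t, t')` and `(t', t)`, `h6c` (adjacent vertices are different)); so `Y ≤ 1 - Δ ^ (-2/5) + (18/100) Δ ^ (-9/20) ≤ 1 - Δ ^ (-2/5) / 2` and `Y ≥ 1/2` (`Δ` is huge: `N ^ 16000 ≤ Δ ^ (2/5)`, `m ≤ 4 N ^ 54`, `nmT` in `H64/LN/Bnm`).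
Degrees, `χ v = t`: `ident` with `n = 6` (`K` even): `PM v w (1 + om t' w χ) = m / Δ` if `w` is adjacent to `v` and `χ w = t'`, else `0` (`card_Ty`: `m = mT N`), so `(m / Δ) ∑ over these w of (1 + ∑ ..) = 1 - ps 6 t t' v χ`, hence `∑ y v w = d0 (1 - ps 6 t t' v χ)`, and `|d0 ps 6| ≤ Δ Δ ^ (-33/10) = Δ ^ (-23/10)` (`h1`; `d0 ≤ Δ`). `χ v = t'`: `ident` with `t, t'` exchanged (`χ v = t'`): its summand is `fA (ps k t' t) (ps k t t') v + fA (ps k t t') (ps k t' t) w - mu t' t (ps k t' t) (ps k t t') v w`, and `mu_sy` turns the last into `M k w v`.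
-/
import Pool.Agent.H2.LN.HD
import Pool.Agent.H2.LN.H.Tid
import Pool.Agent.H2.LN.H.Tsy
import Pool.Agent.H2.LN.H.G6c

set_option autoImplicit false
set_option linter.unusedSectionVars false

namespace Pool.Agent.H2.LN.HH

open Finset Classical
open Pool.Agent.H65.GI Pool.Agent.H64.LN

variable {V T : Type} [Fintype V] [Fintype T] [Nonempty T]
variable {G : SimpleGraph V} {Δ : ℕ}

/-- the sum of the six corrections -/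
noncomputable def Gwt_S (G : SimpleGraph V) (Δ : ℕ) {N : ℕ} (χ : V → Ty N) (t t' : Ty N) (v w : V) : ℝ :=
  ∑ k ∈ range 6, (fA G Δ (2 * N ^ 3) (ps G Δ (2 * N ^ 3) k t t') (ps G Δ (2 * N ^ 3) k t' t) v χ +
    fA G Δ (2 * N ^ 3) (ps G Δ (2 * N ^ 3) k t' t) (ps G Δ (2 * N ^ 3) k t t') w χ -
    mu G Δ (2 * N ^ 3) t t' (ps G Δ (2 * N ^ 3) k t t') (ps G Δ (2 * N ^ 3) k t' t) v w)

theorem Gwt_swap {N : ℕ} (χ : V → Ty N) (t t' : Ty N) (v w : V) (h : v ≠ w) :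
    Gwt_S G Δ χ t t' w v = Gwt_S G Δ χ t' t v w := by
  unfold Gwt_S
  refine Finset.sum_congr rfl (fun k _ => ?_)
  rw [mu_sy (2 * N ^ 3) t t' (ps G Δ (2 * N ^ 3) k t t') (ps G Δ (2 * N ^ 3) k t' t) w v h.symm]
  ring

theorem Gwt_a {N : ℕ} (hP : Pm N Δ) : 0 < (Δ : ℝ) ^ (-(2 : ℝ) / 5) ∧
    (Δ : ℝ) ^ (-(2 : ℝ) / 5) ≤ 1 / 100 ∧ 0 < (Δ : ℝ) ^ (-(9 : ℝ) / 20) ∧
    (Δ : ℝ) ^ (-(9 : ℝ) / 20) ≤ (Δ : ℝ) ^ (-(2 : ℝ) / 5) ∧ (mT N : ℝ) / Δ ≤ 1 / 100 := by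
  have hΔ0 := nΔ0 hP
  have hN1 := nN1 hP
  have hN := nN hP
  refine ⟨Real.rpow_pos_of_pos hΔ0 _, ?_, Real.rpow_pos_of_pos hΔ0 _, ?_, ?_⟩
  · obtain ⟨t, ht0, -, ht, he, -, -⟩ := ntex hP
    rw [he]
    have h1 : (100 : ℝ) ≤ t := by
      calc (100 : ℝ) ≤ N := le_trans (by norm_num) hN
        _ = (N : ℝ) ^ 1 := (pow_one _).symm
        _ ≤ (N : ℝ) ^ 4000 := pow_le_pow_right₀ hN1 (by norm_num)
        _ ≤ t := ht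
    have h2 : (100 : ℝ) ≤ t ^ 4 := by
      calc (100 : ℝ) ≤ 100 ^ 4 := by norm_num
        _ ≤ t ^ 4 := pow_le_pow_left₀ (by norm_num) h1 4
    exact one_div_le_one_div_of_le (by norm_num) h2
  · exact Real.rpow_le_rpow_of_exponent_le (nΔ1 hP) (by norm_num)
  · rw [div_le_iff₀ hΔ0]
    have h1 := (nmT hP).2
    have h2 : 400 * (N : ℝ) ^ 54 ≤ Δ := by
      calc 400 * (N : ℝ) ^ 54 ≤ N * (N : ℝ) ^ 54 :=
            mul_le_mul_of_nonneg_right (le_trans (by norm_num) hN) (by positivity)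
        _ = (N : ℝ) ^ 55 := by ring
        _ ≤ (N : ℝ) ^ 40000 := pow_le_pow_right₀ hN1 (by norm_num)
        _ ≤ Δ := nΔN hP
    linarith

theorem Gwt_d {N : ℕ} (hP : Pm N Δ) :
    (mT N : ℝ) * d0 N Δ / Δ ≤ 1 - (Δ : ℝ) ^ (-(2 : ℝ) / 5) ∧
    1 - (Δ : ℝ) ^ (-(2 : ℝ) / 5) - (mT N : ℝ) / Δ ≤ (mT N : ℝ) * d0 N Δ / Δ ∧ (d0 N Δ : ℝ) ≤ Δ := by
  obtain ⟨ha0, ha1, -, -, hm⟩ := Gwt_a hP
  have hΔ0 := nΔ0 hP
  have hm0 := nmT0 hP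
  have hX : 0 ≤ (Δ : ℝ) / mT N * (1 - (Δ : ℝ) ^ (-(2 : ℝ) / 5)) :=
    mul_nonneg (by positivity) (by linarith)
  have h1 : (d0 N Δ : ℝ) ≤ (Δ : ℝ) / mT N * (1 - (Δ : ℝ) ^ (-(2 : ℝ) / 5)) := Nat.floor_le hX
  have h2 : (Δ : ℝ) / mT N * (1 - (Δ : ℝ) ^ (-(2 : ℝ) / 5)) < (d0 N Δ : ℝ) + 1 :=
    Nat.lt_floor_add_one _
  have h3 : (mT N : ℝ) * d0 N Δ / Δ ≤ 1 - (Δ : ℝ) ^ (-(2 : ℝ) / 5) := by
    rw [div_le_iff₀ hΔ0]
    calc (mT N : ℝ) * d0 N Δ ≤ mT N * ((Δ : ℝ) / mT N * (1 - (Δ : ℝ) ^ (-(2 : ℝ) / 5))) :=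
          mul_le_mul_of_nonneg_left h1 hm0.le
      _ = (1 - (Δ : ℝ) ^ (-(2 : ℝ) / 5)) * Δ := by
          field_simp
  refine ⟨h3, ?_, ?_⟩
  · rw [le_div_iff₀ hΔ0]
    have h4 : (1 - (Δ : ℝ) ^ (-(2 : ℝ) / 5) - (mT N : ℝ) / Δ) * Δ =
        mT N * ((Δ : ℝ) / mT N * (1 - (Δ : ℝ) ^ (-(2 : ℝ) / 5)) - 1) := by
      field_simp
    rw [h4]
    exact mul_le_mul_of_nonneg_left (by linarith) hm0.le
  · have h5 : (1 : ℝ) ≤ mT N := le_trans (one_le_pow₀ (nN1 hP)) (nmT hP).1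
    have h6 : (Δ : ℝ) / mT N ≤ Δ := div_le_self hΔ0.le h5
    have h7 : (Δ : ℝ) / mT N * (1 - (Δ : ℝ) ^ (-(2 : ℝ) / 5)) ≤ (Δ : ℝ) / mT N * 1 :=
      mul_le_mul_of_nonneg_left (by linarith) (by positivity)
    linarith

theorem Gwt_deg {N : ℕ} (hP : Pm N Δ) (hG : Reg G Δ) (χ : V → Ty N)
    (h1 : ∀ v t t', |ps G Δ (2 * N ^ 3) 6 t t' v χ| ≤ (Δ : ℝ) ^ (-(33 : ℝ) / 10)) (t t' : Ty N)
    (v : V) (hv : χ v = t) (yy : V → ℝ)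
    (hy : ∀ w, G.Adj v w → χ w = t' → yy w = (mT N : ℝ) * d0 N Δ / Δ * (1 + Gwt_S G Δ χ t t' v w)) :
    |(∑ u ∈ univ.filter (fun u => G.Adj v u ∧ χ u = t'), yy u) - d0 N Δ| ≤
      (Δ : ℝ) ^ (-(23 : ℝ) / 10) := by
  have hΔ0 := nΔ0 hP
  have hΔn : 0 < Δ := by exact_mod_cast hΔ0
  have hm0 := nmT0 hP
  have hid := ident (G := G) (T := Ty N) hΔn hG (2 * N ^ 3) (even_two_mul _) 6 t t' χ v hv
  have hsum : (∑ u ∈ univ.filter (fun u => G.Adj v u ∧ χ u = t'), yy u) =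
      d0 N Δ * (1 - ps G Δ (2 * N ^ 3) 6 t t' v χ) := by
    rw [← hid, Finset.mul_sum, Finset.sum_filter]
    refine Finset.sum_congr rfl (fun w _ => ?_)
    by_cases hw : G.Adj v w
    · by_cases hc : χ w = t'
      · rw [if_pos ⟨hw, hc⟩, hy w hw hc]
        have e1 : PM G Δ v w = 1 / (Δ : ℝ) := by
          unfold PM
          rw [if_pos hw]
        have e2 : 1 + om t' w χ = (mT N : ℝ) := by
          unfold om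
          rw [if_pos hc, card_Ty]
          ring
        rw [e1, e2]
        unfold Gwt_S
        field_simp
      · rw [if_neg (fun h => hc h.2)]
        have e2 : 1 + om t' w χ = 0 := by
          unfold om
          rw [if_neg hc]
          ring
        rw [e2]
        ring
    · rw [if_neg (fun h => hw h.1)]
      have e1 : PM G Δ v w = 0 := by
        unfold PM
        rw [if_neg hw]
      rw [e1]
      ring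
  rw [hsum]
  have h3 : (d0 N Δ : ℝ) * (1 - ps G Δ (2 * N ^ 3) 6 t t' v χ) - d0 N Δ =
      -(d0 N Δ * ps G Δ (2 * N ^ 3) 6 t t' v χ) := by ring
  rw [h3, abs_neg, abs_mul, abs_of_nonneg (Nat.cast_nonneg _)]
  calc (d0 N Δ : ℝ) * |ps G Δ (2 * N ^ 3) 6 t t' v χ| ≤ Δ * (Δ : ℝ) ^ (-(33 : ℝ) / 10) :=
        mul_le_mul (Gwt_d hP).2.2 (h1 v t t') (abs_nonneg _) hΔ0.le
    _ = (Δ : ℝ) ^ (1 : ℝ) * (Δ : ℝ) ^ (-(33 : ℝ) / 10) := by rw [Real.rpow_one]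
    _ = (Δ : ℝ) ^ (-(23 : ℝ) / 10) := by
        rw [← Real.rpow_add hΔ0]
        norm_num

theorem Gwt_bd {N : ℕ} (hP : Pm N Δ) (hG : Reg G Δ) (hgap : Gap G N Δ) (χ : V → Ty N)
    (h2 : ∀ v t t', ∀ k < 6, |fA G Δ (2 * N ^ 3) (ps G Δ (2 * N ^ 3) k t t')
      (ps G Δ (2 * N ^ 3) k t' t) v χ| ≤ (Δ : ℝ) ^ (-(9 : ℝ) / 20) / 100) (t t' : Ty N) (v w : V)
    (h : v ≠ w) : |Gwt_S G Δ χ t t' v w| ≤ 18 * ((Δ : ℝ) ^ (-(9 : ℝ) / 20) / 100) := by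
  unfold Gwt_S
  refine le_trans (Finset.abs_sum_le_sum_abs _ _) ?_
  have hk : ∀ k ∈ range 6, |fA G Δ (2 * N ^ 3) (ps G Δ (2 * N ^ 3) k t t')
      (ps G Δ (2 * N ^ 3) k t' t) v χ +
      fA G Δ (2 * N ^ 3) (ps G Δ (2 * N ^ 3) k t' t) (ps G Δ (2 * N ^ 3) k t t') w χ -
      mu G Δ (2 * N ^ 3) t t' (ps G Δ (2 * N ^ 3) k t t') (ps G Δ (2 * N ^ 3) k t' t) v w| ≤
      3 * ((Δ : ℝ) ^ (-(9 : ℝ) / 20) / 100) := by
    intro k hk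
    rw [Finset.mem_range] at hk
    have a1 := abs_le.mp (h2 v t t' k hk)
    have a2 := abs_le.mp (h2 w t' t k hk)
    have a3 := abs_le.mp (h6c hP hG hgap t t' k hk v w h)
    rw [abs_le]
    constructor <;> linarith [a1.1, a1.2, a2.1, a2.2, a3.1, a3.2]
  refine le_trans (Finset.sum_le_sum hk) ?_
  rw [Finset.sum_const, Finset.card_range, nsmul_eq_mul]
  apply le_of_eq
  push_cast
  ring

/-- the weights -/
theorem wts {N : ℕ} (hP : Pm N Δ) (hG : Reg G Δ) (hgap : Gap G N Δ) (χ : V → Ty N)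
    (h1 : ∀ v t t', |ps G Δ (2 * N ^ 3) 6 t t' v χ| ≤ (Δ : ℝ) ^ (-(33 : ℝ) / 10))
    (h2 : ∀ v t t', ∀ k < 6, |fA G Δ (2 * N ^ 3) (ps G Δ (2 * N ^ 3) k t t')
      (ps G Δ (2 * N ^ 3) k t' t) v χ| ≤ (Δ : ℝ) ^ (-(9 : ℝ) / 20) / 100) (t t' : Ty N) (ht : t ≠ t') :
    ∃ y : V → V → ℝ, (∀ u v, y u v = y v u) ∧
    (∀ u v, G.Adj u v → χ u = t → χ v = t' → 1 / 2 ≤ y u v ∧ y u v ≤ 1 - (Δ : ℝ) ^ (-(2 : ℝ) / 5) / 2) ∧
    (∀ v, χ v = t → |(∑ u ∈ univ.filter (fun u => G.Adj v u ∧ χ u = t'), y v u) - d0 N Δ| ≤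
      (Δ : ℝ) ^ (-(23 : ℝ) / 10)) ∧
    ∀ v, χ v = t' → |(∑ u ∈ univ.filter (fun u => G.Adj v u ∧ χ u = t), y v u) - d0 N Δ| ≤
      (Δ : ℝ) ^ (-(23 : ℝ) / 10) := by
  obtain ⟨ha0, ha1, hb0, hba, hmΔ⟩ := Gwt_a hP
  obtain ⟨hc1, hc2, -⟩ := Gwt_d hP
  have hy1 : ∀ u v : V, χ u = t → χ v = t' →
      (if χ u = t ∧ χ v = t' then (mT N : ℝ) * d0 N Δ / Δ * (1 + Gwt_S G Δ χ t t' u v)
        else if χ u = t' ∧ χ v = t then (mT N : ℝ) * d0 N Δ / Δ * (1 + Gwt_S G Δ χ t t' v u)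
        else 0) = (mT N : ℝ) * d0 N Δ / Δ * (1 + Gwt_S G Δ χ t t' u v) := by
    intro u v hu hv
    rw [if_pos ⟨hu, hv⟩]
  have hy2 : ∀ u v : V, χ u = t' → χ v = t →
      (if χ u = t ∧ χ v = t' then (mT N : ℝ) * d0 N Δ / Δ * (1 + Gwt_S G Δ χ t t' u v)
        else if χ u = t' ∧ χ v = t then (mT N : ℝ) * d0 N Δ / Δ * (1 + Gwt_S G Δ χ t t' v u)
        else 0) = (mT N : ℝ) * d0 N Δ / Δ * (1 + Gwt_S G Δ χ t t' v u) := by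
    intro u v hu hv
    rw [if_neg (fun h => ht (h.1.symm.trans hu)), if_pos ⟨hu, hv⟩]
  refine ⟨fun u v => if χ u = t ∧ χ v = t' then (mT N : ℝ) * d0 N Δ / Δ * (1 + Gwt_S G Δ χ t t' u v)
      else if χ u = t' ∧ χ v = t then (mT N : ℝ) * d0 N Δ / Δ * (1 + Gwt_S G Δ χ t t' v u) else 0,
    ?_, ?_, ?_, ?_⟩
  · intro u v
    by_cases hA : χ u = t ∧ χ v = t'
    · exact (hy1 u v hA.1 hA.2).trans (hy2 v u hA.2 hA.1).symm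
    · by_cases hB : χ u = t' ∧ χ v = t
      · exact (hy2 u v hB.1 hB.2).trans (hy1 v u hB.2 hB.1).symm
      · show (if χ u = t ∧ χ v = t' then _ else if χ u = t' ∧ χ v = t then _ else (0 : ℝ)) =
          (if χ v = t ∧ χ u = t' then _ else if χ v = t' ∧ χ u = t then _ else (0 : ℝ))
        rw [if_neg hA, if_neg hB, if_neg (fun h => hB ⟨h.2, h.1⟩), if_neg (fun h => hA ⟨h.2, h.1⟩)]
  · intro u v huv hu hv
    show 1 / 2 ≤ (if χ u = t ∧ χ v = t' then _ else if χ u = t' ∧ χ v = t then _ else (0 : ℝ)) ∧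
      (if χ u = t ∧ χ v = t' then _ else if χ u = t' ∧ χ v = t then _ else (0 : ℝ)) ≤ _
    rw [hy1 u v hu hv]
    have hS := abs_le.mp (Gwt_bd hP hG hgap χ h2 t t' u v huv.ne)
    constructor
    · nlinarith [hS.1, hS.2]
    · nlinarith [hS.1, hS.2]
  · intro v hv
    exact Gwt_deg hP hG χ h1 t t' v hv _ (fun w _ hw => hy1 v w hv hw)
  · intro v hv
    refine Gwt_deg hP hG χ h1 t' t v hv _ (fun w hvw hw => (hy2 v w hv hw).trans ?_)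
    rw [Gwt_swap χ t t' v w hvw.ne]

end Pool.Agent.H2.LN.HH
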