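/-
ROW Hc. Cross terms.
PROOF. (1) If `X` does not depend on the type of `u` (`∀ χ t, X (update χ u t) = X χ`), `Loc p {u}`, `ex p = 0`, then `ex (p X) = ex (Ea u p * X) = 0`: `Ea u p` is constant (local to `∅`) with mean `0`. (2) `|ex (p q (X Y))| ≤ M ^ 2 nm X nm Y`: `cs` for `X` and `p q Y`, `nm (p q Y) ≤ M ^ 2 nm Y` (`nm_le_of_abs`, `nm_smul`; `M ≥ 0`).
`F = F11 + F10 + F01 + F00` with `F11 = Da u (Da v F)`, `F10 = Ea v (Da u F)`, `F01 = Ea u (Da v F)`, `F00 = Ea u (Ea v F)`.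
`F11`: (2) gives the first term. `F10`: `G = Ea v G + Da v G`; `ex (p q F10 Ea v G) = 0` by (1) for `q` at `v` (the other factors do not depend on `v`; `p` is local to `{u}`, `u ≠ v`); the rest: (2), `nm F10 ≤ nm (Da u F)`. `F01`: the same with `u`, `v` exchanged. `F00`: `G = Ea u G + Da u G`, `Da u G = Ea v (Da u G) + Da v (Da u G)`; the first two parts give `0` by (1) (at `u`, at `v`; `Ea v (Da u G)` does not depend on `v`), the last: (2) with `nm F00 ≤ nm F` and `Da_cm`.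
-/
import Pool.Agent.H2.LN.HD
import Pool.Agent.H2.LN.H.Hx

set_option autoImplicit false
set_option linter.unusedSectionVars false

namespace Pool.Agent.H2.LN.HH

open Finset Classical
open Pool.Agent.H65.GI Pool.Agent.H64.LN

variable {V T : Type} [Fintype V] [Fintype T] [Nonempty T]

private theorem Hc_loc (u : V) (p : Fn V T) (hp : Loc p {u}) (a : V) (ha : a ≠ u) (χ : V → T) (t : T) :
    p (Function.update χ a t) = p χ := by
  refine hp _ _ fun i hi => ?_
  have h1 : i = u := Finset.mem_singleton.1 hi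
  rw [h1, Function.update_of_ne (fun h => ha h.symm)]

private theorem Hc_con (u : V) (p : Fn V T) (hp : Loc p {u}) (hp0 : ex p = 0) : Ea u p = fun _ => 0 := by
  have hne : Nonempty (V → T) := inferInstance
  obtain ⟨χ0⟩ := hne
  have h1 : Ea u p = fun _ => Ea u p χ0 := by
    funext χ
    show (∑ t, p (Function.update χ u t)) / (Fintype.card T : ℝ) =
      (∑ t, p (Function.update χ0 u t)) / (Fintype.card T : ℝ)
    congr 1
    refine Finset.sum_congr rfl fun t _ => hp _ _ fun i hi => ?_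
    have h2 : i = u := Finset.mem_singleton.1 hi
    rw [h2, Function.update_self, Function.update_self]
  have h3 : ex (Ea u p) = 0 := by rw [ex_Ea, hp0]
  rw [h1, ex_const] at h3
  rw [h1, h3]

private theorem Hc_z (u : V) (p X : Fn V T) (hp : Loc p {u}) (hp0 : ex p = 0)
    (hX : ∀ χ t, X (Function.update χ u t) = X χ) : ex (fun χ => p χ * X χ) = 0 := by
  rw [← ex_Ea u (fun χ => p χ * X χ), Ea_mul u p X hX, Hc_con u p hp hp0]
  have h : (fun χ : V → T => (fun _ : V → T => (0 : ℝ)) χ * X χ) = fun _ => 0 := by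
    funext χ
    exact zero_mul _
  rw [h, ex_const]

private theorem Hc_b (p q : Fn V T) (M : ℝ) (hM : ∀ χ, |p χ| ≤ M) (hM' : ∀ χ, |q χ| ≤ M) (X Y : Fn V T) :
    |ex (fun χ => p χ * q χ * (X χ * Y χ))| ≤ M ^ 2 * (nm X * nm Y) := by
  have h1 : (fun χ => p χ * q χ * (X χ * Y χ)) = fun χ => X χ * (p χ * q χ * Y χ) := by
    funext χ
    ring
  rw [h1]
  refine (cs X (fun χ => p χ * q χ * Y χ)).trans ?_
  have h2 : nm (fun χ => p χ * q χ * Y χ) ≤ nm (fun χ => M ^ 2 * Y χ) := by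
    refine nm_le_of_abs _ _ fun χ => ?_
    rw [abs_mul, abs_mul, abs_mul, abs_pow]
    refine mul_le_mul_of_nonneg_right ?_ (abs_nonneg _)
    have h3 : M ≤ |M| := le_abs_self M
    rw [pow_two]
    exact mul_le_mul ((hM χ).trans h3) ((hM' χ).trans h3) (abs_nonneg _) (abs_nonneg _)
  rw [nm_smul, abs_of_nonneg (sq_nonneg M)] at h2
  calc nm X * nm (fun χ => p χ * q χ * Y χ) ≤ nm X * (M ^ 2 * nm Y) :=
        mul_le_mul_of_nonneg_left h2 (nm_nn X)
    _ = M ^ 2 * (nm X * nm Y) := by ring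

private theorem Hc_mix (u v : V) (huv : u ≠ v) (p q : Fn V T) (hp : Loc p {u}) (hq : Loc q {v})
    (hq0 : ex q = 0) (M : ℝ) (hM : ∀ χ, |p χ| ≤ M) (hM' : ∀ χ, |q χ| ≤ M) (F G : Fn V T) :
    |ex (fun χ => p χ * q χ * (Ea v (Da u F) χ * G χ))| ≤ M ^ 2 * (nm (Da u F) * nm (Da v G)) := by
  have h1 : (fun χ => p χ * q χ * (Ea v (Da u F) χ * G χ)) =
      fun χ => q χ * (p χ * Ea v (Da u F) χ * Ea v G χ) + p χ * q χ * (Ea v (Da u F) χ * Da v G χ) := by
    funext χ
    show p χ * q χ * (Ea v (Da u F) χ * G χ) =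
      q χ * (p χ * Ea v (Da u F) χ * Ea v G χ) + p χ * q χ * (Ea v (Da u F) χ * (G χ - Ea v G χ))
    ring
  have h2 : ex (fun χ => q χ * (p χ * Ea v (Da u F) χ * Ea v G χ)) = 0 := by
    refine Hc_z v q (fun χ => p χ * Ea v (Da u F) χ * Ea v G χ) hq hq0 fun χ t => ?_
    show p (Function.update χ v t) * Ea v (Da u F) (Function.update χ v t) * Ea v G (Function.update χ v t) = _
    rw [Ea_up, Ea_up, Hc_loc u p hp v (fun h => huv h.symm)]
  rw [h1, ex_add, h2, zero_add]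
  refine (Hc_b p q M hM hM' _ _).trans ?_
  refine mul_le_mul_of_nonneg_left ?_ (sq_nonneg M)
  exact mul_le_mul_of_nonneg_right (nm_Ea v _) (nm_nn _)

theorem crs (u v : V) (huv : u ≠ v) (p q : Fn V T) (hp : Loc p {u}) (hq : Loc q {v}) (hp0 : ex p = 0)
    (hq0 : ex q = 0) (M : ℝ) (hM : ∀ χ, |p χ| ≤ M) (hM' : ∀ χ, |q χ| ≤ M) (F G : Fn V T) :
    |ex (fun χ => p χ * q χ * (F χ * G χ))| ≤ M ^ 2 * (nm (Da u (Da v F)) * nm G +
      nm (Da u F) * nm (Da v G) + nm (Da v F) * nm (Da u G) + nm F * nm (Da u (Da v G))) := by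
  have e0 : (fun χ => p χ * q χ * (F χ * G χ)) = fun χ =>
      ((p χ * q χ * (Da u (Da v F) χ * G χ) + p χ * q χ * (Ea v (Da u F) χ * G χ)) +
        p χ * q χ * (Ea u (Da v F) χ * G χ)) + p χ * q χ * (Ea u (Ea v F) χ * G χ) := by
    funext χ
    have h1 : Ea v (Da u F) χ = Ea v F χ - Ea u (Ea v F) χ := by
      rw [ED_cm]
      rfl
    have h2 : Da u (Da v F) χ = F χ - Ea v F χ - Ea u (Da v F) χ := rfl
    rw [h1, h2]
    ring
  have b1 := Hc_b p q M hM hM' (Da u (Da v F)) G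
  have b2 := Hc_mix u v huv p q hp hq hq0 M hM hM' F G
  have b3 := Hc_mix v u huv.symm q p hq hp hp0 M hM' hM F G
  have e3 : (fun χ => q χ * p χ * (Ea u (Da v F) χ * G χ)) =
      fun χ => p χ * q χ * (Ea u (Da v F) χ * G χ) := by
    funext χ
    ring
  rw [e3] at b3
  have b4 : |ex (fun χ => p χ * q χ * (Ea u (Ea v F) χ * G χ))| ≤ M ^ 2 * (nm F * nm (Da u (Da v G))) := by
    have h1 : (fun χ => p χ * q χ * (Ea u (Ea v F) χ * G χ)) = fun χ =>
        (p χ * (q χ * Ea u (Ea v F) χ * Ea u G χ) + q χ * (p χ * Ea u (Ea v F) χ * Ea v (Da u G) χ)) +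
          p χ * q χ * (Ea u (Ea v F) χ * Da v (Da u G) χ) := by
      funext χ
      have h2 : Da v (Da u G) χ = G χ - Ea u G χ - Ea v (Da u G) χ := rfl
      rw [h2]
      ring
    have h3 : ex (fun χ => p χ * (q χ * Ea u (Ea v F) χ * Ea u G χ)) = 0 := by
      refine Hc_z u p (fun χ => q χ * Ea u (Ea v F) χ * Ea u G χ) hp hp0 fun χ t => ?_
      show q (Function.update χ u t) * Ea u (Ea v F) (Function.update χ u t) * Ea u G (Function.update χ u t) = _
      rw [Ea_up, Ea_up, Hc_loc v q hq u huv]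
    have h4 : ex (fun χ => q χ * (p χ * Ea u (Ea v F) χ * Ea v (Da u G) χ)) = 0 := by
      refine Hc_z v q (fun χ => p χ * Ea u (Ea v F) χ * Ea v (Da u G) χ) hq hq0 fun χ t => ?_
      show p (Function.update χ v t) * Ea u (Ea v F) (Function.update χ v t) *
        Ea v (Da u G) (Function.update χ v t) = _
      rw [Ea_cm u v, Ea_up, Ea_up, Hc_loc u p hp v (fun h => huv h.symm)]
    rw [h1, ex_add, ex_add, h3, h4, zero_add, zero_add]
    refine (Hc_b p q M hM hM' _ _).trans ?_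
    refine mul_le_mul_of_nonneg_left ?_ (sq_nonneg M)
    rw [Da_cm v u]
    exact mul_le_mul_of_nonneg_right ((nm_Ea u _).trans (nm_Ea v _)) (nm_nn _)
  rw [e0, ex_add, ex_add, ex_add]
  have t1 := abs_add_le (ex (fun χ => p χ * q χ * (Da u (Da v F) χ * G χ)) +
    ex (fun χ => p χ * q χ * (Ea v (Da u F) χ * G χ)) + ex (fun χ => p χ * q χ * (Ea u (Da v F) χ * G χ)))
    (ex (fun χ => p χ * q χ * (Ea u (Ea v F) χ * G χ)))
  have t2 := abs_add_le (ex (fun χ => p χ * q χ * (Da u (Da v F) χ * G χ)) +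
    ex (fun χ => p χ * q χ * (Ea v (Da u F) χ * G χ))) (ex (fun χ => p χ * q χ * (Ea u (Da v F) χ * G χ)))
  have t3 := abs_add_le (ex (fun χ => p χ * q χ * (Da u (Da v F) χ * G χ)))
    (ex (fun χ => p χ * q χ * (Ea v (Da u F) χ * G χ)))
  linarith

end Pool.Agent.H2.LN.HH
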