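/-
ROW Hi. Averaging a field.
PROOF. `Pf G Δ i f v χ = ∑ w, (PM ^ i) v w * f w χ`; `Da a (Pf G Δ i f v) = ∑ w, (PM ^ i) v w * Da a (f w)` (`Da_sum`, scalar rule). `n1`: `nm_sum`, `nm_smul`, `PMk_nn`, `PMk_row`. `n2`: `nm (Da a (Pf v)) ≤ ∑ w, (PM ^ i) v w nm (Da a (f w))`, then `PMk_l2` with `g w = nm (Da a (f w))`. `s1`: interchange the sums, `PMk_row`. `s2`: interchange, column sums by `PMk_symm`, `PMk_row`.
-/
import Pool.Agent.H2.LN.HD
import Pool.Agent.H2.LN.H.Hx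

set_option autoImplicit false
set_option linter.unusedSectionVars false

namespace Pool.Agent.H2.LN.HH

open Finset Classical
open Pool.Agent.H65.GI Pool.Agent.H64.LN

variable {V T : Type} [Fintype V] [Fintype T] [Nonempty T]
variable {G : SimpleGraph V} {Δ : ℕ}

private theorem Hi_Dc (a : V) (c : ℝ) (F : Fn V T) :
    Da a (fun χ => c * F χ) = fun χ => c * Da a F χ := by
  funext χ
  simp only [Da, Ea, ← Finset.mul_sum]
  ring

private theorem Hi_DP (a v : V) (i : ℕ) (f : V → Fn V T) :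
    Da a (Pf G Δ i f v) = fun χ => ∑ w, (PM G Δ ^ i) v w * Da a (f w) χ := by
  have h1 := Da_sum (T := T) a univ (fun w => fun χ => (PM G Δ ^ i) v w * f w χ)
  simp only [Hi_Dc] at h1
  exact h1

private theorem Hi_nD (a v : V) (i : ℕ) (f : V → Fn V T) :
    nm (Da a (Pf G Δ i f v)) ≤ ∑ w, (PM G Δ ^ i) v w * nm (Da a (f w)) := by
  rw [Hi_DP]
  refine (nm_sum univ (fun w => fun χ => (PM G Δ ^ i) v w * Da a (f w) χ)).trans ?_
  refine Finset.sum_le_sum (fun w _ => ?_)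
  rw [nm_smul, abs_of_nonneg (PMk_nn G Δ i v w)]

/-- averaging a field: influences -/
theorem Pf_inf (hΔ : 0 < Δ) (hG : Reg G Δ) (i : ℕ) (f : V → Fn V T) (x y : ℝ) (hx : 0 ≤ x)
    (hf : Bd x y f) : Bd x y (Pf G Δ i f) := by
  constructor
  · intro v
    have h1 := nm_sum univ (fun w => fun χ => (PM G Δ ^ i) v w * f w χ)
    refine (show nm (Pf G Δ i f v) ≤ _ from h1).trans ?_
    have h2 : ∀ w ∈ (univ : Finset V), nm (fun χ => (PM G Δ ^ i) v w * f w χ) ≤
        (PM G Δ ^ i) v w * x := by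
      intro w _
      rw [nm_smul, abs_of_nonneg (PMk_nn G Δ i v w)]
      exact mul_le_mul_of_nonneg_left (hf.n1 w) (PMk_nn G Δ i v w)
    refine (Finset.sum_le_sum h2).trans ?_
    rw [← Finset.sum_mul, PMk_row G Δ hΔ hG, one_mul]
  · intro a
    have h1 : ∀ v ∈ (univ : Finset V), nm (Da a (Pf G Δ i f v)) ^ 2 ≤
        (∑ w, (PM G Δ ^ i) v w * nm (Da a (f w))) ^ 2 := by
      intro v _
      exact pow_le_pow_left₀ (nm_nn _) (Hi_nD a v i f) 2
    exact ((Finset.sum_le_sum h1).trans (PMk_l2 G Δ hΔ hG i (fun w => nm (Da a (f w))))).trans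
      (hf.n2 a)
  · intro v
    refine (Finset.sum_le_sum (fun a _ => Hi_nD a v i f)).trans ?_
    rw [Finset.sum_comm]
    have h2 : ∀ w ∈ (univ : Finset V), ∑ a, (PM G Δ ^ i) v w * nm (Da a (f w)) ≤
        (PM G Δ ^ i) v w * y := by
      intro w _
      rw [← Finset.mul_sum]
      exact mul_le_mul_of_nonneg_left (hf.s1 w) (PMk_nn G Δ i v w)
    refine (Finset.sum_le_sum h2).trans ?_
    rw [← Finset.sum_mul, PMk_row G Δ hΔ hG, one_mul]
  · intro a
    refine (Finset.sum_le_sum (fun v _ => Hi_nD a v i f)).trans ?_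
    rw [Finset.sum_comm]
    have h2 : ∀ w ∈ (univ : Finset V), ∑ v, (PM G Δ ^ i) v w * nm (Da a (f w)) =
        nm (Da a (f w)) := by
      intro w _
      rw [← Finset.sum_mul]
      have h3 : ∑ v, (PM G Δ ^ i) v w = 1 := by
        rw [← PMk_row G Δ hΔ hG i w]
        exact Finset.sum_congr rfl (fun v _ => PMk_symm G Δ i v w)
      rw [h3, one_mul]
    rw [Finset.sum_congr rfl h2]
    exact hf.s2 a

end Pool.Agent.H2.LN.HH
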