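/-
ROW Hm. Products.
PROOF. `hyp` with `r = 2`: `ex (F ^ 4) ≤ ((20 m) ^ d nm F ^ 2) ^ 2`. `nm (F G) ^ 2 = ex (F ^ 2 G ^ 2) ≤ √(ex (F ^ 4)) √(ex (G ^ 4)) ≤ (20 m) ^ d nm F ^ 2 (20 m) ^ d' nm G ^ 2` (`cs` for `F ^ 2`, `G ^ 2`), and `(20 m) ^ (d + d') ≤ ((20 m) ^ (d + d')) ^ 2` (`m ≥ 1`).
`D_mul`: `F = Ea a F + Da a F`; `Da a (Ea a F * G) = Ea a F * Da a G` (`Ea_mul`), so `nm (Da a (F G)) ≤ nm (Da a F * G) + nm (Ea a F * Da a G)` (`nm_Da` for the first, `nm_add`), each by `nm_mul` (`Dg_Da`, `Dg_Ea`), `nm (Ea a F) ≤ nm F`.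
-/
import Pool.Agent.H2.LN.HD
import Pool.Agent.H2.LN.H.Hh
import Pool.Agent.H2.LN.H.Hn

set_option autoImplicit false
set_option linter.unusedSectionVars false

namespace Pool.Agent.H2.LN.HH

open Finset Classical
open Pool.Agent.H65.GI Pool.Agent.H64.LN

variable {V T : Type} [Fintype V] [Fintype T] [Nonempty T]

private theorem Hm_four {d : ℕ} {F : Fn V T} (hF : Dg d F) :
    nm (fun χ => F χ ^ 2) ≤ (20 * (Fintype.card T : ℝ)) ^ d * nm F ^ 2 := by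
  have h := hyp hF 2 (by norm_num)
  have h1 : ((5 * ((2 : ℕ) : ℝ) ^ 2 * (Fintype.card T : ℝ)) ^ d * ex (fun χ => F χ ^ 2)) ^ 2 =
      ((20 * (Fintype.card T : ℝ)) ^ d * nm F ^ 2) ^ 2 := by
    rw [nm_sq]
    norm_num
  rw [h1] at h
  unfold nm at *
  refine Real.sqrt_le_iff.2 ⟨by positivity, ?_⟩
  refine le_trans (le_of_eq ?_) h
  refine congrArg ex ?_
  funext χ
  ring

private theorem Hm_one : (1 : ℝ) ≤ Fintype.card T := by
  exact_mod_cast Fintype.card_pos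

theorem nm_mul {d d' : ℕ} {F G : Fn V T} (hF : Dg d F) (hG : Dg d' G) :
    nm (fun χ => F χ * G χ) ≤ cp (Fintype.card T) (d + d') * (nm F * nm G) := by
  have h1 := cs (fun χ => F χ ^ 2) (fun χ => G χ ^ 2)
  have h2 := Hm_four hF
  have h3 := Hm_four hG
  have hm := Hm_one (T := T)
  have n1 := nm_nn F
  have n2 := nm_nn G
  have a1 : (1 : ℝ) ≤ (20 * (Fintype.card T : ℝ)) ^ d := one_le_pow₀ (by linarith)
  have a2 : (1 : ℝ) ≤ (20 * (Fintype.card T : ℝ)) ^ d' := one_le_pow₀ (by linarith)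
  have h4 : nm (fun χ => F χ * G χ) ^ 2 ≤ (cp (Fintype.card T) (d + d') * (nm F * nm G)) ^ 2 := by
    rw [nm_sq]
    calc ex (fun χ => (F χ * G χ) ^ 2) = ex (fun χ => F χ ^ 2 * G χ ^ 2) :=
          congrArg ex (funext fun χ => mul_pow _ _ _)
      _ ≤ |ex (fun χ => F χ ^ 2 * G χ ^ 2)| := le_abs_self _
      _ ≤ nm (fun χ => F χ ^ 2) * nm (fun χ => G χ ^ 2) := h1
      _ ≤ ((20 * (Fintype.card T : ℝ)) ^ d * nm F ^ 2) * ((20 * (Fintype.card T : ℝ)) ^ d' * nm G ^ 2) :=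
          mul_le_mul h2 h3 (nm_nn _) (by positivity)
      _ = (20 * (Fintype.card T : ℝ)) ^ d * (20 * (Fintype.card T : ℝ)) ^ d' * (nm F * nm G) ^ 2 := by ring
      _ ≤ ((20 * (Fintype.card T : ℝ)) ^ d * (20 * (Fintype.card T : ℝ)) ^ d') ^ 2 * (nm F * nm G) ^ 2 := by
          refine mul_le_mul_of_nonneg_right ?_ (sq_nonneg _)
          have h5 : (1 : ℝ) ≤ (20 * (Fintype.card T : ℝ)) ^ d * (20 * (Fintype.card T : ℝ)) ^ d' :=
            one_le_mul_of_one_le_of_one_le a1 a2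
          nlinarith
      _ = (cp (Fintype.card T) (d + d') * (nm F * nm G)) ^ 2 := by
          unfold cp
          rw [pow_add]
          ring
  refine (pow_le_pow_iff_left₀ (nm_nn _) ?_ two_ne_zero).1 h4
  unfold cp
  positivity

theorem D_mul {d d' : ℕ} {F G : Fn V T} (hF : Dg d F) (hG : Dg d' G) (a : V) :
    nm (Da a (fun χ => F χ * G χ)) ≤
      2 * cp (Fintype.card T) (d + d') * (nm (Da a F) * nm G + nm F * nm (Da a G)) := by
  have hc : 0 ≤ cp (Fintype.card T) (d + d') := by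
    unfold cp
    positivity
  have e1 : (fun χ => F χ * G χ) = fun χ => G χ * Ea a F χ + 1 * (Da a F χ * G χ) := by
    funext χ
    show F χ * G χ = G χ * Ea a F χ + 1 * ((F χ - Ea a F χ) * G χ)
    ring
  have e2 : Da a (fun χ => G χ * Ea a F χ) = fun χ => Ea a F χ * Da a G χ := by
    funext χ
    show G χ * Ea a F χ - Ea a (fun χ => G χ * Ea a F χ) χ = Ea a F χ * (G χ - Ea a G χ)
    rw [Ea_mul a G (Ea a F) (Ea_up a F)]
    ring
  have e3 : Da a (fun χ => F χ * G χ) = fun χ => Ea a F χ * Da a G χ + Da a (fun χ => Da a F χ * G χ) χ := by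
    rw [e1, Da_lin, e2]
    funext χ
    rw [one_mul]
  have h1 : nm (Da a (fun χ => Da a F χ * G χ)) ≤ cp (Fintype.card T) (d + d') * (nm (Da a F) * nm G) :=
    (nm_Da a _).trans (nm_mul (Dg_Da hF a) hG)
  have h2 : nm (fun χ => Ea a F χ * Da a G χ) ≤ cp (Fintype.card T) (d + d') * (nm F * nm (Da a G)) := by
    refine (nm_mul (Dg_Ea hF a) (Dg_Da hG a)).trans ?_
    exact mul_le_mul_of_nonneg_left (mul_le_mul_of_nonneg_right (nm_Ea a F) (nm_nn _)) hc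
  have h3 : 0 ≤ cp (Fintype.card T) (d + d') * (nm (Da a F) * nm G + nm F * nm (Da a G)) :=
    mul_nonneg hc (add_nonneg (mul_nonneg (nm_nn _) (nm_nn _)) (mul_nonneg (nm_nn _) (nm_nn _)))
  rw [e3]
  calc nm (fun χ => Ea a F χ * Da a G χ + Da a (fun χ => Da a F χ * G χ) χ)
      ≤ nm (fun χ => Ea a F χ * Da a G χ) + nm (Da a (fun χ => Da a F χ * G χ)) := nm_add _ _
    _ ≤ cp (Fintype.card T) (d + d') * (nm F * nm (Da a G)) +
        cp (Fintype.card T) (d + d') * (nm (Da a F) * nm G) := add_le_add h2 h1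
    _ ≤ 2 * cp (Fintype.card T) (d + d') * (nm (Da a F) * nm G + nm F * nm (Da a G)) := by linarith

end Pool.Agent.H2.LN.HH
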