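/-
ROW Hy. The elementary inequality.
PROOF. Write `a = √A`. If `A = 0`: only the term `k = 2 r` survives (`0 ^ (2 r - k) = 0` for `k < 2 r`; `2 r ≠ 1`), it is `√B ^ (2 r) = B ^ r ≤ (5 r ^ 2 B) ^ r`. If `A > 0` put `b = √B / √A ≥ 0`: the left side is `a ^ (2 r) (∑_{k ≠ 1} (2r choose k) b ^ k) = A ^ r ((1 + b) ^ (2 r) - 2 r b)` (binomial theorem `add_pow`: the sum over all `k` in `range (2 r + 1)` minus the term `k = 1`, which is `2 r b`), the right side is `A ^ r (1 + 5 r ^ 2 b ^ 2) ^ r`.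
So show `(1 + b) ^ (2 r) ≤ 2 r b + (1 + 5 r ^ 2 b ^ 2) ^ r` for `b ≥ 0`, `r ≥ 1`. Case `2 ≤ (5 r ^ 2 - 1) b`: `(1 + b) ^ 2 = 1 + 2 b + b ^ 2 ≤ 1 + 5 r ^ 2 b ^ 2`, take `r`-th powers (`pow_mul`). Case `(5 r ^ 2 - 1) b < 2`: then `2 r b ≤ 1` (`4 r ≤ 5 r ^ 2 - 1`), `(1 + b) ^ (2 r) ≤ exp (2 r b)` (`Real.add_one_le_exp`, `Real.exp_nat_mul`), `exp x ≤ 1 + x + x ^ 2` for `|x| ≤ 1` (`Pool.Agent.H12.LN.exp_quad`), so `≤ 1 + 2 r b + 4 r ^ 2 b ^ 2`, and `(1 + 5 r ^ 2 b ^ 2) ^ r ≥ 1 + r * 5 r ^ 2 b ^ 2 ≥ 1 + 4 r ^ 2 b ^ 2` (Bernoulli: `one_add_mul_le_pow`).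
-/
import Pool.Agent.H2.LN.HD

set_option autoImplicit false
set_option linter.unusedSectionVars false

namespace Pool.Agent.H2.LN.HH

open Finset Classical
open Pool.Agent.H65.GI Pool.Agent.H64.LN

variable {V T : Type} [Fintype V] [Fintype T] [Nonempty T]

theorem Hy_one (r : ℕ) (hr : 1 ≤ r) (b : ℝ) (hb : 0 ≤ b) :
    (1 + b) ^ (2 * r) ≤ 2 * r * b + (1 + 5 * (r : ℝ) ^ 2 * b ^ 2) ^ r := by
  have hr1 : (1 : ℝ) ≤ r := by exact_mod_cast hr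
  have h5 : 0 ≤ 5 * (r : ℝ) ^ 2 * b ^ 2 := by positivity
  rcases le_or_gt 2 ((5 * (r : ℝ) ^ 2 - 1) * b) with h | h
  · have h1 : (1 + b) ^ 2 ≤ 1 + 5 * (r : ℝ) ^ 2 * b ^ 2 := by
      have h2 : 0 ≤ b * ((5 * (r : ℝ) ^ 2 - 1) * b - 2) := mul_nonneg hb (by linarith)
      nlinarith
    have h2 : (1 + b) ^ (2 * r) ≤ (1 + 5 * (r : ℝ) ^ 2 * b ^ 2) ^ r := by
      rw [pow_mul]
      exact pow_le_pow_left₀ (by positivity) h1 r
    have h3 : 0 ≤ 2 * (r : ℝ) * b := by positivity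
    linarith
  · have h1 : 4 * (r : ℝ) ≤ 5 * (r : ℝ) ^ 2 - 1 := by
      have h2 : 0 ≤ (5 * (r : ℝ) + 1) * ((r : ℝ) - 1) := mul_nonneg (by linarith) (by linarith)
      nlinarith
    have h2 : 4 * (r : ℝ) * b ≤ (5 * (r : ℝ) ^ 2 - 1) * b := mul_le_mul_of_nonneg_right h1 hb
    have h3 : 0 ≤ 2 * (r : ℝ) * b := by positivity
    have h4 : |2 * (r : ℝ) * b| ≤ 1 := by
      rw [abs_of_nonneg h3]
      linarith
    have h5' := Real.abs_exp_sub_one_sub_id_le h4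
    have h6 := le_abs_self (Real.exp (2 * (r : ℝ) * b) - 1 - 2 * (r : ℝ) * b)
    have h7 : (1 + b) ^ (2 * r) ≤ Real.exp (2 * (r : ℝ) * b) := by
      have h8 : (1 + b) ^ (2 * r) ≤ Real.exp b ^ (2 * r) := by
        refine pow_le_pow_left₀ (by positivity) ?_ _
        have := Real.add_one_le_exp b
        linarith
      rw [← Real.exp_nat_mul] at h8
      have h9 : ((2 * r : ℕ) : ℝ) * b = 2 * (r : ℝ) * b := by
        push_cast
        ring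
      rw [h9] at h8
      exact h8
    have h8 : 1 + (r : ℝ) * (5 * (r : ℝ) ^ 2 * b ^ 2) ≤ (1 + 5 * (r : ℝ) ^ 2 * b ^ 2) ^ r :=
      one_add_mul_le_pow (by linarith) r
    have h9 : 5 * (r : ℝ) ^ 2 * b ^ 2 ≤ (r : ℝ) * (5 * (r : ℝ) ^ 2 * b ^ 2) := le_mul_of_one_le_left h5 hr1
    have h10 : (2 * (r : ℝ) * b) ^ 2 = 4 * (r : ℝ) ^ 2 * b ^ 2 := by ring
    have h11 : 0 ≤ (r : ℝ) ^ 2 * b ^ 2 := by positivity
    nlinarith

theorem Hy_two (r : ℕ) (hr : 1 ≤ r) (a b : ℝ) (ha : 0 ≤ a) (hb : 0 ≤ b) :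
    (b + a) ^ (2 * r) - 2 * r * a ^ (2 * r - 1) * b ≤ (a ^ 2 + 5 * (r : ℝ) ^ 2 * b ^ 2) ^ r := by
  have hr1 : (1 : ℝ) ≤ r := by exact_mod_cast hr
  rcases ha.eq_or_lt with h0 | h0
  · rw [← h0, zero_pow (by omega), mul_zero, zero_mul, sub_zero, add_zero, pow_mul, zero_pow (by norm_num),
      zero_add]
    refine pow_le_pow_left₀ (by positivity) ?_ r
    have h1 : (1 : ℝ) ≤ 5 * (r : ℝ) ^ 2 := by nlinarith
    exact le_mul_of_one_le_left (by positivity) h1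
  · have h := Hy_one r hr (b / a) (by positivity)
    have h1 : (b + a) ^ (2 * r) = a ^ (2 * r) * (1 + b / a) ^ (2 * r) := by
      rw [← mul_pow]
      congr 1
      field_simp
      ring
    have h2 : (2 : ℝ) * r * a ^ (2 * r - 1) * b = a ^ (2 * r) * (2 * r * (b / a)) := by
      have h3 : a ^ (2 * r) = a ^ (2 * r - 1) * a := by
        rw [← pow_succ]
        congr 1
        omega
      rw [h3]
      field_simp
    have h3 : (a ^ 2 + 5 * (r : ℝ) ^ 2 * b ^ 2) ^ r =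
        a ^ (2 * r) * (1 + 5 * (r : ℝ) ^ 2 * (b / a) ^ 2) ^ r := by
      rw [pow_mul, ← mul_pow]
      congr 1
      field_simp
    rw [h1, h2, h3, ← mul_sub]
    refine mul_le_mul_of_nonneg_left ?_ (by positivity)
    linarith

/-- the elementary inequality -/
theorem hy_el (r : ℕ) (hr : 1 ≤ r) (A B : ℝ) (hA : 0 ≤ A) (hB : 0 ≤ B) :
    ∑ k ∈ (range (2 * r + 1)).filter (fun k => k ≠ 1), ((2 * r).choose k : ℝ) *
      Real.sqrt A ^ (2 * r - k) * Real.sqrt B ^ k ≤ (A + 5 * r ^ 2 * B) ^ r := by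
  have h := Hy_two r hr (Real.sqrt A) (Real.sqrt B) (Real.sqrt_nonneg A) (Real.sqrt_nonneg B)
  rw [Real.sq_sqrt hA, Real.sq_sqrt hB] at h
  refine le_trans (le_of_eq ?_) h
  rw [add_pow]
  have h1 : (1 : ℕ) ∈ range (2 * r + 1) := mem_range.2 (by omega)
  rw [← Finset.add_sum_erase _ _ h1]
  have h2 : (range (2 * r + 1)).filter (fun k => k ≠ 1) = (range (2 * r + 1)).erase 1 := by
    ext k
    simp only [mem_filter, mem_erase]
    exact and_comm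
  rw [h2, Nat.choose_one_right, pow_one]
  push_cast
  have h3 : ∀ k ∈ (range (2 * r + 1)).erase 1, ((2 * r).choose k : ℝ) * Real.sqrt A ^ (2 * r - k) * Real.sqrt B ^ k =
      Real.sqrt B ^ k * Real.sqrt A ^ (2 * r - k) * ((2 * r).choose k : ℝ) := by
    intro k _
    ring
  rw [Finset.sum_congr rfl h3]
  ring

end Pool.Agent.H2.LN.HH
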