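import Pool.Agent.H2.LN.H.Edg
import Pool.Agent.H2.LN.H.E5
import Pool.Agent.H33.LN.Ev

/-!
Block E: the events of block E.
-/

set_option autoImplicit false
set_option linter.unusedSectionVars false

namespace Pool.Agent.H2.LN.HH

open Finset Classical
open Pool.Agent.H65.GI Pool.Agent.H64.LN

theorem OutE_num {N Δ : ℕ} (hP : Pm N Δ) :
    ((Δ : ℝ) + 1) ^ (8 * N ^ 3 + 1) * Real.exp (-(N : ℝ) ^ 6) + Real.exp (-(N : ℝ) ^ 6) ≤
      Real.exp (-(N : ℝ) ^ 5) := by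
  have hN := nN hP
  have hN0 := nN0 hP
  have hΔ0 := nΔ0 hP
  have hΔ1 := nΔ1 hP
  have hl := nlogN hP
  have hl0 : 0 ≤ Real.log Δ := Real.log_nonneg hΔ1
  have hΔ2 : (2 : ℝ) ≤ Δ := by
    calc (2 : ℝ) ≤ N := le_trans (by norm_num) hN
      _ = (N : ℝ) ^ 1 := (pow_one _).symm
      _ ≤ (N : ℝ) ^ 40000 := pow_le_pow_right₀ (nN1 hP) (by norm_num)
      _ ≤ Δ := nΔN hP
  have h1 : ((Δ : ℝ) + 1) ≤ Real.exp (2 * Real.log Δ) := by
    have h2 : Real.exp (2 * Real.log Δ) = (Δ : ℝ) ^ 2 := by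
      rw [mul_comm, Real.exp_mul, Real.exp_log hΔ0]
      norm_num
    rw [h2]
    nlinarith
  have h3 : ((Δ : ℝ) + 1) ^ (8 * N ^ 3 + 1) ≤ Real.exp ((N : ℝ) ^ 4) := by
    calc ((Δ : ℝ) + 1) ^ (8 * N ^ 3 + 1) ≤ Real.exp (2 * Real.log Δ) ^ (8 * N ^ 3 + 1) :=
          pow_le_pow_left₀ (by linarith) h1 _
      _ = Real.exp ((8 * N ^ 3 + 1 : ℕ) * (2 * Real.log Δ)) := by rw [Real.exp_nat_mul]
      _ ≤ Real.exp ((N : ℝ) ^ 4) := by
          refine Real.exp_le_exp.2 ?_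
          push_cast
          have h4 : (1 : ℝ) ≤ (N : ℝ) ^ 3 := one_le_pow₀ (nN1 hP)
          have h5 : 2 * Real.log Δ ≤ N / 10 := by nlinarith
          have h6 : (8 * (N : ℝ) ^ 3 + 1) * (2 * Real.log Δ) ≤ (9 * (N : ℝ) ^ 3) * (N / 10) := by
            refine mul_le_mul (by linarith) h5 (by positivity) (by positivity)
          nlinarith [pow_pos hN0 4]
  have h7 : (1 : ℝ) ≤ Real.exp ((N : ℝ) ^ 4) := by
    rw [← Real.exp_zero]
    exact Real.exp_le_exp.2 (by positivity)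
  have h8 : ((Δ : ℝ) + 1) ^ (8 * N ^ 3 + 1) * Real.exp (-(N : ℝ) ^ 6) + Real.exp (-(N : ℝ) ^ 6) ≤
      2 * Real.exp ((N : ℝ) ^ 4) * Real.exp (-(N : ℝ) ^ 6) := by
    have h9 := (Real.exp_pos (-(N : ℝ) ^ 6)).le
    have h10 := mul_le_mul_of_nonneg_right h3 h9
    have h11 := mul_le_mul_of_nonneg_right h7 h9
    linarith
  refine h8.trans ?_
  have h12 : (2 : ℝ) ≤ Real.exp 1 := by
    have := Real.add_one_le_exp (1 : ℝ)
    linarith
  calc 2 * Real.exp ((N : ℝ) ^ 4) * Real.exp (-(N : ℝ) ^ 6) ≤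
        Real.exp 1 * Real.exp ((N : ℝ) ^ 4) * Real.exp (-(N : ℝ) ^ 6) := by
        gcongr
    _ = Real.exp (1 + (N : ℝ) ^ 4 + -(N : ℝ) ^ 6) := by rw [Real.exp_add, Real.exp_add]
    _ ≤ Real.exp (-(N : ℝ) ^ 5) := by
        refine Real.exp_le_exp.2 ?_
        have h13 : (1 : ℝ) ≤ (N : ℝ) ^ 4 := one_le_pow₀ (nN1 hP)
        have h14 : (4 : ℝ) ≤ N := le_trans (by norm_num) hN
        have h15 : (N : ℝ) ^ 5 = (N : ℝ) ^ 4 * N := by ring
        have h16 : (N : ℝ) ^ 6 = (N : ℝ) ^ 4 * N * N := by ring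
        rw [h15, h16]
        nlinarith [mul_nonneg (by linarith : (0 : ℝ) ≤ (N : ℝ) ^ 4) (by linarith : (0 : ℝ) ≤ (N : ℝ) - 4),
          mul_nonneg (mul_nonneg (by linarith : (0 : ℝ) ≤ (N : ℝ) ^ 4) hN0.le) (by linarith : (0 : ℝ) ≤ (N : ℝ) - 4)]

theorem outE : Pool.Agent.H33.LN.OutE := by
  intro N Δ hP V _ G hG hgap v
  constructor
  · have h1 : pr (fun χ : V → Ty N => ¬ Pool.Agent.H33.LN.EE G N Δ v χ) ≤
        pr (fun χ : V → Ty N => (∃ x ∈ bl G v (8 * N ^ 3 + 1), ¬ dgo G N Δ χ x) ∨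
          ∃ t t' S S', Vio G N Δ χ v t t' S S') := by
      refine pr_mono (fun χ hχ => ?_)
      by_contra hcon
      rw [not_or] at hcon
      obtain ⟨hc1, hc2⟩ := hcon
      have hd : ∀ x ∈ bl G v (8 * N ^ 3 + 1), dgo G N Δ χ x := by
        intro x hx
        by_contra hx'
        exact hc1 ⟨x, hx, hx'⟩
      refine hχ ⟨hd v (bl_self G v _), ?_⟩
      intro t t' htt S S' hS hS' hSt hSt' hc hc'
      by_contra hlt
      rw [not_le] at hlt
      exact hc2 ⟨t, t', S, S', ⟨htt, hS, hS', hSt, hSt', hc, hc', hlt, hd⟩⟩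
    have h2 := pr_or (fun χ : V → Ty N => ∃ x ∈ bl G v (8 * N ^ 3 + 1), ¬ dgo G N Δ χ x)
      (fun χ : V → Ty N => ∃ t t' S S', Vio G N Δ χ v t t' S S')
    have h3 := pr_ex (bl G v (8 * N ^ 3 + 1)) (fun x (χ : V → Ty N) => ¬ dgo G N Δ χ x)
      (Real.exp (-(N : ℝ) ^ 6)) (fun x _ => e_dg hP hG x)
    have h4 := e5 hP hG hgap v
    have h5 : ((bl G v (8 * N ^ 3 + 1)).card : ℝ) ≤ ((Δ : ℝ) + 1) ^ (8 * N ^ 3 + 1) := by
      exact_mod_cast bl_card G Δ hG v (8 * N ^ 3 + 1)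
    have h6 := mul_le_mul_of_nonneg_right h5 (Real.exp_pos (-(N : ℝ) ^ 6)).le
    have h7 := OutE_num hP
    linarith
  · have key : ∀ χ χ' : V → Ty N, (∀ x ∈ bl G v (8 * N ^ 3 + 1), χ x = χ' x) →
        Pool.Agent.H33.LN.EE G N Δ v χ → Pool.Agent.H33.LN.EE G N Δ v χ' := by
      intro χ χ' h hE
      refine ⟨fun t => ?_, ?_⟩
      · have h1 : (univ.filter (fun u => G.Adj v u ∧ χ' u = t)) =
            (univ.filter (fun u => G.Adj v u ∧ χ u = t)) := by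
          refine Finset.filter_congr (fun u _ => ?_)
          refine and_congr_right (fun hu => ?_)
          rw [h u (bl_mono G v (by omega : 1 ≤ 8 * N ^ 3 + 1) (bl_adj G (bl_self G v 0) hu))]
        rw [h1]
        exact hE.1 t
      · intro t t' htt S S' hS hS' hSt hSt' hc hc'
        refine hE.2 t t' htt S S' hS hS' (fun x hx => ?_) (fun x hx => ?_) hc hc'
        · rw [h x (bl_mono G v (by omega) (hS hx))]
          exact hSt x hx
        · rw [h x (bl_mono G v (by omega) (hS' hx))]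
          exact hSt' x hx
    intro χ χ' h
    exact propext ⟨key χ χ' h, key χ' χ (fun x hx => (h x hx).symm)⟩

end Pool.Agent.H2.LN.HH
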