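/-
ROW Tc3. Term 3, sums of the influences.
PROOF. `P := PM G Δ` (`pow_one`). `Da a (∑ w, P v w om_w f_w) = ∑ w, P v w Da a (om_w f_w)`. For `w ≠ a`: `Da a (om_w f_w) = om_w Da a f_w` (`Ea_mul`, `om_loc`), norm `≤ m nm (Da a f_w)` (`om_abs`, `nm_le_of_abs`, `nm_smul`). For `w = a`: norm `≤ nm (om_a f_a) ≤ m x` (`nm_Da`). So `nm (Da a (..v)) ≤ P v a m x + ∑ w, P v w m nm (Da a f_w)`. Sum over `a`: `≤ m x + m y` (`PM_row`, `hf.s1`); sum over `v`: `≤ m x + m ∑ w, nm (Da a f_w) ≤ m (x + y)` (`PM_symm`, `PM_row`, `hf.s2`).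
-/
import Pool.Agent.H2.LN.HD
import Pool.Agent.H2.LN.H.Ho

set_option autoImplicit false
set_option linter.unusedSectionVars false

namespace Pool.Agent.H2.LN.HH

open Finset Classical
open Pool.Agent.H65.GI Pool.Agent.H64.LN

variable {V T : Type} [Fintype V] [Fintype T] [Nonempty T]
variable {G : SimpleGraph V} {Δ : ℕ}

theorem Tc3_sm (a : V) (c : ℝ) (F : Fn V T) : Da a (fun χ => c * F χ) = fun χ => c * Da a F χ := by
  funext χ
  unfold Da Ea
  rw [← Finset.mul_sum]
  ring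

theorem Tc3_mul (t : T) (w a : V) (h : a ≠ w) (F : Fn V T) :
    Da a (fun χ => om t w χ * F χ) = fun χ => om t w χ * Da a F χ := by
  have h1 : ∀ (χ : V → T) (s : T), om t w (Function.update χ a s) = om t w χ := by
    intro χ s
    refine om_loc t w _ _ ?_
    intro i hi
    rw [Finset.mem_singleton] at hi
    subst hi
    exact Function.update_of_ne (Ne.symm h) _ _
  have h2 := Ea_mul a F (om t w) h1
  funext χ
  have h3 : Da a (fun χ => om t w χ * F χ) χ = om t w χ * F χ - Ea a (fun χ => om t w χ * F χ) χ := rfl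
  have h4 : (fun χ => om t w χ * F χ) = fun χ => F χ * om t w χ := by
    funext χ
    ring
  rw [h3, h4, h2]
  unfold Da
  ring

theorem Tc3_abs (t : T) (w : V) (F : Fn V T) : nm (fun χ => om t w χ * F χ) ≤ Fintype.card T * nm F := by
  have h0 : (0 : ℝ) ≤ Fintype.card T := Nat.cast_nonneg _
  have h1 : nm (fun χ => om t w χ * F χ) ≤ nm (fun χ => (Fintype.card T : ℝ) * F χ) := by
    refine nm_le_of_abs _ _ fun χ => ?_
    rw [abs_mul, abs_mul, abs_of_nonneg h0]
    exact mul_le_mul_of_nonneg_right (om_abs t w χ) (abs_nonneg _)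
  rw [nm_smul, abs_of_nonneg h0] at h1
  exact h1

theorem Tc3_one (t : T) (f : V → Fn V T) (x : ℝ) (hx : 0 ≤ x) (hn : ∀ v, nm (f v) ≤ x) (w a : V) :
    nm (Da a (fun χ => om t w χ * f w χ)) ≤ (if w = a then Fintype.card T * x else 0) +
      Fintype.card T * nm (Da a (f w)) := by
  have h0 : (0 : ℝ) ≤ Fintype.card T := Nat.cast_nonneg _
  by_cases h : w = a
  · rw [if_pos h]
    have h1 := (nm_Da a (fun χ => om t w χ * f w χ)).trans (Tc3_abs t w (f w))
    have h2 := mul_le_mul_of_nonneg_left (hn w) h0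
    have h3 := mul_nonneg h0 (nm_nn (Da a (f w)))
    linarith
  · rw [if_neg h, zero_add, Tc3_mul t w a (fun h' => h h'.symm)]
    exact Tc3_abs t w (Da a (f w))

theorem Tc3_main (t : T) (f : V → Fn V T) (x : ℝ) (hx : 0 ≤ x) (hn : ∀ v, nm (f v) ≤ x) (v a : V) :
    nm (Da a (Pf G Δ 1 (fun w χ => om t w χ * f w χ) v)) ≤ PM G Δ v a * (Fintype.card T * x) +
      ∑ w, PM G Δ v w * (Fintype.card T * nm (Da a (f w))) := by
  have h1 : Da a (Pf G Δ 1 (fun w χ => om t w χ * f w χ) v) =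
      fun χ => ∑ w, PM G Δ v w * Da a (fun χ => om t w χ * f w χ) χ := by
    have h2 : Pf G Δ 1 (fun w χ => om t w χ * f w χ) v =
        fun χ => ∑ w ∈ univ, (fun w χ => PM G Δ v w * (om t w χ * f w χ)) w χ := by
      funext χ
      unfold Pf
      rw [pow_one]
    rw [h2, Da_sum]
    funext χ
    refine Finset.sum_congr rfl fun w _ => ?_
    rw [Tc3_sm]
  rw [h1]
  refine (nm_sum univ (fun w χ => PM G Δ v w * Da a (fun χ => om t w χ * f w χ) χ)).trans ?_
  have h3 : ∀ w ∈ (univ : Finset V), nm (fun χ => PM G Δ v w * Da a (fun χ => om t w χ * f w χ) χ) ≤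
      (if w = a then PM G Δ v w * (Fintype.card T * x) else 0) + PM G Δ v w * (Fintype.card T * nm (Da a (f w))) := by
    intro w _
    rw [nm_smul, abs_of_nonneg (PM_nn G Δ v w)]
    refine (mul_le_mul_of_nonneg_left (Tc3_one t f x hx hn w a) (PM_nn G Δ v w)).trans (le_of_eq ?_)
    split_ifs <;> ring
  refine (Finset.sum_le_sum h3).trans (le_of_eq ?_)
  rw [Finset.sum_add_distrib, Finset.sum_ite_eq' univ a, if_pos (Finset.mem_univ _)]

/-- term 3, the sums of the influences -/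
theorem t3c (hΔ : 0 < Δ) (hG : Reg G Δ) (d ρ : ℕ) (f : V → Fn V T) (x y : ℝ) (hx : 0 ≤ x) (hy : 0 ≤ y)
    (hf : Af G Δ d ρ x y f) (t : T) :
    (∀ v, ∑ a, nm (Da a (Pf G Δ 1 (fun w χ => om t w χ * f w χ) v)) ≤ Fintype.card T * (x + y)) ∧
    ∀ a, ∑ v, nm (Da a (Pf G Δ 1 (fun w χ => om t w χ * f w χ) v)) ≤ Fintype.card T * (x + y) := by
  have h0 : (0 : ℝ) ≤ Fintype.card T := Nat.cast_nonneg _
  refine ⟨fun v => ?_, fun a => ?_⟩
  · refine (Finset.sum_le_sum fun a _ => Tc3_main (G := G) (Δ := Δ) t f x hx hf.n1 v a).trans ?_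
    rw [Finset.sum_add_distrib, ← Finset.sum_mul, PM_row G Δ hΔ hG v, one_mul, Finset.sum_comm]
    have h1 : ∀ w ∈ (univ : Finset V), ∑ a, PM G Δ v w * (Fintype.card T * nm (Da a (f w))) ≤
        PM G Δ v w * (Fintype.card T * y) := by
      intro w _
      rw [← Finset.mul_sum, ← Finset.mul_sum]
      exact mul_le_mul_of_nonneg_left (mul_le_mul_of_nonneg_left (hf.s1 w) h0) (PM_nn G Δ v w)
    have h2 := Finset.sum_le_sum h1
    rw [← Finset.sum_mul, PM_row G Δ hΔ hG v, one_mul] at h2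
    linarith
  · refine (Finset.sum_le_sum fun v _ => Tc3_main (G := G) (Δ := Δ) t f x hx hf.n1 v a).trans ?_
    have h3 : ∀ w, ∑ v, PM G Δ v w = 1 := by
      intro w
      rw [← PM_row G Δ hΔ hG w]
      exact Finset.sum_congr rfl fun v _ => PM_symm G Δ v w
    rw [Finset.sum_add_distrib, ← Finset.sum_mul, h3 a, one_mul, Finset.sum_comm]
    have h1 : ∀ w ∈ (univ : Finset V), ∑ v, PM G Δ v w * (Fintype.card T * nm (Da a (f w))) =
        Fintype.card T * nm (Da a (f w)) := by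
      intro w _
      rw [← Finset.sum_mul, h3 w, one_mul]
    rw [Finset.sum_congr rfl h1, ← Finset.mul_sum]
    have h2 := mul_le_mul_of_nonneg_left (hf.s2 a) h0
    linarith

end Pool.Agent.H2.LN.HH
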