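/-
ROW Tt1. Term 1.
PROOF. `c u := (PM ^ K) v u`, `s a u := nm (Da a (p u))`. `n1`: `Pf G Δ K p v` has mean `0`; `nm (Pf v) ^ 2 ≤ ∑ a, nm (Da a (Pf v)) ^ 2` (`cov` with `F = G`, `nm_sq`), `nm (Da a (Pf v)) ≤ ∑ u, c u s a u`, `(∑ u, c u s a u) ^ 2 ≤ (∑ u, c u ^ 2 s a u) (∑ u, s a u) ≤ y ∑ u, c u ^ 2 s a u` (Cauchy-Schwarz with weights `s a u ≥ 0`; `hp.s2`), sum over `a`: `≤ y ∑ u, c u ^ 2 ∑ a, s a u ≤ y ^ 2 ∑ u, c u ^ 2 ≤ y ^ 2 N ^ 3 / (2 Δ ^ 12)` (`hp.s1`, `kk6`).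
`n2`: `nm (Da a (Pf v)) ≤ ∑ u, (PM ^ K) v u s a u`, `kk7` with `g u = s a u`, `∑ u, s a u ≤ y`: `≤ N ^ 3 / (2 Δ ^ 12) y ^ 2 = (y √(..)) ^ 2`. `s1`, `s2`: as in `Pf_inf` (apply `Pf_inf` with `Bd x y p`; `x ≥ 0` because `0 ≤ nm (p v) ≤ x` for any `v`; `Δ > 0`: `nΔ0 hP` in `H64/LN/Bnm`).
-/
import Pool.Agent.H2.LN.HD
import Pool.Agent.H2.LN.H.Hf
import Pool.Agent.H2.LN.H.Hi

set_option autoImplicit false
set_option linter.unusedSectionVars false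

namespace Pool.Agent.H2.LN.HH

open Finset Classical
open Pool.Agent.H65.GI Pool.Agent.H64.LN

variable {V T : Type} [Fintype V] [Fintype T] [Nonempty T]
variable {G : SimpleGraph V} {Δ : ℕ}

theorem Tt1_Dc (a : V) (c : ℝ) (F : Fn V T) :
    Da a (fun χ => c * F χ) = fun χ => c * Da a F χ := by
  funext χ
  simp only [Da, Ea, ← Finset.mul_sum]
  ring

theorem Tt1_DP (a v : V) (i : ℕ) (f : V → Fn V T) :
    Da a (Pf G Δ i f v) = fun χ => ∑ w, (PM G Δ ^ i) v w * Da a (f w) χ := by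
  have h1 := Da_sum (T := T) a univ (fun w => fun χ => (PM G Δ ^ i) v w * f w χ)
  simp only [Tt1_Dc] at h1
  exact h1

theorem Tt1_nD (a v : V) (i : ℕ) (f : V → Fn V T) :
    nm (Da a (Pf G Δ i f v)) ≤ ∑ w, (PM G Δ ^ i) v w * nm (Da a (f w)) := by
  rw [Tt1_DP]
  refine (nm_sum univ (fun w => fun χ => (PM G Δ ^ i) v w * Da a (f w) χ)).trans ?_
  refine Finset.sum_le_sum (fun w _ => ?_)
  rw [nm_smul, abs_of_nonneg (PMk_nn G Δ i v w)]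

theorem Tt1_cs (c M : V → ℝ) (hM : ∀ u, 0 ≤ M u) (σ : ℝ) (hs : ∑ u, M u ≤ σ) :
    (∑ u, c u * M u) ^ 2 ≤ σ * ∑ u, c u ^ 2 * M u := by
  have h := Finset.sum_sq_le_sum_mul_sum_of_sq_eq_mul (s := (Finset.univ : Finset V))
    (r := fun u => c u * M u) (f := M) (g := fun u => c u ^ 2 * M u) (fun u _ => hM u)
    (fun u _ => mul_nonneg (sq_nonneg _) (hM u)) (fun u _ => by ring)
  refine h.trans (mul_le_mul_of_nonneg_right hs
    (Finset.sum_nonneg fun u _ => mul_nonneg (sq_nonneg _) (hM u)))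

theorem Tt1_ex0 (K : ℕ) (p : V → Fn V T) (hm : ∀ v, ex (p v) = 0) (v : V) :
    ex (Pf G Δ K p v) = 0 := by
  have h1 : Pf G Δ K p v = fun χ => ∑ w, (PM G Δ ^ K) v w * p w χ := rfl
  rw [h1, ex_sum]
  refine Finset.sum_eq_zero fun w _ => ?_
  rw [ex_smul, hm w, mul_zero]

/-- term 1 -/
theorem t1 {N : ℕ} (hP : Pm N Δ) (hG : Reg G Δ) (hgap : Gap G N Δ) (K d ρ : ℕ) (hK : N ^ 3 ≤ K)
    (p : V → Fn V T) (x y : ℝ) (hy : 0 ≤ y) (hp : Fl G d ρ x y p) :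
    Bd (y * Real.sqrt (N ^ 3 / (2 * (Δ : ℝ) ^ 12))) y (Pf G Δ K p) := by
  obtain ⟨e2, he2⟩ : ∃ e2 : ℝ, e2 = (N : ℝ) ^ 3 / (2 * (Δ : ℝ) ^ 12) := ⟨_, rfl⟩
  have hd0 : (0 : ℝ) < Δ := nΔ0 hP
  have hΔ0 : 0 < Δ := by exact_mod_cast hd0
  have he0 : 0 ≤ e2 := by rw [he2]; positivity
  rw [← he2]
  have hsq : (y * Real.sqrt e2) ^ 2 = y ^ 2 * e2 := by
    rw [mul_pow, Real.sq_sqrt he0]
  have hg : ∀ a u, 0 ≤ nm (Da a (p u)) := fun a u => nm_nn _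
  have hc : ∀ v u, 0 ≤ (PM G Δ ^ K) v u := fun v u => PMk_nn G Δ K v u
  refine ⟨?_, ?_, ?_, ?_⟩
  · intro v
    refine (sq_le_sq₀ (nm_nn _) (mul_nonneg hy (Real.sqrt_nonneg _))).mp ?_
    have h1 : nm (Pf G Δ K p v) ^ 2 ≤ ∑ a, nm (Da a (Pf G Δ K p v)) * nm (Da a (Pf G Δ K p v)) := by
      have h2 := cov (Pf G Δ K p v) (Pf G Δ K p v) (Tt1_ex0 K p hp.mean v)
      have h3 : nm (Pf G Δ K p v) ^ 2 = ex (fun χ => Pf G Δ K p v χ * Pf G Δ K p v χ) := by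
        rw [nm_sq]
        congr 1
        funext χ
        ring
      rw [h3]
      exact (le_abs_self _).trans h2
    calc nm (Pf G Δ K p v) ^ 2 ≤ ∑ a, nm (Da a (Pf G Δ K p v)) * nm (Da a (Pf G Δ K p v)) := h1
      _ ≤ ∑ a, (∑ u, (PM G Δ ^ K) v u * nm (Da a (p u))) ^ 2 := by
          refine Finset.sum_le_sum fun a _ => ?_
          rw [← sq]
          exact pow_le_pow_left₀ (nm_nn _) (Tt1_nD a v K p) 2
      _ ≤ ∑ a, y * ∑ u, ((PM G Δ ^ K) v u) ^ 2 * nm (Da a (p u)) :=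
          Finset.sum_le_sum fun a _ => Tt1_cs _ _ (hg a) y (hp.s2 a)
      _ = y * ∑ u, ((PM G Δ ^ K) v u) ^ 2 * ∑ a, nm (Da a (p u)) := by
          rw [← Finset.mul_sum, Finset.sum_comm]
          congr 1
          refine Finset.sum_congr rfl fun u _ => ?_
          rw [Finset.mul_sum]
      _ ≤ y * ∑ u, ((PM G Δ ^ K) v u) ^ 2 * y := by
          refine mul_le_mul_of_nonneg_left (Finset.sum_le_sum fun u _ => ?_) hy
          exact mul_le_mul_of_nonneg_left (hp.s1 u) (sq_nonneg _)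
      _ = y ^ 2 * ∑ u, ((PM G Δ ^ K) v u) ^ 2 := by
          rw [← Finset.sum_mul]; ring
      _ ≤ y ^ 2 * e2 := by
          refine mul_le_mul_of_nonneg_left ?_ (sq_nonneg _)
          rw [he2]
          exact kk6 hP G hG hgap K hK v
      _ = (y * Real.sqrt e2) ^ 2 := hsq.symm
  · intro a
    calc ∑ v, nm (Da a (Pf G Δ K p v)) ^ 2 ≤ ∑ v, (∑ u, (PM G Δ ^ K) v u * nm (Da a (p u))) ^ 2 :=
          Finset.sum_le_sum fun v _ => pow_le_pow_left₀ (nm_nn _) (Tt1_nD a v K p) 2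
      _ ≤ e2 * (∑ u, nm (Da a (p u))) ^ 2 := by
          rw [he2]
          exact kk7 hP G hG hgap K hK (fun u => nm (Da a (p u))) (fun u => hg a u)
      _ ≤ e2 * y ^ 2 := by
          refine mul_le_mul_of_nonneg_left ?_ he0
          exact pow_le_pow_left₀ (Finset.sum_nonneg fun u _ => hg a u) (hp.s2 a) 2
      _ = (y * Real.sqrt e2) ^ 2 := by rw [hsq]; ring
  · intro v
    calc ∑ a, nm (Da a (Pf G Δ K p v)) ≤ ∑ a, ∑ u, (PM G Δ ^ K) v u * nm (Da a (p u)) :=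
          Finset.sum_le_sum fun a _ => Tt1_nD a v K p
      _ = ∑ u, (PM G Δ ^ K) v u * ∑ a, nm (Da a (p u)) := by
          rw [Finset.sum_comm]
          refine Finset.sum_congr rfl fun u _ => ?_
          rw [Finset.mul_sum]
      _ ≤ ∑ u, (PM G Δ ^ K) v u * y :=
          Finset.sum_le_sum fun u _ => mul_le_mul_of_nonneg_left (hp.s1 u) (hc v u)
      _ = y := by rw [← Finset.sum_mul, PMk_row G Δ hΔ0 hG K v, one_mul]
  · intro a
    calc ∑ v, nm (Da a (Pf G Δ K p v)) ≤ ∑ v, ∑ u, (PM G Δ ^ K) v u * nm (Da a (p u)) :=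
          Finset.sum_le_sum fun v _ => Tt1_nD a v K p
      _ = ∑ u, nm (Da a (p u)) * ∑ v, (PM G Δ ^ K) u v := by
          rw [Finset.sum_comm]
          refine Finset.sum_congr rfl fun u _ => ?_
          rw [Finset.mul_sum]
          refine Finset.sum_congr rfl fun v _ => ?_
          rw [PMk_symm G Δ K v u, mul_comm]
      _ = ∑ u, nm (Da a (p u)) :=
          Finset.sum_congr rfl fun u _ => by rw [PMk_row G Δ hΔ0 hG K u, mul_one]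
      _ ≤ y := hp.s2 a

end Pool.Agent.H2.LN.HH
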