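/-
ROW Tt2. Term 2.
PROOF. `g v := Pf G Δ 1 (om t) v`: `Pom`, `Pom_st` (degree 1). `c := cp m (d + 1)`. `n1`: `nm_mul`: `≤ c x √(m / Δ)`. `n2`: `D_mul`: `nm (Da a (f v g v)) ≤ 2 c (nm (Da a (f v)) nm (g v) + nm (f v) nm (Da a (g v)))`; the square is `≤ 8 c ^ 2 (nm (Da a (f v)) ^ 2 (m / Δ) + x ^ 2 nm (Da a (g v)) ^ 2)`; sum over `v`: `≤ 16 c ^ 2 x ^ 2 m / Δ`. `s1`: `∑ a ≤ 2 c (y √(m / Δ) + x √m) ≤ 2 c √m (x + y)` (`Δ ≥ 1`). `s2`: the same with the sums over `v`.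
-/
import Pool.Agent.H2.LN.HD
import Pool.Agent.H2.LN.H.Hm
import Pool.Agent.H2.LN.H.Hp

set_option autoImplicit false
set_option linter.unusedSectionVars false

namespace Pool.Agent.H2.LN.HH

open Finset Classical
open Pool.Agent.H65.GI Pool.Agent.H64.LN

variable {V T : Type} [Fintype V] [Fintype T] [Nonempty T]
variable {G : SimpleGraph V} {Δ : ℕ}

private theorem Tt2_core {d : ℕ} (f g : V → Fn V T) (x y S R : ℝ) (hx : 0 ≤ x) (hy : 0 ≤ y) (hS : 0 ≤ S) (hSR : S ≤ R)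
    (hdf : ∀ v, Dg d (f v)) (hdg : ∀ v, Dg 1 (g v)) (hf : Bd x y f) (hg : Bd S R g) :
    Bd (4 * cp (Fintype.card T) (d + 1) * x * S) (2 * cp (Fintype.card T) (d + 1) * R * (x + y))
      (fun v χ => f v χ * g v χ) := by
  have hC0 : 0 ≤ cp (Fintype.card T) (d + 1) := by
    unfold cp
    positivity
  obtain ⟨C, hC⟩ : ∃ C, C = cp (Fintype.card T) (d + 1) := ⟨_, rfl⟩
  have hD : ∀ a v, nm (Da a (fun χ => f v χ * g v χ)) ≤ 2 * C * (nm (Da a (f v)) * S + x * nm (Da a (g v))) := by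
    intro a v
    rw [hC]
    refine le_trans (D_mul (hdf v) (hdg v) a) ?_
    apply mul_le_mul_of_nonneg_left _ (by positivity)
    apply add_le_add
    · exact mul_le_mul_of_nonneg_left (hg.n1 v) (nm_nn _)
    · exact mul_le_mul_of_nonneg_right (hf.n1 v) (nm_nn _)
  rw [← hC] at hC0 ⊢
  have hfin : ∀ s : ℝ, s ≤ 2 * C * (y * S + x * R) → s ≤ 2 * C * R * (x + y) := by
    intro s hs
    have h1 : y * S ≤ y * R := mul_le_mul_of_nonneg_left hSR hy
    have h2 : 2 * C * (y * S + x * R) ≤ 2 * C * (y * R + x * R) :=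
      mul_le_mul_of_nonneg_left (by linarith) (by positivity)
    calc s ≤ _ := hs
      _ ≤ _ := h2
      _ = 2 * C * R * (x + y) := by ring
  constructor
  · intro v
    have h1 := nm_mul (hdf v) (hdg v)
    rw [← hC] at h1
    have h2 : nm (f v) * nm (g v) ≤ x * S := mul_le_mul (hf.n1 v) (hg.n1 v) (nm_nn _) hx
    have h3 : C * (nm (f v) * nm (g v)) ≤ C * (x * S) := mul_le_mul_of_nonneg_left h2 hC0
    have h4 : 0 ≤ C * (x * S) := by positivity
    calc nm (fun χ => f v χ * g v χ) ≤ C * (x * S) := le_trans h1 h3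
      _ ≤ 4 * (C * (x * S)) := by linarith
      _ = 4 * C * x * S := by ring
  · intro a
    have h1 : ∀ v, nm (Da a (fun χ => f v χ * g v χ)) ^ 2 ≤
        8 * C ^ 2 * (nm (Da a (f v)) ^ 2 * S ^ 2 + x ^ 2 * nm (Da a (g v)) ^ 2) := by
      intro v
      obtain ⟨p, hp⟩ : ∃ p, p = nm (Da a (f v)) * S := ⟨_, rfl⟩
      obtain ⟨q, hq⟩ : ∃ q, q = x * nm (Da a (g v)) := ⟨_, rfl⟩
      have h2 : nm (Da a (fun χ => f v χ * g v χ)) ^ 2 ≤ (2 * C * (p + q)) ^ 2 := by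
        rw [hp, hq]
        exact pow_le_pow_left₀ (nm_nn _) (hD a v) 2
      have h3 : (2 * C * (p + q)) ^ 2 ≤ 8 * C ^ 2 * (p ^ 2 + q ^ 2) := by
        have h4 : 0 ≤ C ^ 2 * (p - q) ^ 2 := by positivity
        nlinarith [h4]
      calc _ ≤ _ := h2
        _ ≤ _ := h3
        _ = _ := by rw [hp, hq]; ring
    calc ∑ v, nm (Da a (fun χ => f v χ * g v χ)) ^ 2
        ≤ ∑ v, 8 * C ^ 2 * (nm (Da a (f v)) ^ 2 * S ^ 2 + x ^ 2 * nm (Da a (g v)) ^ 2) :=
          Finset.sum_le_sum (fun v _ => h1 v)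
      _ = 8 * C ^ 2 * ((∑ v, nm (Da a (f v)) ^ 2) * S ^ 2 + x ^ 2 * ∑ v, nm (Da a (g v)) ^ 2) := by
          rw [← Finset.mul_sum, Finset.sum_add_distrib, Finset.sum_mul, Finset.mul_sum]
      _ ≤ 8 * C ^ 2 * (x ^ 2 * S ^ 2 + x ^ 2 * S ^ 2) := by
          apply mul_le_mul_of_nonneg_left _ (by positivity)
          apply add_le_add
          · exact mul_le_mul_of_nonneg_right (hf.n2 a) (sq_nonneg _)
          · exact mul_le_mul_of_nonneg_left (hg.n2 a) (sq_nonneg _)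
      _ = (4 * C * x * S) ^ 2 := by ring
  · intro v
    refine hfin _ ?_
    calc ∑ a, nm (Da a (fun χ => f v χ * g v χ))
        ≤ ∑ a, 2 * C * (nm (Da a (f v)) * S + x * nm (Da a (g v))) := Finset.sum_le_sum (fun a _ => hD a v)
      _ = 2 * C * ((∑ a, nm (Da a (f v))) * S + x * ∑ a, nm (Da a (g v))) := by
          rw [← Finset.mul_sum, Finset.sum_add_distrib, Finset.sum_mul, Finset.mul_sum]
      _ ≤ 2 * C * (y * S + x * R) := by
          apply mul_le_mul_of_nonneg_left _ (by positivity)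
          apply add_le_add
          · exact mul_le_mul_of_nonneg_right (hf.s1 v) hS
          · exact mul_le_mul_of_nonneg_left (hg.s1 v) hx
  · intro a
    refine hfin _ ?_
    calc ∑ v, nm (Da a (fun χ => f v χ * g v χ))
        ≤ ∑ v, 2 * C * (nm (Da a (f v)) * S + x * nm (Da a (g v))) := Finset.sum_le_sum (fun v _ => hD a v)
      _ = 2 * C * ((∑ v, nm (Da a (f v))) * S + x * ∑ v, nm (Da a (g v))) := by
          rw [← Finset.mul_sum, Finset.sum_add_distrib, Finset.sum_mul, Finset.mul_sum]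
      _ ≤ 2 * C * (y * S + x * R) := by
          apply mul_le_mul_of_nonneg_left _ (by positivity)
          apply add_le_add
          · exact mul_le_mul_of_nonneg_right (hf.s2 a) hS
          · exact mul_le_mul_of_nonneg_left (hg.s2 a) hx

/-- term 2 -/
theorem t2 (hΔ : 0 < Δ) (hG : Reg G Δ) (d ρ : ℕ) (f : V → Fn V T) (x y : ℝ) (hx : 0 ≤ x) (hy : 0 ≤ y)
    (hf : Af G Δ d ρ x y f) (t : T) :
    Bd (4 * cp (Fintype.card T) (d + 1) * x * Real.sqrt (Fintype.card T / Δ))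
      (2 * cp (Fintype.card T) (d + 1) * Real.sqrt (Fintype.card T) * (x + y))
      (fun v χ => f v χ * Pf G Δ 1 (om t) v χ) := by
  have hΔ1 : (1 : ℝ) ≤ Δ := by exact_mod_cast hΔ
  have hm : (0 : ℝ) ≤ Fintype.card T := Nat.cast_nonneg _
  have hSR : Real.sqrt ((Fintype.card T : ℝ) / Δ) ≤ Real.sqrt (Fintype.card T) :=
    Real.sqrt_le_sqrt (div_le_self hm hΔ1)
  exact Tt2_core f (Pf G Δ 1 (om t)) x y _ _ hx hy (Real.sqrt_nonneg _) hSR hf.dg
    (fun v => (Pom_st hΔ hG t v).1) ⟨hf.n1, hf.n2, hf.s1, hf.s2⟩ (Pom hΔ hG t)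

end Pool.Agent.H2.LN.HH
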