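/-
ROW Tt4. Term 4.
PROOF. `c w = PM v w mu v w`, the field is `f v = ∑ w, c w (1 + om t' w)`; `Da a (f v) = PM v a mu v a om t' a` (`Da_sum`, `om_Da`; constants have `Da = 0`). `n1`: `nm_sum`, `om_nm1`, `mu_su` (`|c w| = PM v w |mu v w|`). `n2`: `∑ v, (PM v a) ^ 2 mu ^ 2 m ≤ (1 / Δ) 64 m ^ 2 x ^ 2 m` (`mu_bd` if `PM v a ≠ 0`, then `v ≠ a`; `∑ v, (PM v a) ^ 2 ≤ 1 / Δ`), and `8 m √m x / √Δ ≤ 12 m √m x / √Δ`. `s1`, `s2`: `∑ PM v a |mu v a| √m ≤ 8 m x √m`.
-/
import Pool.Agent.H2.LN.HD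
import Pool.Agent.H2.LN.H.Tmu
import Pool.Agent.H2.LN.H.Ho

set_option autoImplicit false
set_option linter.unusedSectionVars false

namespace Pool.Agent.H2.LN.HH

open Finset Classical
open Pool.Agent.H65.GI Pool.Agent.H64.LN

variable {V T : Type} [Fintype V] [Fintype T] [Nonempty T]
variable {G : SimpleGraph V} {Δ : ℕ}

private theorem Tt4_PMz (v : V) : PM G Δ v v = 0 := by
  simp only [PM]
  rw [if_neg (G.irrefl)]

private theorem Tt4_PMle (v w : V) : PM G Δ v w ≤ 1 / (Δ : ℝ) := by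
  simp only [PM]
  split_ifs
  · exact le_refl _
  · positivity

private theorem Tt4_Da (t' : T) (c : V → ℝ) (a : V) :
    Da a (fun χ : V → T => ∑ w, c w * (1 + om t' w χ)) = fun χ => c a * om t' a χ := by
  have h1 := Da_sum (T := T) a univ (fun w χ => c w * (1 + om t' w χ))
  refine h1.trans ?_
  have h2 : ∀ w, Da a (fun χ : V → T => c w * (1 + om t' w χ)) = fun χ => if a = w then c w * om t' w χ else 0 := by
    intro w
    have h3 : (fun χ : V → T => c w * (1 + om t' w χ)) = fun χ => (fun _ => c w) χ + c w * om t' w χ := by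
      funext χ
      ring
    rw [h3, Da_lin, Da_of a (fun _ => c w) (fun _ _ => rfl), om_Da]
    funext χ
    by_cases h4 : a = w
    · rw [if_pos h4, if_pos h4, zero_add]
    · rw [if_neg h4, if_neg h4, zero_add, mul_zero]
  funext χ
  rw [sum_congr rfl fun w _ => congrFun (h2 w) χ, sum_ite_eq univ a (fun w => c w * om t' w χ), if_pos (mem_univ _)]

/-- term 4 -/
theorem t4 (hΔ : 0 < Δ) (hG : Reg G Δ) (K d ρ : ℕ) (hd : d ≤ 7) (t t' : T) (p q : V → Fn V T)
    (x y : ℝ) (hx : 0 ≤ x) (h1 : Af G Δ d ρ x y (fA G Δ K p q)) (h2 : Af G Δ d ρ x y (fA G Δ K q p)) :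
    Bd (12 * Fintype.card T * Real.sqrt (Fintype.card T) * x / Real.sqrt Δ)
      (8 * Fintype.card T * Real.sqrt (Fintype.card T) * x)
      (fun v χ => ∑ w, PM G Δ v w * mu G Δ K t t' p q v w * (1 + om t' w χ)) := by
  have hm1 : (1 : ℝ) ≤ Fintype.card T := by
    exact_mod_cast Fintype.card_pos
  obtain ⟨m, hm⟩ : ∃ m : ℝ, m = Fintype.card T := ⟨_, rfl⟩
  have hm1' : 1 ≤ m := hm ▸ hm1
  have hΔr : (0 : ℝ) < Δ := by exact_mod_cast hΔ
  have hsD : 0 < Real.sqrt Δ := Real.sqrt_pos.2 hΔr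
  have hsm : 0 ≤ Real.sqrt m := Real.sqrt_nonneg _
  obtain ⟨c, hc⟩ : ∃ c : V → V → ℝ, c = fun v w => PM G Δ v w * mu G Δ K t t' p q v w := ⟨_, rfl⟩
  have hcv : ∀ v w, c v w = PM G Δ v w * mu G Δ K t t' p q v w := fun v w => by rw [hc]
  have hf : (fun v χ => ∑ w, PM G Δ v w * mu G Δ K t t' p q v w * (1 + om t' w χ)) =
      (fun v (χ : V → T) => ∑ w, c v w * (1 + om t' w χ)) := by
    funext v χ
    refine sum_congr rfl fun w _ => ?_
    rw [hcv]
  have hcabs : ∀ v w, |c v w| = PM G Δ v w * |mu G Δ K t t' p q v w| := by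
    intro v w
    rw [hcv, abs_mul, abs_of_nonneg (PM_nn G Δ v w)]
  have hcb : ∀ v w, |c v w| ≤ PM G Δ v w * (8 * m * x) := by
    intro v w
    rw [hcabs]
    by_cases h : v = w
    · rw [h, Tt4_PMz, zero_mul, zero_mul]
    · have h3 := mu_bd hΔ K d ρ t t' p q x y hx h1 h2 v w h
      rw [← hm] at h3
      exact mul_le_mul_of_nonneg_left h3 (PM_nn G Δ v w)
  have hcol : ∀ a, ∑ v, PM G Δ v a = 1 := by
    intro a
    rw [← PM_row G Δ hΔ hG a]
    exact sum_congr rfl fun v _ => PM_symm G Δ v a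
  have hDa : ∀ v a, nm (Da a (fun χ : V → T => ∑ w, c v w * (1 + om t' w χ))) ≤ |c v a| * Real.sqrt m := by
    intro v a
    rw [Tt4_Da, nm_smul, hm]
    exact mul_le_mul_of_nonneg_left (om_nm t' a) (abs_nonneg _)
  rw [hf, ← hm]
  refine ⟨?_, ?_, ?_, ?_⟩
  · intro v
    have h3 := nm_sum (T := T) univ (fun w χ => c v w * (1 + om t' w χ))
    refine h3.trans ?_
    have h4 : ∀ w, nm (fun χ : V → T => c v w * (1 + om t' w χ)) ≤
        (PM G Δ v w * |mu G Δ K t t' p q v w|) * Real.sqrt m := by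
      intro w
      rw [nm_smul, hcabs, hm]
      exact mul_le_mul_of_nonneg_left (om_nm1 t' w) (mul_nonneg (PM_nn G Δ v w) (abs_nonneg _))
    refine (sum_le_sum fun w _ => h4 w).trans ?_
    rw [← sum_mul]
    have h5 := mu_su hΔ hG K d ρ hd t t' p q x y hx h1 h2 v
    rw [← hm] at h5
    refine (mul_le_mul_of_nonneg_right h5 hsm).trans (le_of_eq ?_)
    ring
  · intro a
    have h3 : ∀ v, nm (Da a (fun χ : V → T => ∑ w, c v w * (1 + om t' w χ))) ^ 2 ≤
        PM G Δ v a * ((1 / (Δ : ℝ)) * ((8 * m * x) ^ 2 * m)) := by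
      intro v
      have h4 := pow_le_pow_left₀ (nm_nn _) (hDa v a) 2
      refine h4.trans ?_
      rw [mul_pow, Real.sq_sqrt (by linarith)]
      have h5 := pow_le_pow_left₀ (abs_nonneg _) (hcb v a) 2
      refine (mul_le_mul_of_nonneg_right h5 (by linarith)).trans ?_
      rw [mul_pow]
      have h6 : PM G Δ v a ^ 2 ≤ PM G Δ v a * (1 / (Δ : ℝ)) := by
        rw [pow_two]
        exact mul_le_mul_of_nonneg_left (Tt4_PMle v a) (PM_nn G Δ v a)
      have h7 : 0 ≤ (8 * m * x) ^ 2 * m := by positivity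
      calc PM G Δ v a ^ 2 * (8 * m * x) ^ 2 * m = PM G Δ v a ^ 2 * ((8 * m * x) ^ 2 * m) := by ring
        _ ≤ (PM G Δ v a * (1 / (Δ : ℝ))) * ((8 * m * x) ^ 2 * m) := mul_le_mul_of_nonneg_right h6 h7
        _ = _ := by ring
    refine (sum_le_sum fun v _ => h3 v).trans ?_
    rw [← sum_mul, hcol, one_mul, div_pow, Real.sq_sqrt hΔr.le]
    have h8 : (12 * m * Real.sqrt m * x) ^ 2 = 144 * m ^ 2 * m * x ^ 2 := by
      rw [mul_pow, mul_pow, mul_pow, Real.sq_sqrt (by linarith)]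
      ring
    rw [h8, one_div, inv_mul_eq_div]
    refine div_le_div_of_nonneg_right ?_ hΔr.le
    have h9 : 0 ≤ m ^ 3 * x ^ 2 := by positivity
    nlinarith
  · intro v
    have h3 : ∀ a, nm (Da a (fun χ : V → T => ∑ w, c v w * (1 + om t' w χ))) ≤
        PM G Δ v a * (8 * m * Real.sqrt m * x) := by
      intro a
      refine (hDa v a).trans ((mul_le_mul_of_nonneg_right (hcb v a) hsm).trans (le_of_eq ?_))
      ring
    refine (sum_le_sum fun a _ => h3 a).trans ?_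
    rw [← sum_mul, PM_row G Δ hΔ hG v, one_mul]
  · intro a
    have h3 : ∀ v, nm (Da a (fun χ : V → T => ∑ w, c v w * (1 + om t' w χ))) ≤
        PM G Δ v a * (8 * m * Real.sqrt m * x) := by
      intro v
      refine (hDa v a).trans ((mul_le_mul_of_nonneg_right (hcb v a) hsm).trans (le_of_eq ?_))
      ring
    refine (sum_le_sum fun v _ => h3 v).trans ?_
    rw [← sum_mul, hcol, one_mul]

end Pool.Agent.H2.LN.HH
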